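import Pool.Agent.H99.EpiNil

/-!
# Codistributive varieties do not contain `C2`
-/

namespace Pool.Agent.H99.Epi

/-- The elements of the unary subsemigroup generated by `x`. -/
inductive Gen1 {S : Type} [USemigroup S] (x : S) : S → Prop
  | base : Gen1 x x
  | mul {a b : S} : Gen1 x a → Gen1 x b → Gen1 x (a * b)
  | bar {a : S} : Gen1 x a → Gen1 x (bar a)

section

variable {S : Type} [USemigroup S]

theorem gen1_of_gen2 {x g : S} (h : Gen2 x x g) : Gen1 x g := by
  induction h with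
  | left => exact Gen1.base
  | right => exact Gen1.base
  | mul _ _ ih1 ih2 => exact Gen1.mul ih1 ih2
  | bar _ ih => exact Gen1.bar ih

/-- `1` or an element generated by `x`. -/
def G1 (x : S) (h : WithOne S) : Prop := h = 1 ∨ ∃ g, Gen1 x g ∧ h = (g : WithOne S)

theorem G1.one (x : S) : G1 x 1 := Or.inl rfl

theorem G1.coe {x g : S} (h : Gen1 x g) : G1 x (g : WithOne S) := Or.inr ⟨g, h, rfl⟩

theorem G1.mul {x : S} {h k : WithOne S} (hh : G1 x h) (hk : G1 x k) : G1 x (h * k) := by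
  rcases hh with rfl | ⟨a, ha, rfl⟩
  · rw [one_mul]
    exact hk
  · rcases hk with rfl | ⟨b, hb, rfl⟩
    · rw [mul_one]
      exact G1.coe ha
    · exact Or.inr ⟨a * b, ha.mul hb, (WithOne.coe_mul a b).symm⟩

theorem gen1_comm (hE : IsEpigroup S) {x g : S} (h : Gen1 x g) : x * g = g * x := by
  induction h with
  | base => rfl
  | mul _ _ ih1 ih2 => rw [← mul_assoc, ih1, mul_assoc, ih2, mul_assoc]
  | bar _ ih => exact comm_bar hE ih

theorem G1.comm (hE : IsEpigroup S) {x : S} {h : WithOne S} (hh : G1 x h) :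
    (x : WithOne S) * h = h * x := by
  rcases hh with rfl | ⟨a, ha, rfl⟩
  · rw [one_mul, mul_one]
  · rw [← WithOne.coe_mul, ← WithOne.coe_mul, gen1_comm hE ha]

theorem gen1_factor (hE : IsEpigroup S) {x g : S} (h : Gen1 x g) :
    ∃ k, G1 x k ∧ (g : WithOne S) = x * k := by
  induction h with
  | base => exact ⟨1, G1.one x, (mul_one _).symm⟩
  | @mul a b _ hb ih1 _ =>
    obtain ⟨k, hk, hak⟩ := ih1
    refine ⟨k * b, hk.mul (G1.coe hb), ?_⟩
    rw [WithOne.coe_mul, hak, mul_assoc]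
  | @bar a ha ih =>
    obtain ⟨k, hk, hak⟩ := ih
    refine ⟨k * ((bar a * bar a : S) : WithOne S),
      hk.mul (G1.coe (ha.bar.mul ha.bar)), ?_⟩
    rw [bar_eq_left hE a, WithOne.coe_mul, hak, mul_assoc]
    congr 2
    rw [← bar_eq_left hE a]

theorem coe_spow (x : S) (n : ℕ) : ((spow x n : S) : WithOne S) = (x : WithOne S) ^ (n + 1) := by
  induction n with
  | zero => rw [zero_add, pow_one]; rfl
  | succ n ih =>
    rw [pow_succ, ← ih]
    exact WithOne.coe_mul _ _

variable {n : ℕ}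

/-- The idempotent `x^ω`, as an element of the monoid. -/
def om (x : S) : WithOne S := ((x * bar x : S) : WithOne S)

theorem pow_om (hn : DrazinN n S) (x : S) :
    (x : WithOne S) ^ (n + 1) * om x = (x : WithOne S) ^ (n + 1) := by
  rw [← coe_spow, om, ← WithOne.coe_mul, (hn x).2.2]

theorem om_pow (hn : DrazinN n S) (x : S) :
    om x * (x : WithOne S) ^ (n + 1) = (x : WithOne S) ^ (n + 1) := by
  rw [← coe_spow, om, ← WithOne.coe_mul]
  have h1 : (x * bar x) * x = x * (x * bar x) := by rw [mul_assoc, (hn x).1]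
  rw [spow_comm_of_comm h1 n, (hn x).2.2]

theorem fac_om (hn : DrazinN n S) {x : S} {k : WithOne S} (hk : (x : WithOne S) * k = k * x) :
    ((x : WithOne S) * k) ^ (n + 1) * om x = ((x : WithOne S) * k) ^ (n + 1) := by
  have h1 : Commute (x : WithOne S) k := hk
  rw [h1.mul_pow, (h1.pow_pow _ _).eq, mul_assoc, pow_om hn]

theorem om_fac (hn : DrazinN n S) {x : S} {k : WithOne S} (hk : (x : WithOne S) * k = k * x) :
    om x * ((x : WithOne S) * k) ^ (n + 1) = ((x : WithOne S) * k) ^ (n + 1) := by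
  have h1 : Commute (x : WithOne S) k := hk
  rw [h1.mul_pow, ← mul_assoc, om_pow hn]

theorem iter_both {M : Type} [Monoid M] {u p q : M} (h : u = p * u * q) (k : ℕ) :
    u = p ^ k * u * q ^ k := by
  induction k with
  | zero => simp
  | succ k ih =>
    calc u = p ^ k * u * q ^ k := ih
      _ = p ^ k * (p * u * q) * q ^ k := by rw [← h]
      _ = (p ^ k * p) * u * (q * q ^ k) := by simp only [mul_assoc]
      _ = p ^ (k + 1) * u * q ^ (k + 1) := by rw [← pow_succ, ← pow_succ']

/-- The key relation gives `u x^ω = u`. -/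
theorem fix_right (hn : DrazinN n S) {x : S} {u p k : WithOne S}
    (hk : (x : WithOne S) * k = k * x) (h : u = p * u * (x * k)) : u * om x = u := by
  have h1 := iter_both h (n + 1)
  calc u * om x = (p ^ (n + 1) * u * (x * k) ^ (n + 1)) * om x := by rw [← h1]
    _ = p ^ (n + 1) * u * ((x * k) ^ (n + 1) * om x) := by simp only [mul_assoc]
    _ = p ^ (n + 1) * u * (x * k) ^ (n + 1) := by rw [fac_om hn hk]
    _ = u := h1.symm

theorem fix_left (hn : DrazinN n S) {x : S} {u k q : WithOne S}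
    (hk : (x : WithOne S) * k = k * x) (h : u = (x * k) * u * q) : om x * u = u := by
  have h1 := iter_both h (n + 1)
  calc om x * u = om x * ((x * k) ^ (n + 1) * u * q ^ (n + 1)) := by rw [← h1]
    _ = (om x * (x * k) ^ (n + 1)) * u * q ^ (n + 1) := by simp only [mul_assoc]
    _ = (x * k) ^ (n + 1) * u * q ^ (n + 1) := by rw [om_fac hn hk]
    _ = u := h1.symm

end

theorem pw3 {S : Type} [USemigroup S] {s : S} (h : s ∈ Pw S 3) :
    ∃ a b c d, s = a * b * c * d := by
  obtain ⟨t, ⟨r, ⟨q, _, b, rfl⟩, c, rfl⟩, d, rfl⟩ := h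
  exact ⟨q, b, c, d, rfl⟩

/-- Cubes are completely regular when `x y x` is deep. -/
theorem cube_fix {V : EpigroupVariety} (h0 : DeepU V 0) {n : ℕ}
    (hn : ∀ (S : Type) [USemigroup S], V.mem S → DrazinN n S) (S : Type) [USemigroup S]
    (hS : V.mem S) (x : S) :
    (x : WithOne S) * x * x * om x = (x : WithOne S) * x * x ∧
      om x * ((x : WithOne S) * x * x) = (x : WithOne S) * x * x := by
  have hE := V.isEpigroup S hS
  have h1 : x * x * x ∈ Pw S 3 ∧ ∃ a b c d : S, Gen1 x a ∧ Gen1 x b ∧ Gen1 x c ∧ Gen1 x d ∧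
      x * x * x = a * b * c * d := by
    refine ⟨h0.all S hS x x, ?_⟩
    have h2 := h0 (Sub2 x x) (V.mem_sub2 hS x x) (g1 x x) (g2 x x) (gen_sub2 x x)
    obtain ⟨a, b, c, d, habcd⟩ := pw3 h2
    refine ⟨a.1, b.1, c.1, d.1, gen1_of_gen2 a.2, gen1_of_gen2 b.2, gen1_of_gen2 c.2,
      gen1_of_gen2 d.2, ?_⟩
    exact congrArg Subtype.val habcd
  obtain ⟨-, a, b, c, d, ha, hb, hc, hd, habcd⟩ := h1
  obtain ⟨ka, hka, ea⟩ := gen1_factor hE ha
  have h3 : G1 x (ka * b * c * d) :=
    ((hka.mul (G1.coe hb)).mul (G1.coe hc)).mul (G1.coe hd)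
  obtain ⟨kb, hkb, eb⟩ := gen1_factor hE hb
  obtain ⟨kc, hkc, ec⟩ := gen1_factor hE hc
  obtain ⟨kd, hkd, ed⟩ := gen1_factor hE hd
  have ca := hka.comm hE
  have cb := hkb.comm hE
  have cc := hkc.comm hE
  have cd := hkd.comm hE
  generalize hX : (x : WithOne S) = X at *
  have h4 : X * X * X = a * b * c * d := by
    rw [← hX, ← WithOne.coe_mul, ← WithOne.coe_mul, habcd, WithOne.coe_mul, WithOne.coe_mul,
      WithOne.coe_mul]
  have h5 : X * X * X = 1 * (X * X * X) * (X * (ka * kb * kc * kd)) := by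
    calc X * X * X = (X * ka) * (X * kb) * (X * kc) * (X * kd) := by
          rw [h4, ea, eb, ec, ed]
      _ = X * (ka * X) * kb * (X * kc) * (X * kd) := by simp only [mul_assoc]
      _ = X * (X * ka) * kb * (X * kc) * (X * kd) := by rw [ca]
      _ = X * X * ka * (kb * X) * kc * (X * kd) := by simp only [mul_assoc]
      _ = X * X * ka * (X * kb) * kc * (X * kd) := by rw [cb]
      _ = X * X * (ka * X) * kb * (kc * X) * kd := by simp only [mul_assoc]
      _ = X * X * (X * ka) * kb * (X * kc) * kd := by rw [ca, cc]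
      _ = X * X * X * ka * (kb * X) * kc * kd := by simp only [mul_assoc]
      _ = X * X * X * ka * (X * kb) * kc * kd := by rw [cb]
      _ = X * X * X * (ka * X) * kb * kc * kd := by simp only [mul_assoc]
      _ = X * X * X * (X * ka) * kb * kc * kd := by rw [ca]
      _ = 1 * (X * X * X) * (X * (ka * kb * kc * kd)) := by simp only [mul_assoc, one_mul]
  have h6 : G1 x (ka * kb * kc * kd) := ((hka.mul hkb).mul hkc).mul hkd
  have h7 := h6.comm hE
  rw [hX] at h7
  have h8 : X * X * X * om x = X * X * X := by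
    subst hX
    exact fix_right (hn S hS) h7 h5
  refine ⟨h8, ?_⟩
  have h9 : om x * X = X * om x := by
    rw [← hX, om, ← WithOne.coe_mul, ← WithOne.coe_mul, mul_assoc, ← bar_comm hE]
  calc om x * (X * X * X) = (om x * X) * X * X := by simp only [mul_assoc]
    _ = X * om x * X * X := by rw [h9]
    _ = X * (om x * X) * X := by simp only [mul_assoc]
    _ = X * (X * om x) * X := by rw [h9]
    _ = X * X * (om x * X) := by simp only [mul_assoc]
    _ = X * X * (X * om x) := by rw [h9]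
    _ = X * X * X * om x := by simp only [mul_assoc]
    _ = X * X * X := h8

/-- Classification of the elements of `⟨x, y⟩` by their last coordinate. -/
theorem classify {A B : Type} [USemigroup A] [USemigroup B] {x y : A × (B × C2)}
    (hx : x.2.2 = C2.e) (hy : y.2.2 = C2.c) {r : A × (B × C2)} (h : Gen2 x y r) :
    (r.2.2 = C2.e → Gen1 x r) ∧
      (r.2.2 = C2.c → ∃ P Q, G1 x P ∧ G1 x Q ∧ (r : WithOne (A × (B × C2))) = P * y * Q) := by
  have hmul : ∀ a b : C2, a * b = C2.e → a = C2.e ∧ b = C2.e := by decide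
  have hmulc : ∀ a b : C2, a * b = C2.c → (a = C2.e ∧ b = C2.c) ∨ (a = C2.c ∧ b = C2.e) := by
    decide
  have hbar : ∀ a : C2, bar a = C2.e → a = C2.e := by decide
  have hbarc : ∀ a : C2, bar a ≠ C2.c := by decide
  induction h with
  | left =>
    refine ⟨fun _ => Gen1.base, fun h => ?_⟩
    rw [hx] at h
    cases h
  | right =>
    refine ⟨fun h => ?_, fun _ => ⟨1, 1, G1.one x, G1.one x, by simp⟩⟩
    rw [hy] at h
    cases h
  | @mul a b _ _ ih1 ih2 =>
    constructor
    · intro h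
      obtain ⟨h1, h2⟩ := hmul a.2.2 b.2.2 h
      exact (ih1.1 h1).mul (ih2.1 h2)
    · intro h
      rcases hmulc a.2.2 b.2.2 h with ⟨h1, h2⟩ | ⟨h1, h2⟩
      · obtain ⟨P, Q, hP, hQ, e⟩ := ih2.2 h2
        refine ⟨a * P, Q, (G1.coe (ih1.1 h1)).mul hP, hQ, ?_⟩
        rw [WithOne.coe_mul, e]
        simp only [mul_assoc]
      · obtain ⟨P, Q, hP, hQ, e⟩ := ih1.2 h1
        refine ⟨P, Q * b, hP, hQ.mul (G1.coe (ih2.1 h2)), ?_⟩
        rw [WithOne.coe_mul, e]
        simp only [mul_assoc]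
  | @bar a _ ih =>
    exact ⟨fun h => (ih.1 (hbar a.2.2 h)).bar, fun h => absurd h (hbarc a.2.2)⟩

theorem stepA0 {V : EpigroupVariety} (hV : IsCodistributive V) (hC : V.mem C2) :
    ¬ DeepU V 0 := by
  intro h0
  obtain ⟨n, hn⟩ := exists_index V
  have h1 := step4a hV hC
  have h2 := step4b hV hC
  push Not at h1 h2
  obtain ⟨A, iA, hA, x1, y1, hxy1⟩ := h1
  obtain ⟨B, iB, hB, x2, y2, hxy2⟩ := h2
  let x : A × (B × C2) := (x1, (x2, C2.e))
  let y : A × (B × C2) := (y1, (y2, C2.c))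
  have hR : V.mem (A × (B × C2)) := V.mem_prod _ _ hA (V.mem_prod _ _ hB hC)
  have hE := V.isEpigroup _ hR
  have hd := hn _ hR
  have h3 := h0 (Sub2 x y) (V.mem_sub2 hR x y) (g1 x y) (g2 x y) (gen_sub2 x y)
  obtain ⟨a, b, c, d, habcd⟩ := pw3 h3
  have h4 : x * y * x = a.1 * b.1 * c.1 * d.1 := congrArg Subtype.val habcd
  have hex : x.2.2 = C2.e := rfl
  have hcy : y.2.2 = C2.c := rfl
  have ca := classify hex hcy a.2
  have cb := classify hex hcy b.2
  have cc := classify hex hcy c.2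
  have cd := classify hex hcy d.2
  have h5 : a.1.2.2 * b.1.2.2 * c.1.2.2 * d.1.2.2 = C2.c :=
    (congrArg (fun t : A × (B × C2) => t.2.2) h4).symm
  have h6 : ∀ p q r s : C2, p * q * r * s = C2.c →
      (p = C2.c ∧ q = C2.e ∧ r = C2.e ∧ s = C2.e) ∨ (p = C2.e ∧ q = C2.c ∧ r = C2.e ∧ s = C2.e) ∨
      (p = C2.e ∧ q = C2.e ∧ r = C2.c ∧ s = C2.e) ∨
      (p = C2.e ∧ q = C2.e ∧ r = C2.e ∧ s = C2.c) := by decide
  generalize a.1 = a at *
  generalize b.1 = b at *
  generalize c.1 = c at *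
  generalize d.1 = d at *
  -- final contradiction
  have hcon1 : (x * y * x : WithOne (A × (B × C2))) * om x ≠ x * y * x := by
    intro h
    rw [om, ← WithOne.coe_mul, ← WithOne.coe_mul, ← WithOne.coe_mul] at h
    have h' := WithOne.coe_injective h
    exact hxy1 (congrArg Prod.fst h')
  have hcon2 : om x * (x * y * x : WithOne (A × (B × C2))) ≠ x * y * x := by
    intro h
    rw [om, ← WithOne.coe_mul, ← WithOne.coe_mul, ← WithOne.coe_mul] at h
    have h' := WithOne.coe_injective h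
    exact hxy2 (congrArg (fun t => t.2.1) h')
  obtain ⟨cube1, cube2⟩ := cube_fix h0 hn _ hR x
  have h7 : (x * y * x : WithOne (A × (B × C2))) = a * b * c * d := by
    rw [← WithOne.coe_mul, ← WithOne.coe_mul, ← WithOne.coe_mul, ← WithOne.coe_mul,
      ← WithOne.coe_mul, h4]
  rcases h6 _ _ _ _ h5 with ⟨ka, kb, kc, kd⟩ | ⟨ka, kb, kc, kd⟩ | ⟨ka, kb, kc, kd⟩ |
    ⟨ka, kb, kc, kd⟩
  · obtain ⟨P, Q, hP, hQ, e1⟩ := ca.2 ka
    obtain ⟨fb, hfb, e2⟩ := gen1_factor hE (cb.1 kb)
    obtain ⟨fc, hfc, e3⟩ := gen1_factor hE (cc.1 kc)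
    obtain ⟨fd, hfd, e4⟩ := gen1_factor hE (cd.1 kd)
    have mb := hfb.comm hE
    have mc := hfc.comm hE
    have md := hfd.comm hE
    apply hcon1
    rw [h7, e1, e2, e3, e4]
    generalize (x : WithOne (A × (B × C2))) = X at *
    generalize (y : WithOne (A × (B × C2))) = Y at *
    have h8 : P * Y * Q * (X * fb) * (X * fc) * (X * fd) = P * Y * Q * fb * fc * fd * (X * X * X) := by
      calc P * Y * Q * (X * fb) * (X * fc) * (X * fd)
          = P * Y * Q * (fb * X) * (fc * X) * (fd * X) := by rw [mb, mc, md]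
        _ = P * Y * Q * fb * (X * fc) * (X * fd) * X := by simp only [mul_assoc]
        _ = P * Y * Q * fb * (fc * X) * (fd * X) * X := by rw [mc, md]
        _ = P * Y * Q * fb * fc * (X * fd) * (X * X) := by simp only [mul_assoc]
        _ = P * Y * Q * fb * fc * (fd * X) * (X * X) := by rw [md]
        _ = P * Y * Q * fb * fc * fd * (X * X * X) := by simp only [mul_assoc]
    rw [h8, mul_assoc, cube1]
  · obtain ⟨P, Q, hP, hQ, e1⟩ := cb.2 kb
    obtain ⟨fa, hfa, e2⟩ := gen1_factor hE (ca.1 ka)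
    obtain ⟨fc, hfc, e3⟩ := gen1_factor hE (cc.1 kc)
    obtain ⟨fd, hfd, e4⟩ := gen1_factor hE (cd.1 kd)
    have ma := hfa.comm hE
    have mP := hP.comm hE
    have mQ := hQ.comm hE
    have mc := hfc.comm hE
    have mk := ((hQ.mul hfc).mul hfd).comm hE
    apply hcon1
    refine fix_right hd (p := fa * P) (k := Q * fc * fd) mk ?_
    rw [h7, e1, e2, e3, e4]
    generalize (x : WithOne (A × (B × C2))) = X at *
    generalize (y : WithOne (A × (B × C2))) = Y at *
    rw [e2, e1, e3, e4] at h7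
    calc X * fa * (P * Y * Q) * (X * fc) * (X * fd)
        = (X * fa) * P * Y * (Q * X) * fc * (X * fd) := by simp only [mul_assoc]
      _ = (fa * X) * P * Y * (X * Q) * fc * (X * fd) := by rw [ma, mQ]
      _ = fa * (X * P) * Y * X * Q * (fc * X) * fd := by simp only [mul_assoc]
      _ = fa * (P * X) * Y * X * Q * (X * fc) * fd := by rw [mP, mc]
      _ = fa * P * (X * Y * X) * (Q * X) * fc * fd := by simp only [mul_assoc]
      _ = fa * P * (X * Y * X) * (X * Q) * fc * fd := by rw [mQ]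
      _ = fa * P * (X * fa * (P * Y * Q) * (X * fc) * (X * fd)) * (X * (Q * fc * fd)) := by
        rw [h7]; simp only [mul_assoc]
  · obtain ⟨P, Q, hP, hQ, e1⟩ := cc.2 kc
    obtain ⟨fa, hfa, e2⟩ := gen1_factor hE (ca.1 ka)
    obtain ⟨fb, hfb, e3⟩ := gen1_factor hE (cb.1 kb)
    obtain ⟨fd, hfd, e4⟩ := gen1_factor hE (cd.1 kd)
    have ma := hfa.comm hE
    have mb := hfb.comm hE
    have mP := hP.comm hE
    have mQ := hQ.comm hE
    have mk := ((hfa.mul hfb).mul hP).comm hE
    apply hcon2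
    refine fix_left hd (k := fa * fb * P) (q := Q * fd) mk ?_
    rw [h7, e1, e2, e3, e4]
    generalize (x : WithOne (A × (B × C2))) = X at *
    generalize (y : WithOne (A × (B × C2))) = Y at *
    rw [e2, e1, e3, e4] at h7
    calc X * fa * (X * fb) * (P * Y * Q) * (X * fd)
        = X * fa * (X * fb) * P * Y * (Q * X) * fd := by simp only [mul_assoc]
      _ = X * fa * (fb * X) * P * Y * (X * Q) * fd := by rw [mb, mQ]
      _ = X * fa * fb * (X * P) * Y * X * Q * fd := by simp only [mul_assoc]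
      _ = X * fa * fb * (P * X) * Y * X * Q * fd := by rw [mP]
      _ = X * (fa * fb * P) * (X * Y * X) * (Q * fd) := by simp only [mul_assoc]
      _ = X * (fa * fb * P) * (X * fa * (X * fb) * (P * Y * Q) * (X * fd)) * (Q * fd) := by
        rw [h7]
  · obtain ⟨P, Q, hP, hQ, e1⟩ := cd.2 kd
    obtain ⟨fa, hfa, e2⟩ := gen1_factor hE (ca.1 ka)
    obtain ⟨fb, hfb, e3⟩ := gen1_factor hE (cb.1 kb)
    obtain ⟨fc, hfc, e4⟩ := gen1_factor hE (cc.1 kc)
    have ma := hfa.comm hE
    have mb := hfb.comm hE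
    have mc := hfc.comm hE
    apply hcon2
    rw [h7, e1, e2, e3, e4]
    generalize (x : WithOne (A × (B × C2))) = X at *
    generalize (y : WithOne (A × (B × C2))) = Y at *
    have h8 : X * fa * (X * fb) * (X * fc) * (P * Y * Q) =
        (X * X * X) * (fa * fb * fc * (P * Y * Q)) := by
      calc X * fa * (X * fb) * (X * fc) * (P * Y * Q)
          = X * (fa * X) * (fb * X) * fc * (P * Y * Q) := by simp only [mul_assoc]
        _ = X * (X * fa) * (X * fb) * fc * (P * Y * Q) := by rw [ma, mb]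
        _ = X * X * (fa * X) * fb * fc * (P * Y * Q) := by simp only [mul_assoc]
        _ = X * X * (X * fa) * fb * fc * (P * Y * Q) := by rw [ma]
        _ = (X * X * X) * (fa * fb * fc * (P * Y * Q)) := by simp only [mul_assoc]
    rw [h8, ← mul_assoc, cube2]

theorem deepU_index {V : EpigroupVariety} {n : ℕ}
    (hn : ∀ (S : Type) [USemigroup S], V.mem S → DrazinN n S) : DeepU V n := by
  intro S _ hS x y _
  have hE := V.isEpigroup S hS
  have h1 := (hn S hS x).2.2
  rw [← h1, ← mul_assoc (spow x n), ← mul_assoc (x * y)]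
  exact mul_pw (pw_bar hE (n + 2) x) _

/-- Step A: a codistributive variety does not contain `C2`. -/
theorem stepA {V : EpigroupVariety} (hV : IsCodistributive V) : ¬ V.mem C2 := by
  intro hC
  obtain ⟨n, hn⟩ := exists_index V
  have h0 := stepA0 hV hC
  have hex : ∃ k, DeepU V k := ⟨n, deepU_index hn⟩
  classical
  have h1 := Nat.find_spec hex
  have h2 : Nat.find hex ≠ 0 := by
    intro h
    rw [h] at h1
    exact h0 h1
  obtain ⟨m, hm⟩ := Nat.exists_eq_succ_of_ne_zero h2
  have h3 : ¬ DeepU V m := Nat.find_min hex (by omega)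
  rw [hm] at h1
  by_cases h4 : DeepW V m
  · exact caseAlpha hV h3 h4
  · exact caseBeta hV hC h1 h4

end Pool.Agent.H99.Epi
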