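import Mathlib

/-!
# Epigroup varieties: basic framework

Unary semigroups, epigroups, epigroup varieties and the lattice `EPI` of epigroup varieties.
-/

namespace Pool.Agent.H99.Epi

/-- A unary semigroup: a semigroup with an additional unary operation `bar`. -/
class USemigroup (S : Type) extends Semigroup S where
  /-- the unary operation -/
  bar : S → S

export USemigroup (bar)

/-- `spow x n` is the power `x ^ (n + 1)` in a semigroup. -/
def spow {S : Type} [Semigroup S] (x : S) : ℕ → S
  | 0 => x
  | n + 1 => spow x n * x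

/-- `g` belongs to the maximal subgroup of `S` with identity `e`, i.e. `e` is an idempotent
and `g` is a unit of the monoid `eSe`. -/
def InMaxSubgroup {S : Type} [Semigroup S] (e g : S) : Prop :=
  e * e = e ∧ e * g = g ∧ g * e = g ∧ ∃ h, e * h = h ∧ h * e = h ∧ g * h = e ∧ h * g = e

/-- `y` is the pseudoinverse of `x`: some power `x ^ (n + 1)` of `x` lies in the maximal
subgroup with identity `e`, and `y` is the inverse of `x * e` in that subgroup. -/
def IsPseudoinverse {S : Type} [Semigroup S] (x y : S) : Prop :=
  ∃ e n, InMaxSubgroup e (spow x n) ∧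
    e * y = y ∧ y * e = y ∧ (x * e) * y = e ∧ y * (x * e) = e

/-- The unary semigroup `S` is an epigroup and its unary operation is pseudoinversion. -/
def IsEpigroup (S : Type) [USemigroup S] : Prop := ∀ x : S, IsPseudoinverse x (bar x)

/-- Homomorphisms of unary semigroups. -/
structure UHom (S T : Type) [USemigroup S] [USemigroup T] where
  /-- the underlying map -/
  toFun : S → T
  map_mul : ∀ a b, toFun (a * b) = toFun a * toFun b
  map_bar : ∀ a, toFun (bar a) = bar (toFun a)

instance (S T : Type) [USemigroup S] [USemigroup T] : CoeFun (UHom S T) (fun _ => S → T) :=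
  ⟨UHom.toFun⟩

/-- Direct products of unary semigroups. -/
instance piUSemigroup (ι : Type) (S : ι → Type) [∀ i, USemigroup (S i)] :
    USemigroup (∀ i, S i) :=
  { (inferInstance : Semigroup (∀ i, S i)) with bar := fun a i => bar (a i) }

/-- Direct products of two unary semigroups. -/
instance prodUSemigroup (S T : Type) [USemigroup S] [USemigroup T] :
    USemigroup (S × T) :=
  { (inferInstance : Semigroup (S × T)) with bar := fun a => (bar a.1, bar a.2) }

/-- An epigroup variety: a class of epigroups (regarded as unary semigroups whose unary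
operation is pseudoinversion) which is closed under homomorphic images, (isomorphic copies
of) unary subsemigroups and arbitrary direct products. -/
structure EpigroupVariety where
  /-- membership in the class -/
  mem : ∀ (S : Type) [USemigroup S], Prop
  isEpigroup : ∀ (S : Type) [USemigroup S], mem S → IsEpigroup S
  hom_image : ∀ (S T : Type) [USemigroup S] [USemigroup T] (f : UHom S T),
    Function.Surjective f → mem S → mem T
  sub : ∀ (S T : Type) [USemigroup S] [USemigroup T] (f : UHom S T),
    Function.Injective f → mem T → mem S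
  prod : ∀ (ι : Type) (S : ι → Type) [∀ i, USemigroup (S i)],
    (∀ i, mem (S i)) → mem (∀ i, S i)

/-! ### Pseudoinverses and Drazin inverses -/

section drazin

variable {S : Type} [Semigroup S]

theorem spow_comm_of_comm {a x : S} (h : a * x = x * a) (n : ℕ) :
    a * spow x n = spow x n * a := by
  induction n with
  | zero => exact h
  | succ n ih =>
    show a * (spow x n * x) = spow x n * x * a
    rw [← mul_assoc, ih, mul_assoc, h, mul_assoc]

theorem spow_self_comm (x : S) (n : ℕ) : x * spow x n = spow x n * x :=
  spow_comm_of_comm rfl n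

theorem spow_mul_spow (x : S) (m n : ℕ) : spow x m * spow x n = spow x (m + n + 1) := by
  induction n with
  | zero => rfl
  | succ n ih =>
    show spow x m * (spow x n * x) = spow x (m + n + 1) * x
    rw [← mul_assoc, ih]

theorem spow_mul_of_comm {x y : S} (h : x * y = y * x) (n : ℕ) :
    spow x n * spow y n = spow (x * y) n := by
  induction n with
  | zero => rfl
  | succ n ih =>
    show (spow x n * x) * (spow y n * y) = spow (x * y) n * (x * y)
    rw [← ih]
    have h1 : x * spow y n = spow y n * x := spow_comm_of_comm h n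
    calc (spow x n * x) * (spow y n * y) = spow x n * (x * spow y n) * y := by
          simp only [mul_assoc]
      _ = spow x n * (spow y n * x) * y := by rw [h1]
      _ = spow x n * spow y n * (x * y) := by simp only [mul_assoc]

theorem spow_idem {e : S} (h : e * e = e) (n : ℕ) : spow e n = e := by
  induction n with
  | zero => rfl
  | succ n ih => show spow e n * e = e; rw [ih, h]

/-- Pseudoinverses are Drazin inverses. -/
theorem IsPseudoinverse.drazin {x y : S} (h : IsPseudoinverse x y) :
    x * y = y * x ∧ y * x * y = y ∧ ∃ n, spow x n * (x * y) = spow x n := by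
  obtain ⟨e, n, ⟨hee, heX, hXe, g, heg, hge, hXg, hgX⟩, hey, hye, h1, h2⟩ := h
  have hc := spow_self_comm x n
  have hex : e * x = e * x * e := by
    calc e * x = g * spow x n * x := by rw [hgX]
      _ = g * (spow x n * x) := mul_assoc _ _ _
      _ = g * (x * spow x n) := by rw [hc]
      _ = g * (x * (spow x n * e)) := by rw [hXe]
      _ = g * (x * spow x n) * e := by simp only [mul_assoc]
      _ = g * (spow x n * x) * e := by rw [hc]
      _ = (g * spow x n) * x * e := by simp only [mul_assoc]
      _ = e * x * e := by rw [hgX]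
  have hxe : x * e = e * x * e := by
    calc x * e = x * (spow x n * g) := by rw [hXg]
      _ = (x * spow x n) * g := by rw [mul_assoc]
      _ = (spow x n * x) * g := by rw [hc]
      _ = ((e * spow x n) * x) * g := by rw [heX]
      _ = e * ((spow x n * x) * g) := by simp only [mul_assoc]
      _ = e * ((x * spow x n) * g) := by rw [hc]
      _ = e * x * (spow x n * g) := by simp only [mul_assoc]
      _ = e * x * e := by rw [hXg]
  have hcomm : e * x = x * e := by rw [hex, hxe]
  have hxy : x * y = e := by
    calc x * y = x * (e * y) := by rw [hey]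
      _ = x * e * y := by rw [mul_assoc]
      _ = e := h1
  have hyx : y * x = e := by
    calc y * x = y * e * x := by rw [hye]
      _ = y * (e * x) := mul_assoc _ _ _
      _ = y * (x * e) := by rw [hcomm]
      _ = e := h2
  refine ⟨by rw [hxy, hyx], by rw [hyx, hey], n, by rw [hxy, hXe]⟩

/-- Drazin inverses are pseudoinverses. -/
theorem isPseudoinverse_of_drazin {x y : S} {n : ℕ} (h1 : x * y = y * x)
    (h2 : y * x * y = y) (h3 : spow x n * (x * y) = spow x n) : IsPseudoinverse x y := by
  have hxx : (x * y) * x = x * (x * y) := by rw [mul_assoc, ← h1]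
  have hyy : (x * y) * y = y * (x * y) := by rw [h1, mul_assoc, h1]
  have hX : (x * y) * spow x n = spow x n * (x * y) := spow_comm_of_comm hxx n
  have hY : (x * y) * spow y n = spow y n * (x * y) := spow_comm_of_comm hyy n
  have hey : (x * y) * y = y := by rw [h1, h2]
  have hye : y * (x * y) = y := by rw [← mul_assoc, h2]
  have hee : (x * y) * (x * y) = x * y := by
    rw [← mul_assoc, mul_assoc x y x, ← h1, mul_assoc x (x * y) y, hey]
  have heY : (x * y) * spow y n = spow y n := by
    rw [hY]
    cases n with
    | zero => exact hye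
    | succ n => show spow y n * y * (x * y) = spow y n * y; rw [mul_assoc, hye]
  have hXY : spow x n * spow y n = x * y := by
    rw [spow_mul_of_comm h1, spow_idem hee]
  have hYX : spow y n * spow x n = x * y := by
    rw [spow_mul_of_comm h1.symm, ← h1, spow_idem hee]
  refine ⟨x * y, n, ⟨hee, by rw [hX, h3], h3, spow y n, heY, by rw [← hY, heY], hXY, hYX⟩,
    hey, hye, ?_, ?_⟩
  · rw [mul_assoc, hey]
  · rw [← mul_assoc, ← h1, hee]

end drazin

/-! ### The lattice of epigroup varieties -/

theorem UHom.map_spow {S T : Type} [USemigroup S] [USemigroup T] (f : UHom S T) (x : S)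
    (n : ℕ) : f (spow x n) = spow (f x) n := by
  induction n with
  | zero => rfl
  | succ n ih => show f (spow x n * x) = spow (f x) n * f x; rw [f.map_mul, ih]

theorem isEpigroup_image {S T : Type} [USemigroup S] [USemigroup T] (f : UHom S T)
    (hf : Function.Surjective f) (hS : IsEpigroup S) : IsEpigroup T := by
  intro t
  obtain ⟨x, rfl⟩ := hf t
  obtain ⟨h1, h2, n, h3⟩ := (hS x).drazin
  refine isPseudoinverse_of_drazin (n := n) ?_ ?_ ?_
  · rw [← f.map_bar, ← f.map_mul, h1, f.map_mul]
  · rw [← f.map_bar, ← f.map_mul, ← f.map_mul, h2]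
  · rw [← f.map_bar, ← f.map_mul, ← f.map_spow, ← f.map_mul, h3]

theorem isEpigroup_sub {S T : Type} [USemigroup S] [USemigroup T] (f : UHom S T)
    (hf : Function.Injective f) (hT : IsEpigroup T) : IsEpigroup S := by
  intro x
  obtain ⟨h1, h2, n, h3⟩ := (hT (f x)).drazin
  refine isPseudoinverse_of_drazin (n := n) ?_ ?_ ?_ <;> apply hf
  · rw [f.map_mul, f.map_mul, f.map_bar, h1]
  · rw [f.map_mul, f.map_mul, f.map_bar, h2]
  · rw [f.map_mul, f.map_mul, f.map_spow, f.map_bar, h3]

theorem spow_prod {A B : Type} [USemigroup A] [USemigroup B] (a : A) (b : B) (n : ℕ) :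
    spow (a, b) n = (spow a n, spow b n) := by
  induction n with
  | zero => rfl
  | succ n ih => show spow (a, b) n * (a, b) = _; rw [ih]; rfl

theorem drazin_index_mono {S : Type} [Semigroup S] {x y : S} {n : ℕ} (hn : ℕ)
    (h3 : spow x n * (x * y) = spow x n) (h1 : x * y = y * x) :
    spow x (n + hn) * (x * y) = spow x (n + hn) := by
  induction hn with
  | zero => exact h3
  | succ m ih =>
    show spow x (n + m) * x * (x * y) = spow x (n + m) * x
    have hxx : x * (x * y) = (x * y) * x := by rw [mul_assoc, ← h1]
    rw [mul_assoc, hxx, ← mul_assoc, ih]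

theorem isEpigroup_prod {A B : Type} [USemigroup A] [USemigroup B] (hA : IsEpigroup A)
    (hB : IsEpigroup B) : IsEpigroup (A × B) := by
  rintro ⟨a, b⟩
  obtain ⟨h1, h2, n, h3⟩ := (hA a).drazin
  obtain ⟨k1, k2, m, k3⟩ := (hB b).drazin
  refine isPseudoinverse_of_drazin (n := n + m) ?_ ?_ ?_
  · exact Prod.ext h1 k1
  · exact Prod.ext h2 k2
  · rw [spow_prod]
    refine Prod.ext (drazin_index_mono m h3 h1) ?_
    have := drazin_index_mono n k3 k1
    rw [add_comm m n] at this
    exact this

/-- The class of homomorphic images of subalgebras of products `A × B`. -/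
def JoinMem (V W : EpigroupVariety) (S : Type) [USemigroup S] : Prop :=
  ∃ (A B C : Type) (_ : USemigroup A) (_ : USemigroup B) (_ : USemigroup C),
    V.mem A ∧ W.mem B ∧ (∃ f : UHom C (A × B), Function.Injective f) ∧
      ∃ g : UHom C S, Function.Surjective g

/-- The composition of homomorphisms. -/
def UHom.comp {S T U : Type} [USemigroup S] [USemigroup T] [USemigroup U] (g : UHom T U)
    (f : UHom S T) : UHom S U where
  toFun := fun x => g (f x)
  map_mul a b := by rw [f.map_mul, g.map_mul]
  map_bar a := by rw [f.map_bar, g.map_bar]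

/-- The join of two epigroup varieties. -/
def join (V W : EpigroupVariety) : EpigroupVariety where
  mem S _ := JoinMem V W S
  isEpigroup S _ := by
    rintro ⟨A, B, C, _, _, _, hA, hB, ⟨f, hf⟩, g, hg⟩
    exact isEpigroup_image g hg
      (isEpigroup_sub f hf (isEpigroup_prod (V.isEpigroup A hA) (W.isEpigroup B hB)))
  hom_image S T _ _ h hh := by
    rintro ⟨A, B, C, _, _, _, hA, hB, ⟨f, hf⟩, g, hg⟩
    exact ⟨A, B, C, _, _, _, hA, hB, ⟨f, hf⟩, h.comp g, hh.comp hg⟩
  sub S T _ _ h hh := by
    rintro ⟨A, B, C, _, _, _, hA, hB, ⟨f, hf⟩, g, hg⟩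
    -- the preimage of `S` in `C`
    let D : Type := {c : C // ∃ s, h s = g c}
    let iD : USemigroup D :=
      { mul := fun a b => ⟨a.1 * b.1, by
          obtain ⟨s, hs⟩ := a.2
          obtain ⟨t, ht⟩ := b.2
          exact ⟨s * t, by rw [h.map_mul, g.map_mul, hs, ht]⟩⟩
        mul_assoc := fun a b c => Subtype.ext (mul_assoc _ _ _)
        bar := fun a => ⟨bar a.1, by
          obtain ⟨s, hs⟩ := a.2
          exact ⟨bar s, by rw [h.map_bar, g.map_bar, hs]⟩⟩ }
    let i : UHom D C := ⟨fun d => d.1, fun _ _ => rfl, fun _ => rfl⟩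
    have hi : Function.Injective i := Subtype.val_injective
    let p : UHom D S :=
      { toFun := fun d => Classical.choose d.2
        map_mul := fun a b => by
          apply hh
          rw [h.map_mul, Classical.choose_spec (a * b).2, Classical.choose_spec a.2,
            Classical.choose_spec b.2]
          exact g.map_mul _ _
        map_bar := fun a => by
          apply hh
          rw [h.map_bar, Classical.choose_spec (bar a).2, Classical.choose_spec a.2]
          exact g.map_bar _ }
    refine ⟨A, B, D, _, _, _, hA, hB, ⟨f.comp i, hf.comp hi⟩, p, ?_⟩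
    intro s
    obtain ⟨c, hc⟩ := hg (h s)
    refine ⟨⟨c, s, hc.symm⟩, hh ?_⟩
    show h (Classical.choose _) = h s
    rw [Classical.choose_spec (⟨s, hc.symm⟩ : ∃ s, h s = g c), hc]
  prod ι S _ hS := by
    choose A B C iA iB iC hA hB hf hg using hS
    choose f hf using hf
    choose g hg using hg
    refine ⟨∀ i, A i, ∀ i, B i, ∀ i, C i, inferInstance, inferInstance, inferInstance,
      V.prod ι A hA, W.prod ι B hB, ⟨⟨fun c => (fun i => (f i (c i)).1,
        fun i => (f i (c i)).2), ?_, ?_⟩, ?_⟩, ⟨fun c i => g i (c i), ?_, ?_⟩, ?_⟩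
    · intro a b
      refine Prod.ext (funext fun i => ?_) (funext fun i => ?_)
      · exact congrArg Prod.fst ((f i).map_mul (a i) (b i))
      · exact congrArg Prod.snd ((f i).map_mul (a i) (b i))
    · intro a
      refine Prod.ext (funext fun i => ?_) (funext fun i => ?_)
      · exact congrArg Prod.fst ((f i).map_bar (a i))
      · exact congrArg Prod.snd ((f i).map_bar (a i))
    · intro a b hab
      funext i
      apply hf i
      refine Prod.ext ?_ ?_
      · exact congrFun (congrArg Prod.fst hab) i
      · exact congrFun (congrArg Prod.snd hab) i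
    · intro a b
      exact funext fun i => (g i).map_mul (a i) (b i)
    · intro a
      exact funext fun i => (g i).map_bar (a i)
    · intro s
      choose c hc using fun i => hg i (s i)
      exact ⟨c, funext hc⟩

/-- The meet of two epigroup varieties is their intersection. -/
def meet (V W : EpigroupVariety) : EpigroupVariety where
  mem S _ := V.mem S ∧ W.mem S
  isEpigroup S _ h := V.isEpigroup S h.1
  hom_image S T _ _ f hf h := ⟨V.hom_image S T f hf h.1, W.hom_image S T f hf h.2⟩
  sub S T _ _ f hf h := ⟨V.sub S T f hf h.1, W.sub S T f hf h.2⟩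
  prod ι S _ h := ⟨V.prod ι S fun i => (h i).1, W.prod ι S fun i => (h i).2⟩

theorem EpigroupVariety.ext' {V W : EpigroupVariety}
    (h : ∀ (S : Type) [USemigroup S], V.mem S ↔ W.mem S) : V = W := by
  cases V
  cases W
  congr
  funext S inst
  exact propext (h S)

/-- A one-element type. -/
inductive OnePt : Type
  | pt

/-- The trivial unary semigroup. -/
instance : USemigroup OnePt where
  mul _ _ := OnePt.pt
  mul_assoc _ _ _ := rfl
  bar _ := OnePt.pt

/-- The trivial unary semigroup lies in every variety. -/
theorem EpigroupVariety.mem_onePt (V : EpigroupVariety) : V.mem OnePt := by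
  have h := V.prod Empty (fun _ => OnePt) (fun i => i.elim)
  refine V.hom_image _ OnePt ⟨fun _ => OnePt.pt, fun _ _ => rfl, fun _ => rfl⟩ ?_ h
  rintro ⟨⟩
  exact ⟨fun i => i.elim, rfl⟩

theorem join_left (V W : EpigroupVariety) (S : Type) [USemigroup S] (h : V.mem S) :
    (join V W).mem S := by
  refine ⟨S, OnePt, S, inferInstance, inferInstance, inferInstance, h, W.mem_onePt,
    ⟨⟨fun s => (s, OnePt.pt), fun _ _ => rfl, fun _ => rfl⟩, ?_⟩,
    ⟨fun s => s, fun _ _ => rfl, fun _ => rfl⟩, fun s => ⟨s, rfl⟩⟩
  intro a b hab
  exact congrArg Prod.fst hab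

theorem join_right (V W : EpigroupVariety) (S : Type) [USemigroup S] (h : W.mem S) :
    (join V W).mem S := by
  refine ⟨OnePt, S, S, inferInstance, inferInstance, inferInstance, V.mem_onePt, h,
    ⟨⟨fun s => (OnePt.pt, s), fun _ _ => rfl, fun _ => rfl⟩, ?_⟩,
    ⟨fun s => s, fun _ _ => rfl, fun _ => rfl⟩, fun s => ⟨s, rfl⟩⟩
  intro a b hab
  exact congrArg Prod.snd hab

/-- Binary products stay in a variety. -/
theorem EpigroupVariety.mem_prod (V : EpigroupVariety) (A B : Type) [iA : USemigroup A]
    [iB : USemigroup B] (hA : V.mem A) (hB : V.mem B) : V.mem (A × B) := by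
  let F : Bool → Type := fun b => if b then A else B
  let iF : ∀ b, USemigroup (F b) := fun b => by
    cases b
    · exact iB
    · exact iA
  have h := V.prod Bool F (fun b => by
    cases b
    · exact hB
    · exact hA)
  refine V.sub (A × B) (∀ b, F b) ⟨fun p b => by
    cases b
    · exact p.2
    · exact p.1, ?_, ?_⟩ ?_ h
  · intro a b
    funext i
    cases i <;> rfl
  · intro a
    funext i
    cases i <;> rfl
  · intro a b hab
    refine Prod.ext ?_ ?_
    · exact congrFun hab true
    · exact congrFun hab false

/-- Epigroup varieties are ordered by inclusion; they form the lattice `EPI`. -/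
instance : Lattice EpigroupVariety where
  le V W := ∀ (S : Type) [USemigroup S], V.mem S → W.mem S
  le_refl V S _ h := h
  le_trans U V W h1 h2 S _ h := h2 S (h1 S h)
  le_antisymm V W h1 h2 := EpigroupVariety.ext' fun S _ => ⟨h1 S, h2 S⟩
  inf := meet
  inf_le_left V W S _ h := h.1
  inf_le_right V W S _ h := h.2
  le_inf U V W h1 h2 S _ h := ⟨h1 S h, h2 S h⟩
  sup := join
  le_sup_left V W S _ h := join_left V W S h
  le_sup_right V W S _ h := join_right V W S h
  sup_le U V W h1 h2 S _ h := by
    obtain ⟨A, B, C, _, _, _, hA, hB, ⟨f, hf⟩, g, hg⟩ := h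
    exact W.hom_image C S g hg (W.sub C (A × B) f hf (W.mem_prod A B (h1 A hA) (h2 B hB)))

/-- An element `x` of a lattice is codistributive if
`x ⊓ (y ⊔ z) = (x ⊓ y) ⊔ (x ⊓ z)` for all `y`, `z`. -/
def IsCodistributive {L : Type*} [Lattice L] (x : L) : Prop :=
  ∀ y z : L, x ⊓ (y ⊔ z) = (x ⊓ y) ⊔ (x ⊓ z)

end Pool.Agent.H99.Epi
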