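import Pool.Agent.H99.EpiGen

/-!
# Varieties without `C2`, `P3`, `D3`, `N3` have completely regular squares
-/

namespace Pool.Agent.H99.Epi

section

variable {S : Type} [USemigroup S]

/-- Dual form of `cr_of_sq`. -/
theorem cr_of_sq' (hE : IsEpigroup S) {b r : S} (h : b = r * (b * b)) : CR b := by
  obtain ⟨h1, h2, n, h3⟩ := (hE b).drazin
  have key : ∀ n, ∃ t, b = t * spow b n := by
    intro n
    induction n with
    | zero => exact ⟨r * b, by rw [mul_assoc]; exact h⟩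
    | succ n ih =>
      obtain ⟨t, ht⟩ := ih
      refine ⟨r * t, ?_⟩
      show b = r * t * (spow b n * b)
      rw [mul_assoc, ← mul_assoc t, ← ht]
      exact h
  obtain ⟨t, ht⟩ := key n
  show b * (b * bar b) = b
  calc b * (b * bar b) = t * spow b n * (b * bar b) := by rw [← ht]
    _ = t * (spow b n * (b * bar b)) := mul_assoc _ _ _
    _ = b := by rw [h3, ← ht]

/-- Elements `a * r` with `r` commuting with `a` and `r * e = r`, together with `a`. -/
def WR (e a w : S) : Prop := w = a ∨ ∃ r, w = a * r ∧ r * a = a * r ∧ r * e = r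

theorem WR.comm {e a w : S} (h : WR e a w) : w * a = a * w := by
  rcases h with rfl | ⟨r, rfl, h1, -⟩
  · rfl
  · rw [mul_assoc, h1]

theorem WR.right {e a w : S} (hae : a * e = a) (h : WR e a w) : w * e = w := by
  rcases h with rfl | ⟨r, rfl, -, h2⟩
  · exact hae
  · rw [mul_assoc, h2]

theorem WR.mul {e a w w' : S} (hae : a * e = a) (h : WR e a w) (h' : WR e a w') :
    WR e a (w * w') := by
  rcases h with rfl | ⟨r, rfl, h1, h2⟩
  · exact Or.inr ⟨w', rfl, h'.comm, h'.right hae⟩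
  · refine Or.inr ⟨r * w', mul_assoc _ _ _, ?_, ?_⟩
    · rw [mul_assoc, h'.comm, ← mul_assoc, h1, mul_assoc]
    · rw [mul_assoc, h'.right hae]

theorem WR.bar (hE : IsEpigroup S) {e a w : S} (hae : a * e = a) (h : WR e a w) :
    WR e a (bar w) := by
  have hc : a * USemigroup.bar w = USemigroup.bar w * a := comm_bar hE h.comm.symm
  have hbe : USemigroup.bar w * e = USemigroup.bar w := by
    rw [bar_eq_right hE w, mul_assoc, h.right hae]
  have hcc : (USemigroup.bar w * USemigroup.bar w) * a =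
      a * (USemigroup.bar w * USemigroup.bar w) := by
    rw [mul_assoc, ← hc, ← mul_assoc, ← hc, mul_assoc]
  rcases h with rfl | ⟨r, rfl, h1, h2⟩
  · refine Or.inr ⟨_, bar_eq_left hE w, hcc, ?_⟩
    rw [mul_assoc, hbe]
  · refine Or.inr ⟨r * (USemigroup.bar (a * r) * USemigroup.bar (a * r)), ?_, ?_, ?_⟩
    · rw [← mul_assoc a r]
      exact bar_eq_left hE _
    · rw [mul_assoc, hcc, ← mul_assoc, h1, mul_assoc]
    · rw [mul_assoc, mul_assoc, hbe]

/-- The pseudoinverse of `e * v` when `v * e = v`. -/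
theorem bar_ev (hE : IsEpigroup S) {e v : S} (hv : v * e = v) :
    bar (e * v) = e * bar v := by
  have hbe : bar v * e = bar v := by
    rw [bar_eq_right hE v, mul_assoc, hv]
  obtain ⟨h1, h2, n, h3⟩ := (hE v).drazin
  have hp : ∀ n, spow (e * v) n = e * spow v n := by
    intro n
    induction n with
    | zero => rfl
    | succ n ih =>
      show spow (e * v) n * (e * v) = e * (spow v n * v)
      rw [ih]
      have : spow v n * e = spow v n := by
        cases n with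
        | zero => exact hv
        | succ n => show spow v n * v * e = spow v n * v; rw [mul_assoc, hv]
      calc e * spow v n * (e * v) = e * (spow v n * e) * v := by simp only [mul_assoc]
        _ = e * (spow v n * v) := by rw [this, mul_assoc]
  refine bar_unique hE (n := n) ?_ ?_ ?_
  · calc e * v * (e * bar v) = e * (v * e) * bar v := by simp only [mul_assoc]
      _ = e * (v * bar v) := by rw [hv, mul_assoc]
      _ = e * (bar v * v) := by rw [h1]
      _ = e * (bar v * e) * v := by rw [hbe, mul_assoc]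
      _ = e * bar v * (e * v) := by simp only [mul_assoc]
  · calc e * bar v * (e * v) * (e * bar v) = e * (bar v * e) * (v * e) * bar v := by
          simp only [mul_assoc]
      _ = e * (bar v * v * bar v) := by rw [hbe, hv]; simp only [mul_assoc]
      _ = e * bar v := by rw [h2]
  · rw [hp]
    have hs : spow v n * e = spow v n := by
      cases n with
      | zero => exact hv
      | succ n => show spow v n * v * e = spow v n * v; rw [mul_assoc, hv]
    calc e * spow v n * (e * v * (e * bar v)) = e * (spow v n * e) * (v * e) * bar v := by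
          simp only [mul_assoc]
      _ = e * (spow v n * (v * bar v)) := by rw [hs, hv]; simp only [mul_assoc]
      _ = e * spow v n := by rw [h3]

/-- If `V` does not contain `P3`, `a * e = a` with `e` idempotent, then `a` is completely
regular or `e * a = a`. -/
theorem stepD1 {V : EpigroupVariety} (hP : ¬ V.mem P3) (hS : V.mem S) {e a : S}
    (he : e * e = e) (hae : a * e = a) : CR a ∨ e * a = a := by
  by_contra hcon
  push Not at hcon
  obtain ⟨hcr, hea⟩ := hcon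
  have hE := V.isEpigroup S hS
  apply hP
  let I : S → Prop := fun s => (∃ w, WR e a w ∧ s = a * w) ∨ (∃ v, WR e a v ∧ s = e * v)
  have hI1 : ∀ w, WR e a w → I (a * w) := fun w hw => Or.inl ⟨w, hw, rfl⟩
  have hI2 : ∀ w, WR e a w → I (e * w) := fun w hw => Or.inr ⟨w, hw, rfl⟩
  have hWa : WR e a a := Or.inl rfl
  -- closure properties
  have cl : ∀ s, I s → I (e * s) ∧ I (s * e) ∧ I (a * s) ∧ I (s * a) ∧ I (bar s) := by
    rintro s (⟨w, hw, rfl⟩ | ⟨w, hw, rfl⟩)
    · refine ⟨hI2 _ (hWa.mul hae hw), ?_, hI1 _ (hWa.mul hae hw), ?_, ?_⟩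
      · rw [mul_assoc, hw.right hae]; exact hI1 _ hw
      · rw [mul_assoc]; exact hI1 _ (hw.mul hae hWa)
      · have h1 := (hWa.mul hae hw).bar hE hae
        rw [bar_eq_left hE (a * w), mul_assoc]
        exact hI1 _ (hw.mul hae (h1.mul hae h1))
    · refine ⟨?_, ?_, ?_, ?_, ?_⟩
      · rw [← mul_assoc, he]; exact hI2 _ hw
      · rw [mul_assoc, hw.right hae]; exact hI2 _ hw
      · rw [← mul_assoc, hae]; exact hI1 _ hw
      · rw [mul_assoc]; exact hI2 _ (hw.mul hae hWa)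
      · rw [bar_ev hE (hw.right hae)]; exact hI2 _ (hw.bar hE hae)
  have clm : ∀ s t, I s → I t → I (s * t) := by
    rintro s t (⟨w, hw, rfl⟩ | ⟨w, hw, rfl⟩) (⟨v, hv, rfl⟩ | ⟨v, hv, rfl⟩)
    · rw [mul_assoc]; exact hI1 _ (hw.mul hae (hWa.mul hae hv))
    · have : a * w * (e * v) = a * (w * v) := by
        rw [mul_assoc, ← mul_assoc w, hw.right hae]
      rw [this]; exact hI1 _ (hw.mul hae hv)
    · rw [mul_assoc]; exact hI2 _ (hw.mul hae (hWa.mul hae hv))
    · have : e * w * (e * v) = e * (w * v) := by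
        rw [mul_assoc, ← mul_assoc w, hw.right hae]
      rw [this]; exact hI2 _ (hw.mul hae hv)
  have hbe := bar_of_idem hE he
  have haw : ∀ w, WR e a w → a ≠ a * w := by
    rintro w (rfl | ⟨r, rfl, -, -⟩) h
    · exact hcr (cr_of_idem hE h.symm)
    · rw [← mul_assoc] at h
      exact hcr (cr_of_sq hE h)
  have haI : ¬ I a := by
    rintro (⟨w, hw, h⟩ | ⟨w, hw, h⟩)
    · exact haw w hw h
    · apply hea
      rw [h, ← mul_assoc, he]
  have heI : ¬ I e := by
    rintro (⟨w, hw, h⟩ | ⟨w, hw, h⟩)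
    · have : a = a * (a * w) := by rw [← h, hae]
      exact haw _ (hWa.mul hae hw) this
    · have : a = a * w := by
        calc a = a * e := hae.symm
          _ = a * (e * w) := by rw [← h]
          _ = a * w := by rw [← mul_assoc, hae]
      exact haw _ hw this
  have hne : e ≠ a := fun h => hcr (cr_of_idem hE (by rw [← h, he]))
  refine mem_of_rel hS (fun s t => (s = e ∧ t = P3.e) ∨ (s = a ∧ t = .a) ∨
    (I s ∧ t = .z)) ?_ ?_ ?_ ?_
  · rintro s s' t t' (⟨rfl, rfl⟩ | ⟨rfl, rfl⟩ | ⟨hs, rfl⟩)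
      (⟨rfl, rfl⟩ | ⟨rfl, rfl⟩ | ⟨hs', rfl⟩)
    · exact Or.inl ⟨he, rfl⟩
    · exact Or.inr (Or.inr ⟨hI2 _ hWa, rfl⟩)
    · exact Or.inr (Or.inr ⟨(cl _ hs').1, rfl⟩)
    · exact Or.inr (Or.inl ⟨hae, rfl⟩)
    · exact Or.inr (Or.inr ⟨hI1 _ hWa, rfl⟩)
    · exact Or.inr (Or.inr ⟨(cl _ hs').2.2.1, rfl⟩)
    · exact Or.inr (Or.inr ⟨(cl _ hs).2.1, rfl⟩)
    · exact Or.inr (Or.inr ⟨(cl _ hs).2.2.2.1, rfl⟩)
    · exact Or.inr (Or.inr ⟨clm _ _ hs hs', rfl⟩)
  · rintro s t (⟨rfl, rfl⟩ | ⟨rfl, rfl⟩ | ⟨hs, rfl⟩)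
    · exact Or.inl ⟨hbe, rfl⟩
    · refine Or.inr (Or.inr ⟨?_, rfl⟩)
      have h1 := hWa.bar hE hae
      rw [bar_eq_left hE s]
      exact hI1 _ (h1.mul hae h1)
    · exact Or.inr (Or.inr ⟨(cl _ hs).2.2.2.2, rfl⟩)
  · rintro s t t' (⟨rfl, rfl⟩ | ⟨rfl, rfl⟩ | ⟨hs, rfl⟩)
      (⟨h, rfl⟩ | ⟨h, rfl⟩ | ⟨h, rfl⟩)
    · rfl
    · exact absurd h hne
    · exact absurd h heI
    · exact absurd h.symm hne
    · rfl
    · exact absurd h haI
    · rw [h] at hs; exact absurd hs heI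
    · rw [h] at hs; exact absurd hs haI
    · rfl
  · rintro (_ | _ | _)
    · exact ⟨e, Or.inl ⟨rfl, rfl⟩⟩
    · exact ⟨a, Or.inr (Or.inl ⟨rfl, rfl⟩)⟩
    · exact ⟨a * a, Or.inr (Or.inr ⟨hI1 _ hWa, rfl⟩)⟩

/-- If `V` does not contain `C2` and `e * b = b = b * e` with `e` idempotent, then `b` is
completely regular. -/
theorem stepD0 {V : EpigroupVariety} (hC : ¬ V.mem C2) (hS : V.mem S) {e b : S}
    (he : e * e = e) (heb : e * b = b) (hbe : b * e = b) : CR b := by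
  by_contra hcr
  have hE := V.isEpigroup S hS
  apply hC
  let I : S → Prop := fun s => ∃ w, WR e b w ∧ s = b * w
  have hI1 : ∀ w, WR e b w → I (b * w) := fun w hw => ⟨w, hw, rfl⟩
  have hWa : WR e b b := Or.inl rfl
  have cl : ∀ s, I s → I (e * s) ∧ I (s * e) ∧ I (b * s) ∧ I (s * b) ∧ I (bar s) := by
    rintro s ⟨w, hw, rfl⟩
    refine ⟨?_, ?_, hI1 _ (hWa.mul hbe hw), ?_, ?_⟩
    · rw [← mul_assoc, heb]; exact hI1 _ hw
    · rw [mul_assoc, hw.right hbe]; exact hI1 _ hw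
    · rw [mul_assoc]; exact hI1 _ (hw.mul hbe hWa)
    · have h1 := (hWa.mul hbe hw).bar hE hbe
      rw [bar_eq_left hE (b * w), mul_assoc]
      exact hI1 _ (hw.mul hbe (h1.mul hbe h1))
  have clm : ∀ s t, I s → I t → I (s * t) := by
    rintro s t ⟨w, hw, rfl⟩ ⟨v, hv, rfl⟩
    rw [mul_assoc]; exact hI1 _ (hw.mul hbe (hWa.mul hbe hv))
  have hbar := bar_of_idem hE he
  have haw : ∀ w, WR e b w → b ≠ b * w := by
    rintro w (rfl | ⟨r, rfl, -, -⟩) h
    · exact hcr (cr_of_idem hE h.symm)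
    · rw [← mul_assoc] at h
      exact hcr (cr_of_sq hE h)
  have hbI : ¬ I b := by
    rintro ⟨w, hw, h⟩
    exact haw w hw h
  have heI : ¬ I e := by
    rintro ⟨w, hw, h⟩
    have : b = b * (b * w) := by rw [← h, hbe]
    exact haw _ (hWa.mul hbe hw) this
  have hne : e ≠ b := fun h => hcr (cr_of_idem hE (by rw [← h, he]))
  refine mem_of_rel hS (fun s t => (s = e ∧ t = C2.e) ∨ (s = b ∧ t = .c) ∨
    (I s ∧ t = .z)) ?_ ?_ ?_ ?_
  · rintro s s' t t' (⟨rfl, rfl⟩ | ⟨rfl, rfl⟩ | ⟨hs, rfl⟩)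
      (⟨rfl, rfl⟩ | ⟨rfl, rfl⟩ | ⟨hs', rfl⟩)
    · exact Or.inl ⟨he, rfl⟩
    · exact Or.inr (Or.inl ⟨heb, rfl⟩)
    · exact Or.inr (Or.inr ⟨(cl _ hs').1, rfl⟩)
    · exact Or.inr (Or.inl ⟨hbe, rfl⟩)
    · exact Or.inr (Or.inr ⟨hI1 _ hWa, rfl⟩)
    · exact Or.inr (Or.inr ⟨(cl _ hs').2.2.1, rfl⟩)
    · exact Or.inr (Or.inr ⟨(cl _ hs).2.1, rfl⟩)
    · exact Or.inr (Or.inr ⟨(cl _ hs).2.2.2.1, rfl⟩)
    · exact Or.inr (Or.inr ⟨clm _ _ hs hs', rfl⟩)
  · rintro s t (⟨rfl, rfl⟩ | ⟨rfl, rfl⟩ | ⟨hs, rfl⟩)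
    · exact Or.inl ⟨hbar, rfl⟩
    · refine Or.inr (Or.inr ⟨?_, rfl⟩)
      have h1 := hWa.bar hE hbe
      rw [bar_eq_left hE s]
      exact hI1 _ (h1.mul hbe h1)
    · exact Or.inr (Or.inr ⟨(cl _ hs).2.2.2.2, rfl⟩)
  · rintro s t t' (⟨rfl, rfl⟩ | ⟨rfl, rfl⟩ | ⟨hs, rfl⟩)
      (⟨h, rfl⟩ | ⟨h, rfl⟩ | ⟨h, rfl⟩)
    · rfl
    · exact absurd h hne
    · exact absurd h heI
    · exact absurd h.symm hne
    · rfl
    · exact absurd h hbI
    · rw [h] at hs; exact absurd hs heI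
    · rw [h] at hs; exact absurd hs hbI
    · rfl
  · rintro (_ | _ | _)
    · exact ⟨e, Or.inl ⟨rfl, rfl⟩⟩
    · exact ⟨b, Or.inr (Or.inl ⟨rfl, rfl⟩)⟩
    · exact ⟨b * b, Or.inr (Or.inr ⟨hI1 _ hWa, rfl⟩)⟩

end

/-! ### Duality -/

/-- The opposite unary semigroup. -/
structure Op (S : Type) where
  /-- the underlying element -/
  un : S

instance (S : Type) [USemigroup S] : USemigroup (Op S) where
  mul a b := ⟨b.un * a.un⟩
  mul_assoc a b c := congrArg Op.mk (mul_assoc c.un b.un a.un).symm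
  bar a := ⟨bar a.un⟩

theorem op_mul {S : Type} [USemigroup S] (a b : S) : (⟨a⟩ * ⟨b⟩ : Op S) = ⟨b * a⟩ := rfl
theorem op_bar {S : Type} [USemigroup S] (a : S) : bar (⟨a⟩ : Op S) = ⟨bar a⟩ := rfl

theorem spow_op {S : Type} [USemigroup S] (a : S) (n : ℕ) :
    spow (⟨a⟩ : Op S) n = ⟨spow a n⟩ := by
  induction n with
  | zero => rfl
  | succ n ih =>
    show spow (⟨a⟩ : Op S) n * ⟨a⟩ = ⟨spow a n * a⟩
    rw [ih, op_mul, spow_self_comm]

theorem isEpigroup_op {S : Type} [USemigroup S] (h : IsEpigroup S) : IsEpigroup (Op S) := by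
  rintro ⟨a⟩
  obtain ⟨h1, h2, n, h3⟩ := (h a).drazin
  refine isPseudoinverse_of_drazin (n := n) ?_ ?_ ?_
  · rw [op_bar, op_mul, op_mul, h1]
  · rw [op_bar, op_mul, op_mul, ← mul_assoc, h2]
  · rw [op_bar, op_mul, spow_op, op_mul, ← h1]
    have hxx : (a * bar a) * a = a * (a * bar a) := by rw [mul_assoc, ← h1]
    rw [spow_comm_of_comm hxx n, h3]

/-- The opposite homomorphism. -/
def UHom.op {S T : Type} [USemigroup S] [USemigroup T] (f : UHom S T) :
    UHom (Op S) (Op T) where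
  toFun a := ⟨f a.un⟩
  map_mul a b := congrArg Op.mk (f.map_mul b.un a.un)
  map_bar a := congrArg Op.mk (f.map_bar a.un)

/-- The dual variety. -/
def EpigroupVariety.op (V : EpigroupVariety) : EpigroupVariety where
  mem S _ := V.mem (Op S)
  isEpigroup S _ h := by
    have h1 := V.isEpigroup _ h
    have h2 := isEpigroup_op h1
    refine isEpigroup_sub (T := Op (Op S)) ⟨fun s => ⟨⟨s⟩⟩, fun _ _ => rfl, fun _ => rfl⟩ ?_ h2
    intro a b hab
    exact congrArg (fun z => z.un.un) hab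
  hom_image S T _ _ f hf h := by
    refine V.hom_image _ _ f.op ?_ h
    rintro ⟨t⟩
    obtain ⟨s, rfl⟩ := hf t
    exact ⟨⟨s⟩, rfl⟩
  sub S T _ _ f hf h := by
    refine V.sub _ _ f.op ?_ h
    rintro ⟨a⟩ ⟨b⟩ hab
    exact congrArg Op.mk (hf (congrArg Op.un hab))
  prod ι S _ h := by
    refine V.hom_image _ _ ⟨fun g => ⟨fun i => (g i).un⟩, fun _ _ => rfl, fun _ => rfl⟩ ?_
      (V.prod ι (fun i => Op (S i)) h)
    rintro ⟨g⟩
    exact ⟨fun i => ⟨g i⟩, rfl⟩

theorem mem_op_op {V : EpigroupVariety} {S : Type} [USemigroup S] (h : V.mem S) :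
    V.op.mem (Op S) :=
  V.hom_image S (Op (Op S)) ⟨fun s => ⟨⟨s⟩⟩, fun _ _ => rfl, fun _ => rfl⟩
    (fun s => ⟨s.un.un, rfl⟩) h

theorem stepD1' {V : EpigroupVariety} {S : Type} [USemigroup S] (hD : ¬ V.mem D3)
    (hS : V.mem S) {e a : S} (he : e * e = e) (hea : e * a = a) : CR a ∨ a * e = a := by
  have h1 : ¬ V.op.mem P3 := by
    intro h
    apply hD
    exact V.hom_image (Op P3) D3 ⟨fun s => match s.un with
      | .e => .e
      | .a => .a
      | .z => .z, by rintro ⟨_ | _ | _⟩ ⟨_ | _ | _⟩ <;> rfl, by rintro ⟨_ | _ | _⟩ <;> rfl⟩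
      (by
        rintro (_ | _ | _)
        · exact ⟨⟨.e⟩, rfl⟩
        · exact ⟨⟨.a⟩, rfl⟩
        · exact ⟨⟨.z⟩, rfl⟩) h
  have hE := V.isEpigroup S hS
  rcases stepD1 h1 (mem_op_op hS) (e := (⟨e⟩ : Op S)) (a := ⟨a⟩)
    (by rw [op_mul, he]) (by rw [op_mul, hea]) with h | h
  · left
    have h2 : (⟨(a * bar a) * a⟩ : Op S) = ⟨a⟩ := by
      unfold CR at h
      rw [op_bar, op_mul, op_mul, ← bar_comm hE] at h
      exact h
    have h3 := congrArg Op.un h2
    simp only at h3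
    show a * (a * bar a) = a
    rw [bar_comm hE, ← mul_assoc, h3]
  · right
    exact congrArg Op.un h

end Pool.Agent.H99.Epi
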