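import Pool.Agent.H99.EpiTools

/-!
# The finite unary semigroups used in the proof
-/

namespace Pool.Agent.H99.Epi

set_option maxRecDepth 100000

/-- The monoid `{1, c, 0}` with `c * c = 0`. -/
inductive C2 | e | c | z
  deriving DecidableEq, Fintype

/-- Multiplication of `C2`. -/
def C2.mulf : C2 → C2 → C2
  | .e, y => y
  | x, .e => x
  | _, _ => .z

/-- Pseudoinversion of `C2`. -/
def C2.barf : C2 → C2
  | .e => .e
  | _ => .z

instance : USemigroup C2 where
  mul := C2.mulf
  mul_assoc := by decide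
  bar := C2.barf

/-- The semigroup `{e, a, 0}` with `ee = e`, `ae = a`, `ea = aa = 0`. -/
inductive P3 | e | a | z
  deriving DecidableEq, Fintype

/-- Multiplication of `P3`. -/
def P3.mulf : P3 → P3 → P3
  | .e, .e => .e
  | .a, .e => .a
  | _, _ => .z

/-- Pseudoinversion of `P3`. -/
def P3.barf : P3 → P3
  | .e => .e
  | _ => .z

instance : USemigroup P3 where
  mul := P3.mulf
  mul_assoc := by decide
  bar := P3.barf

/-- The semigroup `{e, a, 0}` with `ee = e`, `ea = a`, `ae = aa = 0`. -/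
inductive D3 | e | a | z
  deriving DecidableEq, Fintype

/-- Multiplication of `D3`. -/
def D3.mulf : D3 → D3 → D3
  | .e, .e => .e
  | .e, .a => .a
  | _, _ => .z

/-- Pseudoinversion of `D3`. -/
def D3.barf : D3 → D3
  | .e => .e
  | _ => .z

instance : USemigroup D3 where
  mul := D3.mulf
  mul_assoc := by decide
  bar := D3.barf

/-- The nilpotent semigroup `{a, b, c, 0}` with `ab = ba = c` and all other products `0`. -/
inductive N3 | a | b | c | z
  deriving DecidableEq, Fintype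

/-- Multiplication of `N3`. -/
def N3.mulf : N3 → N3 → N3
  | .a, .b => .c
  | .b, .a => .c
  | _, _ => .z

instance : USemigroup N3 where
  mul := N3.mulf
  mul_assoc := by decide
  bar := fun _ => .z

/-- The two-element left zero semigroup. -/
inductive L2 | l | r
  deriving DecidableEq, Fintype

instance : USemigroup L2 where
  mul x _ := x
  mul_assoc _ _ _ := rfl
  bar x := x

/-- The two-element right zero semigroup. -/
inductive R2 | l | r
  deriving DecidableEq, Fintype

instance : USemigroup R2 where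
  mul _ y := y
  mul_assoc _ _ _ := rfl
  bar x := x

/-- The four-element semigroup `{t, r0, r1, r2}` with `x * ri = ri`, `r1 * t = r2`,
`r2 * t = r0 * t = t * t = r0`. -/
inductive Q4 | t | r0 | r1 | r2
  deriving DecidableEq, Fintype

/-- Multiplication of `Q4`. -/
def Q4.mulf : Q4 → Q4 → Q4
  | _, .r0 => .r0
  | _, .r1 => .r1
  | _, .r2 => .r2
  | .r1, .t => .r2
  | _, .t => .r0

/-- Pseudoinversion of `Q4`. -/
def Q4.barf : Q4 → Q4
  | .t => .r0
  | x => x

instance : USemigroup Q4 where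
  mul := Q4.mulf
  mul_assoc := by decide
  bar := Q4.barf

/-- The dual of `Q4`. -/
inductive E4 | t | r0 | r1 | r2
  deriving DecidableEq, Fintype

/-- Multiplication of `E4`. -/
def E4.mulf : E4 → E4 → E4
  | .r0, _ => .r0
  | .r1, _ => .r1
  | .r2, _ => .r2
  | .t, .r1 => .r2
  | .t, _ => .r0

/-- Pseudoinversion of `E4`. -/
def E4.barf : E4 → E4
  | .t => .r0
  | x => x

instance : USemigroup E4 where
  mul := E4.mulf
  mul_assoc := by decide
  bar := E4.barf

/-- The unary subsemigroup of `D` given by a list of elements closed under the operations. -/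
@[implicit_reducible]
def subU {D : Type} [USemigroup D] (L : List D) (h1 : ∀ p ∈ L, ∀ q ∈ L, p * q ∈ L)
    (h2 : ∀ p ∈ L, bar p ∈ L) : USemigroup {p : D // p ∈ L} where
  mul p q := ⟨p.1 * q.1, h1 _ p.2 _ q.2⟩
  mul_assoc _ _ _ := Subtype.ext (mul_assoc _ _ _)
  bar p := ⟨bar p.1, h2 _ p.2⟩

/-- Membership in a join from finite data: `L` is a closed list of elements of `A × B` and
`g` a map on `A × B` whose restriction to `L` is a surjective homomorphism onto `T`. -/
theorem mem_join_of_list {Y Z : EpigroupVariety} {A B T : Type} [USemigroup A]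
    [USemigroup B] [USemigroup T] (hA : Y.mem A) (hB : Z.mem B) (L : List (A × B))
    (h1 : ∀ p ∈ L, ∀ q ∈ L, p * q ∈ L) (h2 : ∀ p ∈ L, bar p ∈ L) (g : A × B → T)
    (h3 : ∀ p ∈ L, ∀ q ∈ L, g (p * q) = g p * g q) (h4 : ∀ p ∈ L, g (bar p) = bar (g p))
    (h5 : ∀ t : T, ∃ p ∈ L, g p = t) : (Y ⊔ Z).mem T := by
  refine ⟨A, B, {p : A × B // p ∈ L}, inferInstance, inferInstance, subU L h1 h2, hA, hB,
    ⟨@UHom.mk _ _ (subU L h1 h2) _ (fun p => p.1) (fun _ _ => rfl) (fun _ => rfl),
      Subtype.val_injective⟩,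
    @UHom.mk _ _ (subU L h1 h2) _ (fun p => g p.1) (fun p q => h3 _ p.2 _ q.2)
      (fun p => h4 _ p.2), ?_⟩
  intro t
  obtain ⟨p, hp, rfl⟩ := h5 t
  exact ⟨⟨p, hp⟩, rfl⟩

/-- Membership in a variety from finite data. -/
theorem mem_of_list {Y : EpigroupVariety} {A T : Type} [USemigroup A]
    [USemigroup T] (hA : Y.mem A) (L : List A)
    (h1 : ∀ p ∈ L, ∀ q ∈ L, p * q ∈ L) (h2 : ∀ p ∈ L, bar p ∈ L) (g : A → T)
    (h3 : ∀ p ∈ L, ∀ q ∈ L, g (p * q) = g p * g q) (h4 : ∀ p ∈ L, g (bar p) = bar (g p))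
    (h5 : ∀ t : T, ∃ p ∈ L, g p = t) : Y.mem T := by
  let _ := subU L h1 h2
  refine Y.hom_image {p : A // p ∈ L} T ⟨fun p => g p.1, fun p q => h3 _ p.2 _ q.2,
    fun p => h4 _ p.2⟩ ?_ (Y.sub {p : A // p ∈ L} A ⟨fun p => p.1, fun _ _ => rfl,
    fun _ => rfl⟩ Subtype.val_injective hA)
  intro t
  obtain ⟨p, hp, rfl⟩ := h5 t
  exact ⟨⟨p, hp⟩, rfl⟩

/-- `N3` lies in every variety containing `C2`. -/
theorem n3_of_c2 {V : EpigroupVariety} (h : V.mem C2) : V.mem N3 := by
  have h2 := V.mem_prod C2 C2 h h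
  exact mem_of_list h2 [(.c, .e), (.e, .c), (.c, .c), (.z, .e), (.e, .z), (.z, .c), (.c, .z),
    (.z, .z)] (by decide) (by decide)
    (fun p => if p = (.c, .e) then .a else if p = (.e, .c) then .b
      else if p = (.c, .c) then .c else .z) (by decide) (by decide) (by decide)

/-! ### The varieties used in the finite cases -/

/-- `x * y` as a natural operation. -/
def opMul : BinOp := ⟨fun _ _ x y => x * y, fun _ _ _ _ h x y => h.map_mul x y⟩

/-- The identity `x y (x y)^ω = x y`. -/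
def opCR : BinOp := ⟨fun _ _ x y => (x * y) * ((x * y) * bar (x * y)),
  fun _ _ _ _ h x y => by simp only [UHom.map_mul, UHom.map_bar]⟩

/-- `x y y^ω`. -/
def opR : BinOp := ⟨fun _ _ x y => (x * y) * (y * bar y),
  fun _ _ _ _ h x y => by simp only [UHom.map_mul, UHom.map_bar]⟩

/-- `x^ω x y`. -/
def opL : BinOp := ⟨fun _ _ x y => (x * bar x) * (x * y),
  fun _ _ _ _ h x y => by simp only [UHom.map_mul, UHom.map_bar]⟩

/-- Variety of index two defined by one additional identity `x y ≈ q`. -/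
def var2 (q : BinOp) : EpigroupVariety :=
  mkVar (fun S _ => DrazinN 1 S ∧ Sat S opMul q) (hsp_and (hsp_drazin 1) (hsp_sat _ _))
    (fun _ _ h => isEpigroup_of_drazin h.1)

instance decDrazin (n : ℕ) (S : Type) [USemigroup S] [Fintype S] [DecidableEq S] :
    Decidable (DrazinN n S) := by
  unfold DrazinN
  infer_instance

instance decSat (S : Type) [USemigroup S] [Fintype S] [DecidableEq S] (p q : BinOp) :
    Decidable (Sat S p q) := by
  unfold Sat
  infer_instance

theorem q4_mem : (var2 opCR).mem Q4 := ⟨by decide, by decide⟩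
theorem e4_mem : (var2 opCR).mem E4 := ⟨by decide, by decide⟩
theorem p3_mem : (var2 opR).mem P3 := ⟨by decide, by decide⟩
theorem d3_mem : (var2 opL).mem D3 := ⟨by decide, by decide⟩


/-- Step (IV), first half. -/
theorem step4a {V : EpigroupVariety} (hV : IsCodistributive V) (h : V.mem C2) :
    ¬ ∀ (S : Type) [USemigroup S], V.mem S → ∀ x y : S,
      (x * y * x) * (x * bar x) = x * y * x := by
  intro hid
  have hY : ∀ (S : Type) [USemigroup S], V.mem S → (var2 opCR).mem S → Sat S opMul opR := by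
    intro S _ hS hS' x y
    have hE := V.isEpigroup S hS
    have h1 : x * y = (x * y) * ((x * y) * bar (x * y)) := hS'.2 x y
    show x * y = (x * y) * (y * bar y)
    generalize hw : x * y = w at h1 ⊢
    have hc := bar_comm hE w
    have hb := bar_mul_bar hE w
    have h2 : bar w * w = bar w * bar w * x * (y * x * y) := by
      calc bar w * w = bar w * w * bar w * w := by rw [hb]
        _ = bar w * (w * bar w) * w := by simp only [mul_assoc]
        _ = bar w * (bar w * w) * w := by rw [hc]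
        _ = bar w * bar w * (w * w) := by simp only [mul_assoc]
        _ = bar w * bar w * x * (y * x * y) := by rw [← hw]; simp only [mul_assoc]
    have h3 : (bar w * w) * (y * bar y) = bar w * w := by
      rw [h2, mul_assoc, hid S hS y x]
    calc w = w * (w * bar w) := h1
      _ = w * (bar w * w) := by rw [hc]
      _ = w * ((bar w * w) * (y * bar y)) := by rw [h3]
      _ = w * (bar w * w) * (y * bar y) := (mul_assoc w (bar w * w) (y * bar y)).symm
      _ = w * (w * bar w) * (y * bar y) := by rw [hc]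
      _ = w * (y * bar y) := by rw [← h1]
  have hZ : ∀ (S : Type) [USemigroup S], V.mem S → (var2 opR).mem S → Sat S opMul opR :=
    fun S _ _ hS' => hS'.2
  have hA := (var2 opCR).mem_prod Q4 Q4 q4_mem q4_mem
  have hB := (var2 opR).mem_prod P3 P3 p3_mem p3_mem
  have hT : (var2 opCR ⊔ var2 opR).mem N3 :=
    mem_join_of_list hA hB
      [((.r1, .t), (.a, .e)), ((.t, .r1), (.e, .a)), ((.r1, .r0), (.z, .e)),
       ((.r2, .r1), (.a, .z)), ((.r0, .r1), (.e, .z)), ((.r1, .r2), (.z, .a)),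
       ((.r2, .r1), (.z, .z)), ((.r0, .r1), (.a, .z)), ((.r1, .r2), (.z, .z)),
       ((.r1, .r0), (.z, .a)), ((.r0, .r1), (.z, .z)), ((.r1, .r0), (.z, .z))]
      (by decide) (by decide)
      (fun p => if p = ((.r1, .t), (.a, .e)) then .a else
        if p = ((.t, .r1), (.e, .a)) then .b else
        if p = ((.r2, .r1), (.a, .z)) then .c else
        if p = ((.r1, .r2), (.z, .a)) then .c else .z) (by decide) (by decide) (by decide)
  have := key hV _ _ opMul opR hY hZ N3 (n3_of_c2 h) hT N3.a N3.b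
  revert this
  decide

/-- Step (IV), second half (dual). -/
theorem step4b {V : EpigroupVariety} (hV : IsCodistributive V) (h : V.mem C2) :
    ¬ ∀ (S : Type) [USemigroup S], V.mem S → ∀ x y : S,
      (x * bar x) * (x * y * x) = x * y * x := by
  intro hid
  have hY : ∀ (S : Type) [USemigroup S], V.mem S → (var2 opCR).mem S → Sat S opMul opL := by
    intro S _ hS hS' x y
    have hE := V.isEpigroup S hS
    have h1 : x * y = (x * y) * ((x * y) * bar (x * y)) := hS'.2 x y
    show x * y = (x * bar x) * (x * y)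
    generalize hw : x * y = w at h1 ⊢
    have hc := bar_comm hE w
    have hb := bar_mul_bar hE w
    have h1' : (w * bar w) * w = w := by
      rw [hc] at h1
      rw [mul_assoc]
      exact h1.symm
    have h2 : w * bar w = x * y * x * (y * bar w * bar w) := by
      calc w * bar w = w * (bar w * w * bar w) := by rw [hb]
        _ = w * ((w * bar w) * bar w) := by rw [hc]
        _ = w * w * (bar w * bar w) := by simp only [mul_assoc]
        _ = x * y * x * (y * bar w * bar w) := by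
          nth_rewrite 1 [← hw]
          nth_rewrite 1 [← hw]
          simp only [mul_assoc]
    have h3 : (x * bar x) * (w * bar w) = w * bar w := by
      rw [h2, ← mul_assoc, hid S hS x y]
    calc w = (w * bar w) * w := h1'.symm
      _ = (x * bar x) * (w * bar w) * w := by rw [h3]
      _ = (x * bar x) * ((w * bar w) * w) := by rw [mul_assoc]
      _ = (x * bar x) * w := by rw [h1']
  have hZ : ∀ (S : Type) [USemigroup S], V.mem S → (var2 opL).mem S → Sat S opMul opL :=
    fun S _ _ hS' => hS'.2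
  have hA := (var2 opCR).mem_prod E4 E4 e4_mem e4_mem
  have hB := (var2 opL).mem_prod D3 D3 d3_mem d3_mem
  have hT : (var2 opCR ⊔ var2 opL).mem N3 :=
    mem_join_of_list hA hB
      [((.r1, .t), (.a, .e)), ((.t, .r1), (.e, .a)), ((.r1, .r0), (.z, .e)),
       ((.r2, .r1), (.a, .z)), ((.r0, .r1), (.e, .z)), ((.r1, .r2), (.z, .a)),
       ((.r2, .r1), (.z, .z)), ((.r0, .r1), (.a, .z)), ((.r1, .r2), (.z, .z)),
       ((.r1, .r0), (.z, .a)), ((.r0, .r1), (.z, .z)), ((.r1, .r0), (.z, .z))]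
      (by decide) (by decide)
      (fun p => if p = ((.r1, .t), (.a, .e)) then .a else
        if p = ((.t, .r1), (.e, .a)) then .b else
        if p = ((.r2, .r1), (.a, .z)) then .c else
        if p = ((.r1, .r2), (.z, .a)) then .c else .z) (by decide) (by decide) (by decide)
  have := key hV _ _ opMul opL hY hZ N3 (n3_of_c2 h) hT N3.a N3.b
  revert this
  decide

/-! ### Divisors -/

/-- A divisor of a member of a variety belongs to the variety: relational form. -/
theorem mem_of_rel {V : EpigroupVariety} {S T : Type} [USemigroup S] [USemigroup T]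
    (hS : V.mem S) (R : S → T → Prop)
    (hm : ∀ s s' t t', R s t → R s' t' → R (s * s') (t * t'))
    (hb : ∀ s t, R s t → R (bar s) (bar t)) (hf : ∀ s t t', R s t → R s t' → t = t')
    (hs : ∀ t, ∃ s, R s t) : V.mem T := by
  let D : Type := {s : S // ∃ t, R s t}
  let iD : USemigroup D :=
    { mul := fun a b => ⟨a.1 * b.1, by
        obtain ⟨s, hs⟩ := a.2
        obtain ⟨t, ht⟩ := b.2
        exact ⟨s * t, hm _ _ _ _ hs ht⟩⟩
      mul_assoc := fun a b c => Subtype.ext (mul_assoc _ _ _)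
      bar := fun a => ⟨bar a.1, by
        obtain ⟨s, hs⟩ := a.2
        exact ⟨bar s, hb _ _ hs⟩⟩ }
  have h1 : V.mem D := V.sub D S ⟨fun d => d.1, fun _ _ => rfl, fun _ => rfl⟩
    Subtype.val_injective hS
  refine V.hom_image D T ⟨fun d => Classical.choose d.2, ?_, ?_⟩ ?_ h1
  · intro a b
    exact hf _ _ _ (Classical.choose_spec (a * b).2)
      (hm _ _ _ _ (Classical.choose_spec a.2) (Classical.choose_spec b.2))
  · intro a
    exact hf _ _ _ (Classical.choose_spec (bar a).2) (hb _ _ (Classical.choose_spec a.2))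
  · intro t
    obtain ⟨s, hst⟩ := hs t
    exact ⟨⟨s, t, hst⟩, hf _ _ _ (Classical.choose_spec (⟨t, hst⟩ : ∃ t, R s t)) hst⟩

/-! ### Aperiodic varieties of index two -/

/-- `bar x` -/
def opBar : BinOp := ⟨fun _ _ x _ => bar x, fun _ _ _ _ h x _ => h.map_bar x⟩
/-- `x * x` -/
def opSq : BinOp := ⟨fun _ _ x _ => x * x, fun _ _ _ _ h x _ => h.map_mul x x⟩
/-- `x * x * x` -/
def opCube : BinOp := ⟨fun _ _ x _ => x * x * x,
  fun _ _ _ _ h x _ => by simp only [UHom.map_mul]⟩
/-- `y * x` -/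
def opRev : BinOp := ⟨fun _ _ x y => y * x, fun _ _ _ _ h x y => h.map_mul y x⟩
/-- `x` -/
def opFst : BinOp := ⟨fun _ _ x _ => x, fun _ _ _ _ _ _ _ => rfl⟩
/-- `y` -/
def opSnd : BinOp := ⟨fun _ _ _ y => y, fun _ _ _ _ _ _ _ => rfl⟩
/-- `x * x * y` -/
def opXXY : BinOp := ⟨fun _ _ x y => x * x * y,
  fun _ _ _ _ h x y => by simp only [UHom.map_mul]⟩
/-- `x * y * y` -/
def opXYY : BinOp := ⟨fun _ _ x y => x * y * y,
  fun _ _ _ _ h x y => by simp only [UHom.map_mul]⟩
/-- `x * (y * y)` -/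
def opXSqY : BinOp := ⟨fun _ _ x y => x * (y * y),
  fun _ _ _ _ h x y => by simp only [UHom.map_mul]⟩
/-- `(x * x) * (y * y)` -/
def opSqSq : BinOp := ⟨fun _ _ x y => (x * x) * (y * y),
  fun _ _ _ _ h x y => by simp only [UHom.map_mul]⟩
/-- `(x * y) * (x * y)` -/
def opMM : BinOp := ⟨fun _ _ x y => (x * y) * (x * y),
  fun _ _ _ _ h x y => by simp only [UHom.map_mul]⟩

/-- Aperiodic of index two. -/
def Aper (S : Type) [USemigroup S] : Prop := Sat S opBar opSq ∧ Sat S opCube opSq

theorem hsp_aper : HSP (fun S _ => Aper S) := hsp_and (hsp_sat _ _) (hsp_sat _ _)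

theorem aper_drazin {S : Type} [USemigroup S] (h : Aper S) : DrazinN 1 S := by
  intro x
  have h1 : bar x = x * x := h.1 x x
  have h2 : x * x * x = x * x := h.2 x x
  have h3 : spow x 1 = x * x := rfl
  rw [h1, h3]
  refine ⟨(mul_assoc _ _ _).symm, ?_, ?_⟩
  · rw [h2, ← mul_assoc, h2, h2]
  · rw [← mul_assoc x x x, h2, ← mul_assoc, h2, h2]

/-- The variety of aperiodic index-two epigroups with `x * y ≈ q`. -/
def varA (q : BinOp) : EpigroupVariety :=
  mkVar (fun S _ => Aper S ∧ Sat S opMul q) (hsp_and hsp_aper (hsp_sat _ _))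
    (fun _ _ h => isEpigroup_of_drazin (aper_drazin h.1))

instance decAper (S : Type) [USemigroup S] [Fintype S] [DecidableEq S] :
    Decidable (Aper S) := by
  unfold Aper
  infer_instance

theorem c2_com : (varA opRev).mem C2 := ⟨by decide, by decide⟩
theorem l2_lz : (varA opFst).mem L2 := ⟨by decide, by decide⟩
theorem r2_rz : (varA opSnd).mem R2 := ⟨by decide, by decide⟩
theorem d3_xxy : (varA opXXY).mem D3 := ⟨by decide, by decide⟩
theorem p3_xyy : (varA opXYY).mem P3 := ⟨by decide, by decide⟩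

/-- Embedding `C2`. -/
theorem c2_of {V : EpigroupVariety} {S : Type} [USemigroup S] (hS : V.mem S)
    (hA : Aper S) {e b : S} (he : e * e = e) (heb : e * b = b) (hbe : b * e = b)
    (hne : b ≠ b * b) : V.mem C2 := by
  have h1 : ∀ x : S, bar x = x * x := fun x => hA.1 x x
  have h2 : ∀ x : S, x * x * x = x * x := fun x => hA.2 x x
  have h3 : b * b * b = b * b := h2 b
  have h4 : b * (b * b) = b * b := by rw [← mul_assoc, h3]
  have h5 : (b * b) * (b * b) = b * b := by rw [← mul_assoc, h3, h3]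
  refine mem_of_rel hS (fun s t => (s = e ∧ t = C2.e) ∨ (s = b ∧ t = .c) ∨
    (s = b * b ∧ t = .z)) ?_ ?_ ?_ ?_
  · rintro s s' t t' (⟨rfl, rfl⟩ | ⟨rfl, rfl⟩ | ⟨rfl, rfl⟩)
      (⟨rfl, rfl⟩ | ⟨rfl, rfl⟩ | ⟨rfl, rfl⟩)
    · exact Or.inl ⟨he, rfl⟩
    · exact Or.inr (Or.inl ⟨heb, rfl⟩)
    · exact Or.inr (Or.inr ⟨by rw [← mul_assoc, heb], rfl⟩)
    · exact Or.inr (Or.inl ⟨hbe, rfl⟩)
    · exact Or.inr (Or.inr ⟨rfl, rfl⟩)
    · exact Or.inr (Or.inr ⟨h4, rfl⟩)
    · exact Or.inr (Or.inr ⟨by rw [mul_assoc, hbe], rfl⟩)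
    · exact Or.inr (Or.inr ⟨h3, rfl⟩)
    · exact Or.inr (Or.inr ⟨h5, rfl⟩)
  · rintro s t (⟨rfl, rfl⟩ | ⟨rfl, rfl⟩ | ⟨rfl, rfl⟩)
    · exact Or.inl ⟨by rw [h1, he], rfl⟩
    · exact Or.inr (Or.inr ⟨h1 _, rfl⟩)
    · exact Or.inr (Or.inr ⟨by rw [h1, h5], rfl⟩)
  · have n1 : e ≠ b := fun h => hne (by rw [← h, he])
    have n2 : e ≠ b * b := fun h => hne (by
      calc b = e * b := heb.symm
        _ = b * b * b := by rw [← h]
        _ = b * b := h3)
    rintro s t t' (⟨rfl, rfl⟩ | ⟨rfl, rfl⟩ | ⟨rfl, rfl⟩)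
      (⟨h, rfl⟩ | ⟨h, rfl⟩ | ⟨h, rfl⟩)
    · rfl
    · exact absurd h n1
    · exact absurd h n2
    · exact absurd h.symm n1
    · rfl
    · exact absurd h hne
    · exact absurd h.symm n2
    · exact absurd h.symm hne
    · rfl
  · rintro (_ | _ | _)
    · exact ⟨e, Or.inl ⟨rfl, rfl⟩⟩
    · exact ⟨b, Or.inr (Or.inl ⟨rfl, rfl⟩)⟩
    · exact ⟨b * b, Or.inr (Or.inr ⟨rfl, rfl⟩)⟩

/-- Step B: if `C2 ∉ V` then `P3 ∉ V`. -/
theorem stepB {V : EpigroupVariety} (hV : IsCodistributive V) (h : ¬ V.mem C2) :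
    ¬ V.mem P3 := by
  intro hP
  have hY : ∀ (S : Type) [USemigroup S], V.mem S → (varA opRev).mem S →
      Sat S opXSqY opSqSq := by
    intro S _ hS hS' x y
    show x * (y * y) = (x * x) * (y * y)
    by_contra hne
    apply h
    have hc : ∀ x y : S, x * y = y * x := fun x y => hS'.2 x y
    have hy : y * y * y = y * y := hS'.1.2 y y
    have he : (y * y) * (y * y) = y * y := by rw [← mul_assoc, hy, hy]
    refine c2_of hS hS'.1 (e := y * y) (b := x * (y * y)) he ?_ ?_ ?_
    · rw [hc (y * y), mul_assoc, he]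
    · rw [mul_assoc, he]
    · intro h1
      apply hne
      calc x * (y * y) = x * (y * y) * (x * (y * y)) := h1
        _ = x * ((y * y) * x) * (y * y) := by simp only [mul_assoc]
        _ = x * (x * (y * y)) * (y * y) := by rw [hc (y * y) x]
        _ = (x * x) * ((y * y) * (y * y)) := by simp only [mul_assoc]
        _ = (x * x) * (y * y) := by rw [he]
  have hZ : ∀ (S : Type) [USemigroup S], V.mem S → (varA opFst).mem S →
      Sat S opXSqY opSqSq := by
    intro S _ hS hS' x y
    have hc : ∀ x y : S, x * y = x := fun x y => hS'.2 x y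
    show x * (y * y) = (x * x) * (y * y)
    rw [hc, hc, hc]
  have hT : (varA opRev ⊔ varA opFst).mem P3 :=
    mem_join_of_list c2_com l2_lz [(.c, .l), (.e, .r), (.z, .l), (.c, .r), (.z, .r)]
      (by decide) (by decide)
      (fun p => if p = (.c, .l) then .a else if p = (.e, .r) then .e else .z)
      (by decide) (by decide) (by decide)
  have := key hV _ _ opXSqY opSqSq hY hZ P3 hP hT P3.a P3.e
  revert this
  decide

/-- `(x * x) * y` -/
def opSqXY : BinOp := ⟨fun _ _ x y => (x * x) * y,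
  fun _ _ _ _ h x y => by simp only [UHom.map_mul]⟩

/-- Step B, dual: if `C2 ∉ V` then `D3 ∉ V`. -/
theorem stepB' {V : EpigroupVariety} (hV : IsCodistributive V) (h : ¬ V.mem C2) :
    ¬ V.mem D3 := by
  intro hP
  have hY : ∀ (S : Type) [USemigroup S], V.mem S → (varA opRev).mem S →
      Sat S opSqXY opSqSq := by
    intro S _ hS hS' x y
    show (x * x) * y = (x * x) * (y * y)
    by_contra hne
    apply h
    have hc : ∀ x y : S, x * y = y * x := fun x y => hS'.2 x y
    have hy : x * x * x = x * x := hS'.1.2 x x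
    have he : (x * x) * (x * x) = x * x := by rw [← mul_assoc, hy, hy]
    refine c2_of hS hS'.1 (e := x * x) (b := (x * x) * y) he ?_ ?_ ?_
    · rw [← mul_assoc, he]
    · rw [hc ((x * x) * y), ← mul_assoc, he]
    · intro h1
      apply hne
      calc (x * x) * y = (x * x) * y * ((x * x) * y) := h1
        _ = (x * x) * (y * (x * x)) * y := by simp only [mul_assoc]
        _ = (x * x) * ((x * x) * y) * y := by rw [hc y (x * x)]
        _ = ((x * x) * (x * x)) * (y * y) := by simp only [mul_assoc]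
        _ = (x * x) * (y * y) := by rw [he]
  have hZ : ∀ (S : Type) [USemigroup S], V.mem S → (varA opSnd).mem S →
      Sat S opSqXY opSqSq := by
    intro S _ hS hS' x y
    have hc : ∀ x y : S, x * y = y := fun x y => hS'.2 x y
    show (x * x) * y = (x * x) * (y * y)
    rw [hc, hc, hc]
  have hT : (varA opRev ⊔ varA opSnd).mem D3 :=
    mem_join_of_list c2_com r2_rz [(.c, .l), (.e, .r), (.z, .l), (.c, .r), (.z, .r)]
      (by decide) (by decide)
      (fun p => if p = (.c, .l) then .a else if p = (.e, .r) then .e else .z)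
      (by decide) (by decide) (by decide)
  have := key hV _ _ opSqXY opSqSq hY hZ D3 hP hT D3.e D3.a
  revert this
  decide

/-- Step C. -/
theorem stepC {V : EpigroupVariety} (hV : IsCodistributive V) (hN : V.mem N3)
    (hP : ¬ V.mem P3) (hD : ¬ V.mem D3) : False := by
  have hY : ∀ (S : Type) [USemigroup S], V.mem S → (varA opXXY).mem S →
      Sat S opMul opMM := by
    intro S _ hS hS' x y
    show x * y = (x * y) * (x * y)
    by_contra hne
    apply hD
    have hb : ∀ x : S, bar x = x * x := fun x => hS'.1.1 x x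
    have hq : ∀ x : S, x * x * x = x * x := fun x => hS'.1.2 x x
    have hi : ∀ x y : S, x * y = x * x * y := fun x y => hS'.2 x y
    have ee : (x * x) * (x * x) = x * x := by rw [← mul_assoc, hq, hq]
    have ea : (x * x) * (x * y) = x * y := by rw [← mul_assoc, hq, ← hi]
    generalize x * x = e at ee ea
    generalize x * y = a at hne ea
    have aaa := hq a
    have aaa' : a * (a * a) = a * a := by rw [← mul_assoc, aaa]
    have aae : a * a * e = a * e := (hi a e).symm
    have aae' : a * (a * e) = a * e := by rw [← mul_assoc, aae]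
    have dd : (a * a) * (a * a) = a * a := by rw [← mul_assoc, aaa, aaa]
    have bb : (a * e) * (a * e) = a * e := by
      rw [mul_assoc, ← mul_assoc e, ea, aae']
    have ba : (a * e) * a = a * a := by rw [mul_assoc, ea]
    refine mem_of_rel hS (fun s t => (s = e ∧ t = D3.e) ∨ (s = a ∧ t = .a) ∨
      (s = a * e ∧ t = .z) ∨ (s = a * a ∧ t = .z)) ?_ ?_ ?_ ?_
    · rintro s s' t t' (⟨rfl, rfl⟩ | ⟨rfl, rfl⟩ | ⟨rfl, rfl⟩ | ⟨rfl, rfl⟩)
        (⟨rfl, rfl⟩ | ⟨rfl, rfl⟩ | ⟨rfl, rfl⟩ | ⟨rfl, rfl⟩)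
      · exact Or.inl ⟨ee, rfl⟩
      · exact Or.inr (Or.inl ⟨ea, rfl⟩)
      · exact Or.inr (Or.inr (Or.inl ⟨by rw [← mul_assoc, ea], rfl⟩))
      · exact Or.inr (Or.inr (Or.inr ⟨by rw [← mul_assoc, ea], rfl⟩))
      · exact Or.inr (Or.inr (Or.inl ⟨rfl, rfl⟩))
      · exact Or.inr (Or.inr (Or.inr ⟨rfl, rfl⟩))
      · exact Or.inr (Or.inr (Or.inl ⟨aae', rfl⟩))
      · exact Or.inr (Or.inr (Or.inr ⟨aaa', rfl⟩))
      · exact Or.inr (Or.inr (Or.inl ⟨by rw [mul_assoc, ee], rfl⟩))
      · exact Or.inr (Or.inr (Or.inr ⟨ba, rfl⟩))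
      · exact Or.inr (Or.inr (Or.inl ⟨bb, rfl⟩))
      · exact Or.inr (Or.inr (Or.inr ⟨by rw [← mul_assoc, ba, aaa], rfl⟩))
      · exact Or.inr (Or.inr (Or.inl ⟨aae, rfl⟩))
      · exact Or.inr (Or.inr (Or.inr ⟨aaa, rfl⟩))
      · exact Or.inr (Or.inr (Or.inl ⟨by rw [← mul_assoc, aaa, aae], rfl⟩))
      · exact Or.inr (Or.inr (Or.inr ⟨dd, rfl⟩))
    · rintro s t (⟨rfl, rfl⟩ | ⟨rfl, rfl⟩ | ⟨rfl, rfl⟩ | ⟨rfl, rfl⟩)
      · exact Or.inl ⟨by rw [hb, ee], rfl⟩
      · exact Or.inr (Or.inr (Or.inr ⟨hb _, rfl⟩))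
      · exact Or.inr (Or.inr (Or.inl ⟨by rw [hb, bb], rfl⟩))
      · exact Or.inr (Or.inr (Or.inr ⟨by rw [hb, dd], rfl⟩))
    · have n1 : e ≠ a := fun h => hne (by rw [← h, ee])
      have n2 : a ≠ a * e := fun h => hne (by
        calc a = a * e := h
          _ = (a * e) * (a * e) := bb.symm
          _ = a * a := by rw [← h])
      have n3 : e ≠ a * e := fun h => hne (by
        calc a = e * a := ea.symm
          _ = a * e * a := by rw [← h]
          _ = a * a := ba)
      have n4 : e ≠ a * a := fun h => hne (by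
        calc a = e * a := ea.symm
          _ = a * a * a := by rw [← h]
          _ = a * a := aaa)
      rintro s t t' (⟨rfl, rfl⟩ | ⟨rfl, rfl⟩ | ⟨rfl, rfl⟩ | ⟨rfl, rfl⟩)
        (⟨h, rfl⟩ | ⟨h, rfl⟩ | ⟨h, rfl⟩ | ⟨h, rfl⟩) <;>
        first
          | rfl
          | exact absurd h n1
          | exact absurd h.symm n1
          | exact absurd h n2
          | exact absurd h.symm n2
          | exact absurd h n3
          | exact absurd h.symm n3
          | exact absurd h n4
          | exact absurd h.symm n4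
          | exact absurd h hne
          | exact absurd h.symm hne
    · rintro (_ | _ | _)
      · exact ⟨e, Or.inl ⟨rfl, rfl⟩⟩
      · exact ⟨a, Or.inr (Or.inl ⟨rfl, rfl⟩)⟩
      · exact ⟨a * e, Or.inr (Or.inr (Or.inl ⟨rfl, rfl⟩))⟩
  have hZ : ∀ (S : Type) [USemigroup S], V.mem S → (varA opXYY).mem S →
      Sat S opMul opMM := by
    intro S _ hS hS' x y
    show x * y = (x * y) * (x * y)
    by_contra hne
    apply hP
    have hb : ∀ x : S, bar x = x * x := fun x => hS'.1.1 x x
    have hq : ∀ x : S, x * x * x = x * x := fun x => hS'.1.2 x x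
    have hi : ∀ x y : S, x * y = x * y * y := fun x y => hS'.2 x y
    have ee : (y * y) * (y * y) = y * y := by rw [← mul_assoc, hq, hq]
    have ae : (x * y) * (y * y) = x * y := by rw [← mul_assoc, ← hi, ← hi]
    generalize y * y = e at ee ae
    generalize x * y = a at hne ae
    have aaa := hq a
    have aaa' : a * (a * a) = a * a := by rw [← mul_assoc, aaa]
    have eaa : e * a * a = e * a := (hi e a).symm
    have eaa' : e * (a * a) = e * a := by rw [← mul_assoc, eaa]
    have dd : (a * a) * (a * a) = a * a := by rw [← mul_assoc, aaa, aaa]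
    have bb : (e * a) * (e * a) = e * a := by
      rw [← mul_assoc, mul_assoc e a e, ae, eaa]
    have ab : a * (e * a) = a * a := by rw [← mul_assoc, ae]
    refine mem_of_rel hS (fun s t => (s = e ∧ t = P3.e) ∨ (s = a ∧ t = .a) ∨
      (s = e * a ∧ t = .z) ∨ (s = a * a ∧ t = .z)) ?_ ?_ ?_ ?_
    · rintro s s' t t' (⟨rfl, rfl⟩ | ⟨rfl, rfl⟩ | ⟨rfl, rfl⟩ | ⟨rfl, rfl⟩)
        (⟨rfl, rfl⟩ | ⟨rfl, rfl⟩ | ⟨rfl, rfl⟩ | ⟨rfl, rfl⟩)
      · exact Or.inl ⟨ee, rfl⟩
      · exact Or.inr (Or.inr (Or.inl ⟨rfl, rfl⟩))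
      · exact Or.inr (Or.inr (Or.inl ⟨by rw [← mul_assoc, ee], rfl⟩))
      · exact Or.inr (Or.inr (Or.inl ⟨eaa', rfl⟩))
      · exact Or.inr (Or.inl ⟨ae, rfl⟩)
      · exact Or.inr (Or.inr (Or.inr ⟨rfl, rfl⟩))
      · exact Or.inr (Or.inr (Or.inr ⟨ab, rfl⟩))
      · exact Or.inr (Or.inr (Or.inr ⟨aaa', rfl⟩))
      · exact Or.inr (Or.inr (Or.inl ⟨by rw [mul_assoc, ae], rfl⟩))
      · exact Or.inr (Or.inr (Or.inl ⟨eaa, rfl⟩))
      · exact Or.inr (Or.inr (Or.inl ⟨bb, rfl⟩))
      · exact Or.inr (Or.inr (Or.inl ⟨by rw [← mul_assoc, eaa, eaa], rfl⟩))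
      · exact Or.inr (Or.inr (Or.inr ⟨by rw [mul_assoc, ae], rfl⟩))
      · exact Or.inr (Or.inr (Or.inr ⟨aaa, rfl⟩))
      · exact Or.inr (Or.inr (Or.inr ⟨by rw [mul_assoc, ab, aaa'], rfl⟩))
      · exact Or.inr (Or.inr (Or.inr ⟨dd, rfl⟩))
    · rintro s t (⟨rfl, rfl⟩ | ⟨rfl, rfl⟩ | ⟨rfl, rfl⟩ | ⟨rfl, rfl⟩)
      · exact Or.inl ⟨by rw [hb, ee], rfl⟩
      · exact Or.inr (Or.inr (Or.inr ⟨hb _, rfl⟩))
      · exact Or.inr (Or.inr (Or.inl ⟨by rw [hb, bb], rfl⟩))
      · exact Or.inr (Or.inr (Or.inr ⟨by rw [hb, dd], rfl⟩))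
    · have n1 : e ≠ a := fun h => hne (by rw [← h, ee])
      have n2 : a ≠ e * a := fun h => hne (by
        calc a = e * a := h
          _ = (e * a) * (e * a) := bb.symm
          _ = a * a := by rw [← h])
      have n3 : e ≠ e * a := fun h => hne (by
        calc a = a * e := ae.symm
          _ = a * (e * a) := by rw [← h]
          _ = a * a := ab)
      have n4 : e ≠ a * a := fun h => hne (by
        calc a = a * e := ae.symm
          _ = a * (a * a) := by rw [← h]
          _ = a * a := aaa')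
      rintro s t t' (⟨rfl, rfl⟩ | ⟨rfl, rfl⟩ | ⟨rfl, rfl⟩ | ⟨rfl, rfl⟩)
        (⟨h, rfl⟩ | ⟨h, rfl⟩ | ⟨h, rfl⟩ | ⟨h, rfl⟩) <;>
        first
          | rfl
          | exact absurd h n1
          | exact absurd h.symm n1
          | exact absurd h n2
          | exact absurd h.symm n2
          | exact absurd h n3
          | exact absurd h.symm n3
          | exact absurd h n4
          | exact absurd h.symm n4
          | exact absurd h hne
          | exact absurd h.symm hne
    · rintro (_ | _ | _)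
      · exact ⟨e, Or.inl ⟨rfl, rfl⟩⟩
      · exact ⟨a, Or.inr (Or.inl ⟨rfl, rfl⟩)⟩
      · exact ⟨e * a, Or.inr (Or.inr (Or.inl ⟨rfl, rfl⟩))⟩
  have hA := (varA opXXY).mem_prod D3 D3 d3_xxy d3_xxy
  have hB := (varA opXYY).mem_prod P3 P3 p3_xyy p3_xyy
  have hT : (varA opXXY ⊔ varA opXYY).mem N3 :=
    mem_join_of_list hA hB
      [((.e, .a), (.a, .e)), ((.a, .e), (.e, .a)), ((.e, .z), (.z, .e)),
       ((.a, .z), (.a, .z)), ((.z, .e), (.e, .z)), ((.z, .a), (.z, .a)),
       ((.a, .z), (.z, .z)), ((.z, .z), (.a, .z)), ((.z, .z), (.z, .z)),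
       ((.z, .z), (.z, .a)), ((.z, .a), (.z, .z))]
      (by decide) (by decide)
      (fun p => if p = ((.e, .a), (.a, .e)) then .a else
        if p = ((.a, .e), (.e, .a)) then .b else
        if p = ((.a, .z), (.a, .z)) then .c else
        if p = ((.z, .a), (.z, .a)) then .c else .z) (by decide) (by decide) (by decide)
  have := key hV _ _ opMul opMM hY hZ N3 hN hT N3.a N3.b
  revert this
  decide

end Pool.Agent.H99.Epi
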