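import Pool.Agent.H99.EpiFinite

/-!
# Generated subalgebras, products of many elements, Rees quotients
-/

namespace Pool.Agent.H99.Epi

/-- The elements of the unary subsemigroup generated by `x` and `y`. -/
inductive Gen2 {S : Type} [USemigroup S] (x y : S) : S → Prop
  | left : Gen2 x y x
  | right : Gen2 x y y
  | mul {a b : S} : Gen2 x y a → Gen2 x y b → Gen2 x y (a * b)
  | bar {a : S} : Gen2 x y a → Gen2 x y (bar a)

/-- The unary subsemigroup generated by `x` and `y`. -/
def Sub2 {S : Type} [USemigroup S] (x y : S) : Type := {s : S // Gen2 x y s}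

instance {S : Type} [USemigroup S] (x y : S) : USemigroup (Sub2 x y) where
  mul a b := ⟨a.1 * b.1, a.2.mul b.2⟩
  mul_assoc _ _ _ := Subtype.ext (mul_assoc _ _ _)
  bar a := ⟨bar a.1, a.2.bar⟩

/-- The inclusion of the generated subalgebra. -/
def incl2 {S : Type} [USemigroup S] (x y : S) : UHom (Sub2 x y) S :=
  ⟨fun s => s.1, fun _ _ => rfl, fun _ => rfl⟩

/-- First generator. -/
def g1 {S : Type} [USemigroup S] (x y : S) : Sub2 x y := ⟨x, Gen2.left⟩
/-- Second generator. -/
def g2 {S : Type} [USemigroup S] (x y : S) : Sub2 x y := ⟨y, Gen2.right⟩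

theorem gen_sub2 {S : Type} [USemigroup S] (x y : S) (s : Sub2 x y) :
    Gen2 (g1 x y) (g2 x y) s := by
  obtain ⟨s, hs⟩ := s
  induction hs with
  | left => exact Gen2.left
  | right => exact Gen2.right
  | mul _ _ iha ihb => exact Gen2.mul iha ihb
  | bar _ iha => exact Gen2.bar iha

theorem EpigroupVariety.mem_sub2 (V : EpigroupVariety) {S : Type} [USemigroup S]
    (h : V.mem S) (x y : S) : V.mem (Sub2 x y) :=
  V.sub _ S (incl2 x y) Subtype.val_injective h

/-- `Pw S m` is the set of products of `m + 1` elements of `S`. -/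
def Pw (S : Type) [Semigroup S] : ℕ → Set S
  | 0 => Set.univ
  | m + 1 => {s | ∃ a ∈ Pw S m, ∃ b, s = a * b}

section pw

variable {S : Type} [USemigroup S]

theorem pw_zero (s : S) : s ∈ Pw S 0 := Set.mem_univ s

theorem pw_mul {m : ℕ} {a : S} (ha : a ∈ Pw S m) (b : S) : a * b ∈ Pw S (m + 1) :=
  ⟨a, ha, b, rfl⟩

theorem pw_succ {m : ℕ} {s : S} (h : s ∈ Pw S (m + 1)) : s ∈ Pw S m := by
  induction m generalizing s with
  | zero => exact pw_zero s
  | succ m ih =>
    obtain ⟨a, ha, b, rfl⟩ := h
    exact pw_mul (ih ha) b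

theorem pw_le {m n : ℕ} (hmn : m ≤ n) {s : S} (h : s ∈ Pw S n) : s ∈ Pw S m := by
  induction hmn with
  | refl => exact h
  | step _ ih => exact ih (pw_succ h)

theorem mul_pw {m : ℕ} {a : S} (ha : a ∈ Pw S m) (b : S) : b * a ∈ Pw S (m + 1) := by
  induction m generalizing a with
  | zero => exact ⟨b, pw_zero b, a, rfl⟩
  | succ m ih =>
    obtain ⟨c, hc, d, rfl⟩ := ha
    rw [← mul_assoc]
    exact pw_mul (ih hc) d

theorem pw_mul_pw {m n : ℕ} {a b : S} (ha : a ∈ Pw S m) (hb : b ∈ Pw S n) :
    a * b ∈ Pw S (m + n + 1) := by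
  induction n generalizing b with
  | zero => exact pw_mul ha b
  | succ n ih =>
    obtain ⟨c, hc, d, rfl⟩ := hb
    rw [← mul_assoc]
    exact pw_mul (ih hc) d

theorem pw_map {T : Type} [USemigroup T] (f : UHom S T) {m : ℕ} {a : S}
    (ha : a ∈ Pw S m) : f a ∈ Pw T m := by
  induction m generalizing a with
  | zero => exact pw_zero _
  | succ m ih =>
    obtain ⟨c, hc, d, rfl⟩ := ha
    rw [f.map_mul]
    exact pw_mul (ih hc) _

theorem pw_lift {T : Type} [USemigroup T] (f : UHom S T) (hf : Function.Surjective f)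
    {m : ℕ} {b : T} (hb : b ∈ Pw T m) : ∃ a ∈ Pw S m, f a = b := by
  induction m generalizing b with
  | zero =>
    obtain ⟨a, ha⟩ := hf b
    exact ⟨a, pw_zero a, ha⟩
  | succ m ih =>
    obtain ⟨c, hc, d, rfl⟩ := hb
    obtain ⟨c, hc', rfl⟩ := ih hc
    obtain ⟨d, rfl⟩ := hf d
    exact ⟨c * d, pw_mul hc' d, f.map_mul c d⟩

theorem pw_bar (hE : IsEpigroup S) (m : ℕ) (a : S) : bar a ∈ Pw S m := by
  induction m with
  | zero => exact pw_zero _
  | succ m ih =>
    rw [← bar_mul_bar hE a, mul_assoc]
    exact pw_mul ih _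

end pw

/-! ### Rees quotients -/

/-- An ideal of a unary semigroup which contains all the elements `bar a`. -/
structure UIdeal (S : Type) [USemigroup S] where
  /-- the underlying set -/
  carrier : Set S
  mul_right : ∀ a ∈ carrier, ∀ b, a * b ∈ carrier
  mul_left : ∀ a ∈ carrier, ∀ b, b * a ∈ carrier
  bar_mem : ∀ a, bar a ∈ carrier

/-- The Rees congruence. -/
def UIdeal.setoid {S : Type} [USemigroup S] (I : UIdeal S) : Setoid S where
  r a b := a = b ∨ (a ∈ I.carrier ∧ b ∈ I.carrier)
  iseqv := by
    refine ⟨fun a => Or.inl rfl, ?_, ?_⟩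
    · rintro a b (rfl | ⟨h1, h2⟩)
      · exact Or.inl rfl
      · exact Or.inr ⟨h2, h1⟩
    · rintro a b c (rfl | ⟨h1, h2⟩) (rfl | ⟨h3, h4⟩)
      · exact Or.inl rfl
      · exact Or.inr ⟨h3, h4⟩
      · exact Or.inr ⟨h1, h2⟩
      · exact Or.inr ⟨h1, h4⟩

/-- The Rees quotient. -/
def Rees {S : Type} [USemigroup S] (I : UIdeal S) : Type := Quotient I.setoid

instance {S : Type} [USemigroup S] (I : UIdeal S) : USemigroup (Rees I) where
  mul := Quotient.map₂ (· * ·) (by
    rintro a b (rfl | ⟨h1, h2⟩) c d (rfl | ⟨h3, h4⟩)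
    · exact Or.inl rfl
    · exact Or.inr ⟨I.mul_left _ h3 _, I.mul_left _ h4 _⟩
    · exact Or.inr ⟨I.mul_right _ h1 _, I.mul_right _ h2 _⟩
    · exact Or.inr ⟨I.mul_right _ h1 _, I.mul_right _ h2 _⟩)
  mul_assoc := by
    rintro ⟨a⟩ ⟨b⟩ ⟨c⟩
    exact congrArg (Quotient.mk I.setoid) (mul_assoc a b c)
  bar := Quotient.map bar (by
    rintro a b _
    exact Or.inr ⟨I.bar_mem a, I.bar_mem b⟩)

/-- The quotient map. -/
def reesHom {S : Type} [USemigroup S] (I : UIdeal S) : UHom S (Rees I) where
  toFun := Quotient.mk I.setoid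
  map_mul _ _ := rfl
  map_bar _ := rfl

theorem reesHom_surj {S : Type} [USemigroup S] (I : UIdeal S) :
    Function.Surjective (reesHom I) := Quotient.exists_rep

theorem reesHom_eq {S : Type} [USemigroup S] (I : UIdeal S) {a b : S} :
    reesHom I a = reesHom I b ↔ a = b ∨ (a ∈ I.carrier ∧ b ∈ I.carrier) :=
  Quotient.eq (r := I.setoid)

theorem EpigroupVariety.mem_rees (V : EpigroupVariety) {S : Type} [USemigroup S]
    (h : V.mem S) (I : UIdeal S) : V.mem (Rees I) :=
  V.hom_image S _ (reesHom I) (reesHom_surj I) h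

/-- The ideal of products of `m + 1` elements. -/
def pwIdeal {S : Type} [USemigroup S] (hE : IsEpigroup S) (m : ℕ) : UIdeal S where
  carrier := Pw S m
  mul_right _ ha _ := pw_succ (pw_mul ha _)
  mul_left _ ha _ := pw_succ (mul_pw ha _)
  bar_mem a := pw_bar hE m a

/-! ### Drazin inverses: uniqueness and commutation -/

section drazin2

variable {S : Type} [Semigroup S]

theorem drazin_unique {x y z : S} {n m : ℕ} (h1 : x * y = y * x) (h2 : y * x * y = y)
    (h3 : spow x n * (x * y) = spow x n) (k1 : x * z = z * x) (k2 : z * x * z = z)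
    (k3 : spow x m * (x * z) = spow x m) : y = z := by
  -- common index
  have h3' := drazin_index_mono m h3 h1
  have k3' := drazin_index_mono n k3 k1
  rw [add_comm m n] at k3'
  generalize n + m = N at h3' k3'
  have hey : (x * y) * y = y := by rw [h1, h2]
  have hez : (x * z) * z = z := by rw [k1, k2]
  have fe : (x * y) * (x * y) = x * y := by
    rw [← mul_assoc, mul_assoc x y x, ← h1, mul_assoc x (x * y) y, hey]
  have ge : (x * z) * (x * z) = x * z := by
    rw [← mul_assoc, mul_assoc x z x, ← k1, mul_assoc x (x * z) z, hez]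
  have hxy : spow y N * spow x N = x * y := by
    rw [spow_mul_of_comm h1.symm, ← h1, spow_idem fe]
  have hxz : spow z N * spow x N = x * z := by
    rw [spow_mul_of_comm k1.symm, ← k1, spow_idem ge]
  have hxy' : spow x N * spow y N = x * y := by
    rw [spow_mul_of_comm h1, spow_idem fe]
  -- f = f g, g = g f
  have hfg : (x * y) * (x * z) = x * y := by
    rw [← hxy, mul_assoc, k3']
  have hgf : (x * z) * (x * y) = x * z := by
    rw [← hxz, mul_assoc, h3']
  have hxx : (x * z) * x = x * (x * z) := by rw [mul_assoc, ← k1]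
  have hgf' : (x * z) * (x * y) = x * y := by
    rw [← hxy', ← mul_assoc, spow_comm_of_comm hxx N, k3']
  have hfeq : x * y = x * z := by rw [← hgf', hgf]
  calc y = y * (x * y) := by rw [← mul_assoc, h2]
    _ = y * (x * z) := by rw [hfeq]
    _ = (y * x) * z := (mul_assoc _ _ _).symm
    _ = (x * z) * z := by rw [← h1, hfeq]
    _ = z := hez

/-- Elements commuting with `x` commute with its Drazin inverse. -/
theorem drazin_comm {x y b : S} {n : ℕ} (h1 : x * y = y * x) (h2 : y * x * y = y)
    (h3 : spow x n * (x * y) = spow x n) (hb : b * x = x * b) : b * y = y * b := by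
  have hey : (x * y) * y = y := by rw [h1, h2]
  have hye : y * (x * y) = y := by rw [← mul_assoc, h2]
  have fe : (x * y) * (x * y) = x * y := by
    rw [← mul_assoc, mul_assoc x y x, ← h1, mul_assoc x (x * y) y, hey]
  have hxy : spow y n * spow x n = x * y := by
    rw [spow_mul_of_comm h1.symm, ← h1, spow_idem fe]
  have hxy' : spow x n * spow y n = x * y := by
    rw [spow_mul_of_comm h1, spow_idem fe]
  have hxx : (x * y) * x = x * (x * y) := by rw [mul_assoc, ← h1]
  have hX : (x * y) * spow x n = spow x n := by rw [spow_comm_of_comm hxx n, h3]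
  have hbX : b * spow x n = spow x n * b := spow_comm_of_comm hb n
  -- f b = f b f and b f = f b f
  have h4 : (x * y) * b = (x * y) * b * (x * y) := by
    calc (x * y) * b = spow y n * spow x n * b := by rw [hxy]
      _ = spow y n * (spow x n * b) := mul_assoc _ _ _
      _ = spow y n * (b * spow x n) := by rw [hbX]
      _ = spow y n * (b * (spow x n * (x * y))) := by rw [h3]
      _ = spow y n * ((b * spow x n) * (x * y)) := by rw [mul_assoc]
      _ = spow y n * ((spow x n * b) * (x * y)) := by rw [hbX]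
      _ = (spow y n * spow x n) * b * (x * y) := by simp only [mul_assoc]
      _ = (x * y) * b * (x * y) := by rw [hxy]
  have h5 : b * (x * y) = (x * y) * b * (x * y) := by
    calc b * (x * y) = b * (spow x n * spow y n) := by rw [hxy']
      _ = (b * spow x n) * spow y n := (mul_assoc _ _ _).symm
      _ = (spow x n * b) * spow y n := by rw [hbX]
      _ = (((x * y) * spow x n) * b) * spow y n := by rw [hX]
      _ = (x * y) * ((spow x n * b) * spow y n) := by simp only [mul_assoc]
      _ = (x * y) * ((b * spow x n) * spow y n) := by rw [hbX]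
      _ = (x * y) * b * (spow x n * spow y n) := by simp only [mul_assoc]
      _ = (x * y) * b * (x * y) := by rw [hxy']
  have h6 : (x * y) * b = b * (x * y) := by rw [h4, ← h5]
  calc b * y = b * ((x * y) * y) := by rw [hey]
    _ = (b * (x * y)) * y := (mul_assoc _ _ _).symm
    _ = ((x * y) * b) * y := by rw [h6]
    _ = ((y * x) * b) * y := by rw [h1]
    _ = y * (x * b) * y := by simp only [mul_assoc]
    _ = y * (b * x) * y := by rw [hb]
    _ = y * (b * (x * y)) := by simp only [mul_assoc]
    _ = y * ((x * y) * b) := by rw [h6]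
    _ = (y * (x * y)) * b := (mul_assoc _ _ _).symm
    _ = y * b := by rw [hye]

end drazin2

section epi2

variable {S : Type} [USemigroup S]

theorem comm_bar (hE : IsEpigroup S) {b x : S} (hb : b * x = x * b) :
    b * bar x = bar x * b := by
  obtain ⟨h1, h2, n, h3⟩ := (hE x).drazin
  exact drazin_comm h1 h2 h3 hb

theorem bar_unique (hE : IsEpigroup S) {x y : S} {n : ℕ} (h1 : x * y = y * x)
    (h2 : y * x * y = y) (h3 : spow x n * (x * y) = spow x n) : bar x = y := by
  obtain ⟨k1, k2, m, k3⟩ := (hE x).drazin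
  exact drazin_unique k1 k2 k3 h1 h2 h3

/-- `bar x = x * (bar x * bar x)`. -/
theorem bar_eq_left (hE : IsEpigroup S) (x : S) : bar x = x * (bar x * bar x) := by
  rw [← mul_assoc, bar_comm hE, bar_mul_bar hE]

/-- `bar x = (bar x * bar x) * x`. -/
theorem bar_eq_right (hE : IsEpigroup S) (x : S) : bar x = (bar x * bar x) * x := by
  rw [mul_assoc, ← bar_comm hE, ← mul_assoc, bar_mul_bar hE]

/-- If `b = b * b * r`, then `b` is completely regular. -/
theorem cr_of_sq (hE : IsEpigroup S) {b r : S} (h : b = b * b * r) : CR b := by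
  apply cr_of_spow hE
  have key : ∀ n, b = spow b (n + 1) * spow r n := by
    intro n
    induction n with
    | zero => exact h
    | succ n ih =>
      have h2 : spow b (n + 1 + 1) * r = spow b (n + 1) := by
        show spow b (n + 1) * b * r = spow b (n + 1)
        show spow b n * b * b * r = spow b n * b
        rw [mul_assoc (spow b n), mul_assoc (spow b n), ← h]
      show b = spow b (n + 1 + 1) * (spow r n * r)
      have h3 : r * spow r n = spow r n * r := spow_self_comm r n
      rw [← h3, ← mul_assoc, h2]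
      exact ih
  intro n
  cases n with
  | zero => exact ⟨b * r, by rw [← mul_assoc]; exact h⟩
  | succ n => exact ⟨spow r n, key n⟩

theorem cr_of_idem (hE : IsEpigroup S) {b : S} (h : b * b = b) : CR b := by
  refine cr_of_sq hE (r := b) ?_
  rw [h, h]

end epi2

end Pool.Agent.H99.Epi
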