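import Pool.Agent.H99.EpiWords

/-!
# The nilpotent cases
-/

namespace Pool.Agent.H99.Epi

set_option linter.unusedSimpArgs false

/-! ### The words `x y x^(m+1)` and `x^(m+2) y` -/

/-- `x y x^(m+1)`. -/
def opU (m : ℕ) : BinOp := ⟨fun _ _ x y => x * y * spow x m,
  fun _ _ _ _ h x y => by simp only [UHom.map_mul, UHom.map_spow]⟩
/-- `y x y^(m+1)`. -/
def opU' (m : ℕ) : BinOp := ⟨fun _ _ x y => y * x * spow y m,
  fun _ _ _ _ h x y => by simp only [UHom.map_mul, UHom.map_spow]⟩
/-- `x^(m+2) y`. -/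
def opW (m : ℕ) : BinOp := ⟨fun _ _ x y => spow x (m + 1) * y,
  fun _ _ _ _ h x y => by simp only [UHom.map_mul, UHom.map_spow]⟩
/-- `y^(m+2) x`. -/
def opW' (m : ℕ) : BinOp := ⟨fun _ _ x y => spow y (m + 1) * x,
  fun _ _ _ _ h x y => by simp only [UHom.map_mul, UHom.map_spow]⟩

/-- The word `a b a^(m+1)`. -/
def wU (m : ℕ) (a b : Wd) : Wd := a * b * spow a m
/-- The word `a^(m+2) b`. -/
def wW (m : ℕ) (a b : Wd) : Wd := spow a (m + 1) * b

theorem qmk_U (c : Con Wd) (z : Wd) (m : ℕ) (a b : Wd) :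
    (opU m).f (QU c z) (qmk c z a) (qmk c z b) = qmk c z (wU m a b) := by
  show qmk c z a * qmk c z b * spow (qmk c z a) m = _
  rw [wU, map_mul, map_mul, mulHom_spow]

theorem qmk_U' (c : Con Wd) (z : Wd) (m : ℕ) (a b : Wd) :
    (opU' m).f (QU c z) (qmk c z a) (qmk c z b) = qmk c z (wU m b a) := by
  show qmk c z b * qmk c z a * spow (qmk c z b) m = _
  rw [wU, map_mul, map_mul, mulHom_spow]

theorem qmk_W (c : Con Wd) (z : Wd) (m : ℕ) (a b : Wd) :
    (opW m).f (QU c z) (qmk c z a) (qmk c z b) = qmk c z (wW m a b) := by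
  show spow (qmk c z a) (m + 1) * qmk c z b = _
  rw [wW, map_mul, mulHom_spow]

theorem qmk_W' (c : Con Wd) (z : Wd) (m : ℕ) (a b : Wd) :
    (opW' m).f (QU c z) (qmk c z a) (qmk c z b) = qmk c z (wW m b a) := by
  show spow (qmk c z b) (m + 1) * qmk c z a = _
  rw [wW, map_mul, mulHom_spow]

theorem ev_wU {S : Type} [USemigroup S] (x y : S) (m : ℕ) (a b : Wd) :
    ev x y (wU m a b) = ev x y a * ev x y b * spow (ev x y a) m := by
  rw [wU, map_mul, map_mul, mulHom_spow]

theorem ev_wW {S : Type} [USemigroup S] (x y : S) (m : ℕ) (a b : Wd) :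
    ev x y (wW m a b) = spow (ev x y a) (m + 1) * ev x y b := by
  rw [wW, map_mul, mulHom_spow]

theorem len_wU (m : ℕ) (a b : Wd) : (wU m a b).length = (m + 2) * a.length + b.length := by
  rw [wU, FreeSemigroup.length_mul, FreeSemigroup.length_mul, len_spow]
  ring

theorem len_wW (m : ℕ) (a b : Wd) : (wW m a b).length = (m + 2) * a.length + b.length := by
  rw [wW, FreeSemigroup.length_mul, len_spow]

/-- The list of letters of a word. -/
def toL (v : Wd) : List Bool := v.head :: v.tail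

theorem toL_mul (v w : Wd) : toL (v * w) = toL v ++ toL w := rfl

theorem toL_length (v : Wd) : (toL v).length = v.length := rfl

/-- The first two letters are equal. -/
def EE (v : Wd) : Prop := ∃ b l, toL v = b :: b :: l

/-- The second letter differs from the first and third. -/
def Alt (v : Wd) : Prop := ∃ b l, toL v = b :: (!b) :: b :: l

theorem EE.mul {v : Wd} (h : EE v) (s : Wd) : EE (v * s) := by
  obtain ⟨b, l, h⟩ := h
  exact ⟨b, l ++ toL s, by rw [toL_mul, h]; rfl⟩

theorem EE.not_alt {v : Wd} (h : EE v) : ¬ Alt v := by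
  rintro ⟨b', l', h'⟩
  obtain ⟨b, l, h⟩ := h
  rw [h] at h'
  simp only [List.cons.injEq] at h'
  obtain ⟨rfl, h2, -⟩ := h'
  cases b <;> simp at h2

theorem EE.not_alt_mul {v : Wd} (h : EE v) {s : Wd} (hs : s.length = 1) : ¬ Alt (s * v) := by
  rintro ⟨b', l', h'⟩
  obtain ⟨b, l, h⟩ := h
  rw [toL_mul, h] at h'
  have h1 : ∃ c, toL s = [c] := List.length_eq_one_iff.1 hs
  obtain ⟨c, hc⟩ := h1
  rw [hc] at h'
  simp only [List.cons_append, List.nil_append, List.cons.injEq] at h'
  obtain ⟨rfl, h2, h3, -⟩ := h'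
  rw [h3] at h2
  cases c <;> simp at h2

theorem ee_spow (v : Wd) (hv : v.length = 1) (n : ℕ) : EE (spow v (n + 1)) := by
  have h1 : ∃ c, toL v = [c] := List.length_eq_one_iff.1 hv
  obtain ⟨c, hc⟩ := h1
  induction n with
  | zero => exact ⟨c, [], by show toL (v * v) = _; rw [toL_mul, hc]; rfl⟩
  | succ n ih => exact EE.mul ih v

theorem ee_wW (v w : Wd) (hv : v.length = 1) (n : ℕ) : EE (wW n v w) :=
  EE.mul (ee_spow v hv n) w

theorem toL_spow_head (v : Wd) (c : Bool) (hv : toL v = [c]) (n : ℕ) :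
    ∃ l, toL (spow v n) = c :: l := by
  induction n with
  | zero => exact ⟨[], hv⟩
  | succ n ih =>
    obtain ⟨l, hl⟩ := ih
    exact ⟨l ++ toL v, by show toL (spow v n * v) = _; rw [toL_mul, hl]; rfl⟩

theorem alt_XY (m : ℕ) : Alt (wU m lX lY) := by
  obtain ⟨l, hl⟩ := toL_spow_head lX true rfl m
  refine ⟨true, l, ?_⟩
  rw [wU, toL_mul, toL_mul, hl]
  rfl

theorem alt_YX (m : ℕ) : Alt (wU m lY lX) := by
  obtain ⟨l, hl⟩ := toL_spow_head lY false rfl m
  refine ⟨false, l, ?_⟩
  rw [wU, toL_mul, toL_mul, hl]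
  rfl

theorem head_wU_ne (m : ℕ) : wU m lX lY ≠ wU m lY lX := by
  intro h
  have := congrArg FreeSemigroup.head h
  simp [wU] at this

theorem head_spow (v : Wd) (n : ℕ) : (spow v n).head = v.head := by
  induction n with
  | zero => rfl
  | succ n ih => exact ih

theorem head_wW_ne (m : ℕ) : wW m lX lY ≠ wW m lY lX := by
  intro h
  have := congrArg FreeSemigroup.head h
  simp [wW, head_spow] at this

theorem wU_self (m : ℕ) (a : Wd) : wU m a a = wW m a a := by
  rw [wU, wW]
  have h1 : spow a (m + 1) = a * spow a m := (spow_self_comm a m).symm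
  rw [h1, mul_assoc, mul_assoc, spow_self_comm]

/-! ### Generation -/

theorem gen2_map {S T : Type} [USemigroup S] [USemigroup T] (f : UHom S T) {x y s : S}
    (h : Gen2 x y s) : Gen2 (f x) (f y) (f s) := by
  induction h with
  | left => exact Gen2.left
  | right => exact Gen2.right
  | mul _ _ ih1 ih2 => rw [f.map_mul]; exact Gen2.mul ih1 ih2
  | bar _ ih => rw [f.map_bar]; exact Gen2.bar ih

/-- In two-generated members, `x y x^(m+1)` is a product of `m + 4` elements. -/
def DeepU (V : EpigroupVariety) (m : ℕ) : Prop :=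
  ∀ (S : Type) [USemigroup S], V.mem S → ∀ x y : S, (∀ s, Gen2 x y s) →
    x * y * spow x m ∈ Pw S (m + 3)

/-- In two-generated members, `x^(m+2) y` is a product of `m + 4` elements. -/
def DeepW (V : EpigroupVariety) (m : ℕ) : Prop :=
  ∀ (S : Type) [USemigroup S], V.mem S → ∀ x y : S, (∀ s, Gen2 x y s) →
    spow x (m + 1) * y ∈ Pw S (m + 3)

theorem DeepU.all {V : EpigroupVariety} {m : ℕ} (h : DeepU V m) (S : Type) [USemigroup S]
    (hS : V.mem S) (x y : S) : x * y * spow x m ∈ Pw S (m + 3) := by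
  have h1 := h (Sub2 x y) (V.mem_sub2 hS x y) (g1 x y) (g2 x y) (gen_sub2 x y)
  have h2 := pw_map (incl2 x y) h1
  rw [(incl2 x y).map_mul, (incl2 x y).map_mul, (incl2 x y).map_spow] at h2
  exact h2

theorem DeepW.all {V : EpigroupVariety} {m : ℕ} (h : DeepW V m) (S : Type) [USemigroup S]
    (hS : V.mem S) (x y : S) : spow x (m + 1) * y ∈ Pw S (m + 3) := by
  have h1 := h (Sub2 x y) (V.mem_sub2 hS x y) (g1 x y) (g2 x y) (gen_sub2 x y)
  have h2 := pw_map (incl2 x y) h1
  rw [(incl2 x y).map_mul, (incl2 x y).map_spow] at h2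
  exact h2

/-! ### Case `α`: `x^(m+2) y` is deep but `x y x^(m+1)` is not -/

/-- Words of length at least `L`. -/
def longW (L : ℕ) : Set Wd := {v | L ≤ v.length}

theorem soc_long {L : ℕ} {v : Wd} (h : L ≤ v.length + 1) : Soc (longW L) v := by
  intro s
  have := len_pos s
  constructor
  · show L ≤ (v * s).length
    rw [FreeSemigroup.length_mul]
    omega
  · show L ≤ (s * v).length
    rw [FreeSemigroup.length_mul]
    omega

theorem ne_of_ee_alt {v w : Wd} (hv : EE v) (hw : Alt w) : v ≠ w := by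
  rintro rfl
  exact hv.not_alt hw

theorem caseAlpha {V : EpigroupVariety} (hV : IsCodistributive V) {m : ℕ}
    (hU : ¬ DeepU V m) (hW : DeepW V m) : False := by
  -- the words
  have lenX : (lX).length = 1 := rfl
  have lenY : (lY).length = 1 := rfl
  have eW : EE (wW m lX lY) := ee_wW _ _ rfl m
  have eW' : EE (wW m lY lX) := ee_wW _ _ rfl m
  have nWU : wW m lX lY ≠ wU m lX lY := ne_of_ee_alt eW (alt_XY m)
  have nWU' : wW m lX lY ≠ wU m lY lX := ne_of_ee_alt eW (alt_YX m)
  have nW'U : wW m lY lX ≠ wU m lX lY := ne_of_ee_alt eW' (alt_XY m)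
  have nW'U' : wW m lY lX ≠ wU m lY lX := ne_of_ee_alt eW' (alt_YX m)
  have nWW' : wW m lX lY ≠ wW m lY lX := head_wW_ne m
  have nUU' : wU m lX lY ≠ wU m lY lX := head_wU_ne m
  let D : Set Wd := longW (m + 4)
  have hD : ∀ v ∈ D, Soc D v := fun v hv => soc_long (Nat.le_succ_of_le hv)
  have sW : Soc D (wW m lX lY) := soc_long (by rw [len_wW, lenX, lenY]; omega)
  have sW' : Soc D (wW m lY lX) := soc_long (by rw [len_wW, lenX, lenY]; omega)
  have sU : Soc D (wU m lX lY) := soc_long (by rw [len_wU, lenX, lenY]; omega)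
  have sU' : Soc D (wU m lY lX) := soc_long (by rw [len_wU, lenX, lenY]; omega)
  let c1 : Con Wd := conOf D hD (swp (wW m lX lY) (wW m lY lX) (wU m lX lY) (wU m lY lX))
    (swp_inj sW sW' sU sU')
  let c2 : Con Wd := conOf D hD (swp (wW m lY lX) (wW m lX lY) (wU m lX lY) (wU m lY lX))
    (swp_inj sW' sW sU sU')
  let z : Wd := spow lX (m + 3)
  have hz : (m + 3) + 1 ≤ z.length := by
    show _ ≤ (spow lX (m + 3)).length
    rw [len_spow, lenX]
    omega
  -- membership of short words
  have short : ∀ v : Wd, v.length = m + 3 → v ∉ D := by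
    intro v hv h
    have : m + 4 ≤ v.length := h
    omega
  have h1 : (varN (m + 3) (opU m) (opW m)).mem (QU c1 z) := by
    refine qu_mem c1 z (m + 3) _ _ hz (fun v hv => Or.inl ⟨hv, hz⟩) ?_
    intro a b
    rw [qmk_U, qmk_W, qmk_eq]
    by_cases hab : a.length = 1 ∧ b.length = 1
    · obtain ⟨ha, hb⟩ := hab
      have s1 : wU m a b ∉ D := short _ (by rw [len_wU, ha, hb]; omega)
      have s2 : wW m a b ∉ D := short _ (by rw [len_wW, ha, hb]; omega)
      refine Or.inr ⟨s1, s2, ?_⟩
      rcases len_one ha with rfl | rfl <;> rcases len_one hb with rfl | rfl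
      · rw [wU_self]
      · simp [swp, nWU.symm, nW'U.symm]
      · simp [swp, nWU'.symm, nW'U'.symm, nWW'.symm]
      · rw [wU_self]
    · have ha := len_pos a
      have hb := len_pos b
      have h2 : m + 4 ≤ (m + 2) * a.length + b.length := by
        by_cases ha1 : a.length = 1
        · have : b.length ≠ 1 := fun h => hab ⟨ha1, h⟩
          rw [ha1]
          omega
        · have : (m + 2) * 2 ≤ (m + 2) * a.length := Nat.mul_le_mul_left _ (by omega)
          omega
      refine Or.inl ⟨?_, ?_⟩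
      · show m + 4 ≤ (wU m a b).length
        rw [len_wU]
        exact h2
      · show m + 4 ≤ (wW m a b).length
        rw [len_wW]
        exact h2
  have h2 : (varN (m + 3) (opU m) (opW' m)).mem (QU c2 z) := by
    refine qu_mem c2 z (m + 3) _ _ hz (fun v hv => Or.inl ⟨hv, hz⟩) ?_
    intro a b
    rw [qmk_U, qmk_W', qmk_eq]
    by_cases hab : a.length = 1 ∧ b.length = 1
    · obtain ⟨ha, hb⟩ := hab
      have s1 : wU m a b ∉ D := short _ (by rw [len_wU, ha, hb]; omega)
      have s2 : wW m b a ∉ D := short _ (by rw [len_wW, ha, hb]; omega)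
      refine Or.inr ⟨s1, s2, ?_⟩
      rcases len_one ha with rfl | rfl <;> rcases len_one hb with rfl | rfl
      · rw [wU_self]
      · simp [swp, nWU.symm, nW'U.symm]
      · simp [swp, nWU'.symm, nW'U'.symm, nWW']
      · rw [wU_self]
    · have ha := len_pos a
      have hb := len_pos b
      have h2 : ∀ p q : ℕ, 1 ≤ p → 1 ≤ q → ¬ (p = 1 ∧ q = 1) → m + 4 ≤ (m + 2) * p + q := by
        intro p q hp hq hpq
        by_cases hp1 : p = 1
        · have : q ≠ 1 := fun h => hpq ⟨hp1, h⟩
          rw [hp1]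
          omega
        · have : (m + 2) * 2 ≤ (m + 2) * p := Nat.mul_le_mul_left _ (by omega)
          omega
      refine Or.inl ⟨?_, ?_⟩
      · show m + 4 ≤ (wU m a b).length
        rw [len_wU]
        exact h2 _ _ ha hb hab
      · show m + 4 ≤ (wW m b a).length
        rw [len_wW]
        exact h2 _ _ hb ha (fun h => hab ⟨h.2, h.1⟩)
  -- the member of `V`
  unfold DeepU at hU
  push Not at hU
  obtain ⟨S, iS, hS, x, y, hgen, hxy⟩ := hU
  have hE : IsEpigroup S := V.isEpigroup S hS
  let I : UIdeal S := pwIdeal hE (m + 3)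
  have hT : V.mem (Rees I) := V.mem_rees hS I
  let f : UHom S (Rees I) := reesHom I
  have hgenT : ∀ t, Gen2 (f x) (f y) t := by
    intro t
    obtain ⟨s, rfl⟩ := reesHom_surj I t
    exact gen2_map f (hgen s)
  have hzero : ∀ v : Wd, m + 4 ≤ v.length → ∀ t : Rees I, ev (f x) (f y) v = bar t := by
    intro v hv t
    obtain ⟨a, ha, hav⟩ := pw_lift f (reesHom_surj I) (ev_pw (f x) (f y) v (m + 3) hv)
    obtain ⟨s, rfl⟩ := reesHom_surj I t
    have : bar (f s) = f (bar s) := (f.map_bar s).symm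
    change _ = bar (f s)
    rw [this, ← hav]
    exact (reesHom_eq I).2 (Or.inr ⟨ha, pw_bar hE _ _⟩)
  have hTJ : (varN (m + 3) (opU m) (opW m) ⊔ varN (m + 3) (opU m) (opW' m)).mem (Rees I) := by
    refine mem_join_of_con c1 c2 z h1 h2 (f x) (f y) hgenT (fun t => (hzero z hz t).symm) ?_
    rintro v v' (⟨h3, h4⟩ | ⟨h3, h4, h5⟩)
    · intro _
      rw [hzero v h3 (f x), hzero v' h4 (f x)]
    · rintro (⟨h6, h7⟩ | ⟨_, _, h6⟩)
      · exact absurd h6 h3
      · rw [swp_meet nWW' nWU nWU' nW'U nW'U' nUU' v v' h5 h6]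
  have hkey := key hV _ _ (opU m) opBar ?_ ?_ (Rees I) hT hTJ (f x) (f y)
  · change f x * f y * spow (f x) m = bar (f x) at hkey
    rw [← f.map_spow, ← f.map_mul, ← f.map_mul, ← f.map_bar] at hkey
    rcases (reesHom_eq I).1 hkey with h3 | h3
    · apply hxy
      rw [h3]
      exact pw_bar hE _ _
    · exact hxy h3.1
  · intro R _ hR hR' a b
    show a * b * spow a m = bar a
    have h3 : a * b * spow a m = spow a (m + 1) * b := hR'.2 a b
    rw [h3]
    exact hR'.1.2.2.2 _ (hW.all R hR a b) a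
  · intro R _ hR hR' a b
    show a * b * spow a m = bar a
    have h3 : a * b * spow a m = spow b (m + 1) * a := hR'.2 a b
    rw [h3]
    exact hR'.1.2.2.2 _ (hW.all R hR b a) a

/-! ### Case `β`: `x y x^(m+2)` is deep but `x^(m+2) y` is not -/

theorem ev_hom {S T : Type} [USemigroup S] [USemigroup T] (f : UHom S T) (x y : S) (v : Wd) :
    ev (f x) (f y) v = f (ev x y v) := by
  induction v using FreeSemigroup.recOnMul with
  | ih1 b => cases b <;> rfl
  | ih2 b w ih1 ih2 => rw [map_mul, map_mul, f.map_mul, ih1, ih2]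

/-- The ideal of words used in case `β`. -/
def idB (m : ℕ) : Set Wd :=
  {v | m + 5 ≤ v.length ∨ (v.length = m + 4 ∧ v ≠ wU (m + 1) lX lY ∧ v ≠ wU (m + 1) lY lX) ∨
    v = spow lX (m + 2) ∨ v = spow lY (m + 2)}

theorem idB_of_not_alt {m : ℕ} {v : Wd} (h : m + 4 ≤ v.length) (h' : ¬ Alt v) :
    v ∈ idB m := by
  by_cases h2 : m + 5 ≤ v.length
  · exact Or.inl h2
  · refine Or.inr (Or.inl ⟨by omega, ?_, ?_⟩)
    · rintro rfl
      exact h' (alt_XY _)
    · rintro rfl
      exact h' (alt_YX _)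

theorem socB {m : ℕ} {v : Wd} (h : m + 3 ≤ v.length) (h' : v.length = m + 3 → EE v) :
    Soc (idB m) v := by
  intro s
  have hs := len_pos s
  by_cases h3 : v.length = m + 3
  · have hE := h' h3
    constructor
    · exact idB_of_not_alt (by rw [FreeSemigroup.length_mul]; omega) (hE.mul s).not_alt
    · by_cases hs1 : s.length = 1
      · exact idB_of_not_alt (by rw [FreeSemigroup.length_mul]; omega) (hE.not_alt_mul hs1)
      · refine Or.inl ?_
        rw [FreeSemigroup.length_mul]
        omega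
  · constructor
    · refine Or.inl ?_
      rw [FreeSemigroup.length_mul]
      omega
    · refine Or.inl ?_
      rw [FreeSemigroup.length_mul]
      omega

theorem wW_ne_spow (m : ℕ) : wW m lX lY ≠ spow lX (m + 2) := by
  intro h
  have h1 := congrArg (ev R2.l R2.r) h
  rw [ev_wW, mulHom_spow, spow_idem (show ev R2.l R2.r lX * ev R2.l R2.r lX = _ from rfl)] at h1
  change R2.r = R2.l at h1
  cases h1

theorem wW_ne_spow' (m : ℕ) : wW m lY lX ≠ spow lY (m + 2) := by
  intro h
  have h1 := congrArg (ev R2.l R2.r) h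
  rw [ev_wW, mulHom_spow, spow_idem (show ev R2.l R2.r lY * ev R2.l R2.r lY = _ from rfl)] at h1
  change R2.l = R2.r at h1
  cases h1

theorem wW_ne_spow2 (m : ℕ) : wW m lX lY ≠ spow lY (m + 2) := by
  intro h
  have := congrArg FreeSemigroup.head h
  simp [wW, head_spow] at this

theorem wW_ne_spow2' (m : ℕ) : wW m lY lX ≠ spow lX (m + 2) := by
  intro h
  have := congrArg FreeSemigroup.head h
  simp [wW, head_spow] at this

theorem spow_e (n : ℕ) : spow C2.e n = C2.e := by
  induction n with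
  | zero => rfl
  | succ n ih => show spow C2.e n * C2.e = C2.e; rw [ih]; rfl

theorem spow_c (n : ℕ) : spow C2.c (n + 1) = C2.z := by
  induction n with
  | zero => rfl
  | succ n ih => show spow C2.c (n + 1) * C2.c = C2.z; rw [ih]; rfl

theorem caseBeta {V : EpigroupVariety} (hV : IsCodistributive V) (hC : V.mem C2) {m : ℕ}
    (hU : DeepU V (m + 1)) (hW : ¬ DeepW V m) : False := by
  -- the words
  have lenX : (lX).length = 1 := rfl
  have lenY : (lY).length = 1 := rfl
  have eW : EE (wW m lX lY) := ee_wW _ _ rfl m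
  have eW' : EE (wW m lY lX) := ee_wW _ _ rfl m
  have nWU : wW m lX lY ≠ wU (m + 1) lX lY := ne_of_ee_alt eW (alt_XY _)
  have nWU' : wW m lX lY ≠ wU (m + 1) lY lX := ne_of_ee_alt eW (alt_YX _)
  have nW'U : wW m lY lX ≠ wU (m + 1) lX lY := ne_of_ee_alt eW' (alt_XY _)
  have nW'U' : wW m lY lX ≠ wU (m + 1) lY lX := ne_of_ee_alt eW' (alt_YX _)
  have nWW' : wW m lX lY ≠ wW m lY lX := head_wW_ne m
  have nUU' : wU (m + 1) lX lY ≠ wU (m + 1) lY lX := head_wU_ne _
  have lW : (wW m lX lY).length = m + 3 := by rw [len_wW, lenX, lenY]; omega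
  have lW' : (wW m lY lX).length = m + 3 := by rw [len_wW, lenX, lenY]; omega
  have lU : (wU (m + 1) lX lY).length = m + 4 := by rw [len_wU, lenX, lenY]; omega
  have lU' : (wU (m + 1) lY lX).length = m + 4 := by rw [len_wU, lenX, lenY]; omega
  have lSX : (spow lX (m + 2)).length = m + 3 := by rw [len_spow, lenX]; omega
  have lSY : (spow lY (m + 2)).length = m + 3 := by rw [len_spow, lenY]; omega
  let D : Set Wd := idB m
  have hD : ∀ v ∈ D, Soc D v := by
    rintro v (hv | ⟨hv, _⟩ | rfl | rfl)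
    · exact socB (by omega) (fun h => by omega)
    · exact socB (by omega) (fun h => by omega)
    · exact socB (by omega) (fun h => ee_spow _ rfl _)
    · exact socB (by omega) (fun h => ee_spow _ rfl _)
  have sW : Soc D (wW m lX lY) := socB (by omega) (fun _ => eW)
  have sW' : Soc D (wW m lY lX) := socB (by omega) (fun _ => eW')
  have sU : Soc D (wU (m + 1) lX lY) := socB (by omega) (fun h => by omega)
  have sU' : Soc D (wU (m + 1) lY lX) := socB (by omega) (fun h => by omega)
  have dW : wW m lX lY ∉ D := by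
    rintro (h | ⟨h, _⟩ | h | h)
    · omega
    · omega
    · exact wW_ne_spow m h
    · exact wW_ne_spow2 m h
  have dW' : wW m lY lX ∉ D := by
    rintro (h | ⟨h, _⟩ | h | h)
    · omega
    · omega
    · exact wW_ne_spow2' m h
    · exact wW_ne_spow' m h
  have dU : wU (m + 1) lX lY ∉ D := by
    rintro (h | ⟨_, h, _⟩ | h | h)
    · omega
    · exact h rfl
    · have := congrArg FreeSemigroup.length h
      omega
    · have := congrArg FreeSemigroup.length h
      omega
  have dU' : wU (m + 1) lY lX ∉ D := by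
    rintro (h | ⟨_, _, h⟩ | h | h)
    · omega
    · exact h rfl
    · have := congrArg FreeSemigroup.length h
      omega
    · have := congrArg FreeSemigroup.length h
      omega
  let c1 : Con Wd := conOf D hD
    (swp (wU (m + 1) lX lY) (wU (m + 1) lY lX) (wW m lX lY) (wW m lY lX))
    (swp_inj sU sU' sW sW')
  let c2 : Con Wd := conOf D hD
    (swp (wU (m + 1) lY lX) (wU (m + 1) lX lY) (wW m lX lY) (wW m lY lX))
    (swp_inj sU' sU sW sW')
  let z : Wd := spow lX (m + 4)
  have hz : (m + 4) + 1 ≤ z.length := by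
    show _ ≤ (spow lX (m + 4)).length
    rw [len_spow, lenX]
    omega
  have hzD : z ∈ D := Or.inl hz
  -- long values
  have longU : ∀ a b : Wd, ¬ (a.length = 1 ∧ b.length = 1) → wU (m + 1) a b ∈ D := by
    intro a b hab
    have ha := len_pos a
    have hb := len_pos b
    refine Or.inl ?_
    rw [len_wU]
    by_cases ha1 : a.length = 1
    · have : b.length ≠ 1 := fun h => hab ⟨ha1, h⟩
      rw [ha1]
      omega
    · have : (m + 1 + 2) * 2 ≤ (m + 1 + 2) * a.length := Nat.mul_le_mul_left _ (by omega)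
      omega
  have longW' : ∀ a b : Wd, ¬ (a.length = 1 ∧ b.length = 1) → wW m a b ∈ D := by
    intro a b hab
    have ha := len_pos a
    have hb := len_pos b
    by_cases ha1 : a.length = 1
    · have : b.length ≠ 1 := fun h => hab ⟨ha1, h⟩
      refine idB_of_not_alt ?_ (ee_wW a b ha1 m).not_alt
      rw [len_wW, ha1]
      omega
    · refine Or.inl ?_
      rw [len_wW]
      have : (m + 2) * 2 ≤ (m + 2) * a.length := Nat.mul_le_mul_left _ (by omega)
      omega
  have selfW : ∀ a : Wd, (a = lX ∨ a = lY) → wW m a a ∈ D := by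
    rintro a (rfl | rfl)
    · exact Or.inr (Or.inr (Or.inl rfl))
    · exact Or.inr (Or.inr (Or.inr rfl))
  have selfU : ∀ a : Wd, (a = lX ∨ a = lY) → wU (m + 1) a a ∈ D := by
    intro a ha
    have ha1 : a.length = 1 := by rcases ha with rfl | rfl <;> rfl
    rw [wU_self]
    refine idB_of_not_alt ?_ (ee_wW a a ha1 (m + 1)).not_alt
    rw [len_wW, ha1]
    omega
  have h1 : (varN (m + 4) (opW m) (opU (m + 1))).mem (QU c1 z) := by
    refine qu_mem c1 z (m + 4) _ _ hz (fun v hv => Or.inl ⟨Or.inl hv, hzD⟩) ?_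
    intro a b
    rw [qmk_U, qmk_W, qmk_eq]
    by_cases hab : a.length = 1 ∧ b.length = 1
    · obtain ⟨ha, hb⟩ := hab
      rcases len_one ha with rfl | rfl <;> rcases len_one hb with rfl | rfl
      · exact Or.inl ⟨selfW _ (Or.inl rfl), selfU _ (Or.inl rfl)⟩
      · refine Or.inr ⟨dW, dU, ?_⟩
        simp [swp, nWU, nWU', nW'U, nW'U', nUU', nWW']
      · refine Or.inr ⟨dW', dU', ?_⟩
        simp [swp, nWU, nWU', nW'U, nW'U', nUU'.symm, nWW']
      · exact Or.inl ⟨selfW _ (Or.inr rfl), selfU _ (Or.inr rfl)⟩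
    · exact Or.inl ⟨longW' a b hab, longU a b hab⟩
  have h2 : (varN (m + 4) (opW m) (opU' (m + 1))).mem (QU c2 z) := by
    refine qu_mem c2 z (m + 4) _ _ hz (fun v hv => Or.inl ⟨Or.inl hv, hzD⟩) ?_
    intro a b
    rw [qmk_U', qmk_W, qmk_eq]
    by_cases hab : a.length = 1 ∧ b.length = 1
    · obtain ⟨ha, hb⟩ := hab
      rcases len_one ha with rfl | rfl <;> rcases len_one hb with rfl | rfl
      · exact Or.inl ⟨selfW _ (Or.inl rfl), selfU _ (Or.inl rfl)⟩
      · refine Or.inr ⟨dW, dU', ?_⟩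
        simp [swp, nWU, nWU', nW'U, nW'U', nUU', nWW']
      · refine Or.inr ⟨dW', dU, ?_⟩
        simp [swp, nWU, nWU', nW'U, nW'U', nUU', nWW']
      · exact Or.inl ⟨selfW _ (Or.inr rfl), selfU _ (Or.inr rfl)⟩
    · exact Or.inl ⟨longW' a b hab, longU b a (fun h => hab ⟨h.2, h.1⟩)⟩
  -- the member of `V`
  unfold DeepW at hW
  push Not at hW
  obtain ⟨S, iS, hS, x, y, hgen, hxy⟩ := hW
  have hS2 : V.mem (S × C2) := V.mem_prod S C2 hS hC
  let x0 : S × C2 := (x, C2.e)
  let y0 : S × C2 := (y, C2.c)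
  have hS' : V.mem (Sub2 x0 y0) := V.mem_sub2 hS2 x0 y0
  have hE : IsEpigroup (Sub2 x0 y0) := V.isEpigroup _ hS'
  let x' : Sub2 x0 y0 := g1 x0 y0
  let y' : Sub2 x0 y0 := g2 x0 y0
  let I : UIdeal (Sub2 x0 y0) :=
    { carrier := {s | s ∈ Pw (Sub2 x0 y0) (m + 3) ∨ s = spow x' (m + 2) ∨ s = spow y' (m + 2)}
      mul_right := by
        rintro a (ha | rfl | rfl) b
        · exact Or.inl (pw_succ (pw_mul ha b))
        · exact Or.inl (pw_mul (spow_pw x' (m + 2)) b)
        · exact Or.inl (pw_mul (spow_pw y' (m + 2)) b)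
      mul_left := by
        rintro a (ha | rfl | rfl) b
        · exact Or.inl (pw_succ (mul_pw ha b))
        · exact Or.inl (mul_pw (spow_pw x' (m + 2)) b)
        · exact Or.inl (mul_pw (spow_pw y' (m + 2)) b)
      bar_mem := fun a => Or.inl (pw_bar hE _ a) }
  have hT : V.mem (Rees I) := V.mem_rees hS' I
  let f : UHom (Sub2 x0 y0) (Rees I) := reesHom I
  have hgenT : ∀ t, Gen2 (f x') (f y') t := by
    intro t
    obtain ⟨s, rfl⟩ := reesHom_surj I t
    exact gen2_map f (gen_sub2 x0 y0 s)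
  have hzero : ∀ v ∈ D, ∀ t : Rees I, ev (f x') (f y') v = bar t := by
    intro v hv t
    obtain ⟨s, rfl⟩ := reesHom_surj I t
    have h3 : bar (f s) = f (bar s) := (f.map_bar s).symm
    change _ = bar (f s)
    rw [h3, ev_hom]
    refine (reesHom_eq I).2 (Or.inr ⟨?_, Or.inl (pw_bar hE _ _)⟩)
    rcases hv with hv | ⟨hv, _⟩ | rfl | rfl
    · exact Or.inl (ev_pw x' y' v (m + 3) (by omega))
    · exact Or.inl (ev_pw x' y' v (m + 3) (by omega))
    · refine Or.inr (Or.inl ?_)
      rw [mulHom_spow]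
      rfl
    · refine Or.inr (Or.inr ?_)
      rw [mulHom_spow]
      rfl
  have hTJ : (varN (m + 4) (opW m) (opU (m + 1)) ⊔
      varN (m + 4) (opW m) (opU' (m + 1))).mem (Rees I) := by
    refine mem_join_of_con c1 c2 z h1 h2 (f x') (f y') hgenT
      (fun t => (hzero z hzD t).symm) ?_
    rintro v v' (⟨h3, h4⟩ | ⟨h3, h4, h5⟩)
    · intro _
      rw [hzero v h3 (f x'), hzero v' h4 (f x')]
    · rintro (⟨h6, h7⟩ | ⟨_, _, h6⟩)
      · exact absurd h6 h3
      · rw [swp_meet nUU' nWU.symm nW'U.symm nWU'.symm nW'U'.symm nWW' v v' h5 h6]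
  have hkey := key hV _ _ (opW m) opBar ?_ ?_ (Rees I) hT hTJ (f x') (f y')
  · change spow (f x') (m + 1) * f y' = bar (f x') at hkey
    rw [← f.map_spow, ← f.map_mul, ← f.map_bar] at hkey
    have hnot : spow x' (m + 1) * y' ∉ Pw (Sub2 x0 y0) (m + 3) := by
      intro h3
      have h4 := pw_map (fstHom S C2) (pw_map (incl2 x0 y0) h3)
      rw [UHom.map_mul, UHom.map_mul, UHom.map_spow, UHom.map_spow] at h4
      exact hxy h4
    have hC2 : ((incl2 x0 y0) (spow x' (m + 1) * y')).2 = C2.c := by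
      rw [UHom.map_mul, UHom.map_spow]
      show (spow (x, C2.e) (m + 1) * (y, C2.c)).2 = C2.c
      rw [spow_prod, spow_e]
      rfl
    have hmem : spow x' (m + 1) * y' ∈ I.carrier := by
      rcases (reesHom_eq I).1 hkey with h3 | h3
      · rw [h3]
        exact Or.inl (pw_bar hE _ _)
      · exact h3.1
    rcases hmem with h3 | h3 | h3
    · exact hnot h3
    · rw [h3, UHom.map_spow] at hC2
      change (spow (x, C2.e) (m + 2)).2 = C2.c at hC2
      rw [spow_prod, spow_e] at hC2
      cases hC2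
    · rw [h3, UHom.map_spow] at hC2
      change (spow (y, C2.c) (m + 2)).2 = C2.c at hC2
      rw [spow_prod, spow_c] at hC2
      cases hC2
  · intro R _ hR hR' a b
    show spow a (m + 1) * b = bar a
    have h3 : spow a (m + 1) * b = a * b * spow a (m + 1) := hR'.2 a b
    rw [h3]
    exact hR'.1.2.2.2 _ (hU.all R hR a b) a
  · intro R _ hR hR' a b
    show spow a (m + 1) * b = bar a
    have h3 : spow a (m + 1) * b = b * a * spow b (m + 1) := hR'.2 a b
    rw [h3]
    exact hR'.1.2.2.2 _ (hU.all R hR b a) a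

end Pool.Agent.H99.Epi
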