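import Pool.Agent.H99.EpiCR

/-!
# Varieties without `C2`, `P3`, `D3`, `N3` have completely regular squares, II
-/

namespace Pool.Agent.H99.Epi

/-- If `V` does not contain `N3`, then every product of two elements of a member of `V` is a
product of three elements. -/
theorem stepD2 {V : EpigroupVariety} (hN : ¬ V.mem N3) {S : Type} [USemigroup S]
    (hS : V.mem S) (x y : S) : x * y ∈ Pw S 2 := by
  by_contra hxy
  have hE := V.isEpigroup S hS
  let I := pwIdeal hE 2
  have hT : V.mem (Rees I) := V.mem_rees hS I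
  let T := Rees I
  let z : T := reesHom I (bar x)
  have hz : ∀ s : S, s ∈ Pw S 2 → reesHom I s = z := fun s hs =>
    (reesHom_eq I).mpr (Or.inr ⟨hs, pw_bar hE 2 x⟩)
  have hzl : ∀ t : T, z * t = z := by
    intro t
    obtain ⟨s, rfl⟩ := reesHom_surj I t
    show reesHom I (bar x) * reesHom I s = z
    rw [← UHom.map_mul]
    exact hz _ (I.mul_right _ (pw_bar hE 2 x) s)
  have hzr : ∀ t : T, t * z = z := by
    intro t
    obtain ⟨s, rfl⟩ := reesHom_surj I t
    show reesHom I s * reesHom I (bar x) = z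
    rw [← UHom.map_mul]
    exact hz _ (I.mul_left _ (pw_bar hE 2 x) s)
  have hbar : ∀ t : T, bar t = z := by
    intro t
    obtain ⟨s, rfl⟩ := reesHom_surj I t
    rw [← UHom.map_bar]
    exact hz _ (pw_bar hE 2 s)
  have h3 : ∀ p q r : T, p * q * r = z := by
    intro p q r
    obtain ⟨p, rfl⟩ := reesHom_surj I p
    obtain ⟨q, rfl⟩ := reesHom_surj I q
    obtain ⟨r, rfl⟩ := reesHom_surj I r
    rw [← UHom.map_mul, ← UHom.map_mul]
    exact hz _ (pw_mul (pw_mul (pw_zero p) q) r)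
  obtain ⟨X, Y, hXY⟩ : ∃ X Y : T, X * Y ≠ z := by
    refine ⟨reesHom I x, reesHom I y, ?_⟩
    rw [← UHom.map_mul]
    intro h
    rcases (reesHom_eq I).mp h with h | h
    · exact hxy (h ▸ pw_bar hE 2 x)
    · exact hxy h.1
  have hX : X ≠ z := fun h => hXY (by rw [h, hzl])
  have hY : Y ≠ z := fun h => hXY (by rw [h, hzr])
  have hX2 : X ≠ X * X := fun h => hX (by
    calc X = X * X := h
      _ = X * X * X := by rw [← h]; exact h
      _ = z := h3 _ _ _)
  have hY2 : Y ≠ Y * Y := fun h => hY (by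
    calc Y = Y * Y := h
      _ = Y * Y * Y := by rw [← h]; exact h
      _ = z := h3 _ _ _)
  -- the power
  have hP : V.mem ((p : T × T) → T) := V.prod (T × T) (fun _ => T) (fun _ => hT)
  let a : T × T → T := fun p => p.1
  let b : T × T → T := fun p => p.2
  let Z : T × T → T := fun _ => z
  have e1 : ∀ f g : T × T → T, ∀ p, (f * g) p = f p * g p := fun _ _ _ => rfl
  have ann : ∀ f : T × T → T, (f = a * b ∨ f = b * a ∨ f = a * a ∨ f = b * b ∨ f = Z) →
      ∀ g, f * g = Z ∧ g * f = Z := by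
    intro f hf g
    have hh : ∀ c d : T × T → T, (c * d) * g = Z ∧ g * (c * d) = Z := by
      intro c d
      refine ⟨funext fun p => h3 _ _ _, funext fun p => ?_⟩
      show g p * (c p * d p) = z
      rw [← mul_assoc]
      exact h3 _ _ _
    rcases hf with rfl | rfl | rfl | rfl | rfl
    · exact hh _ _
    · exact hh _ _
    · exact hh _ _
    · exact hh _ _
    · exact ⟨funext fun p => hzl _, funext fun p => hzr _⟩
  have hb : ∀ f : T × T → T, bar f = Z := fun f => funext fun p => hbar _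
  apply hN
  refine mem_of_rel hP (fun s t => (s = a ∧ t = N3.a) ∨ (s = b ∧ t = .b) ∨
    ((s = a * b ∨ s = b * a) ∧ t = .c) ∨ ((s = a * a ∨ s = b * b ∨ s = Z) ∧ t = .z))
    ?_ ?_ ?_ ?_
  · have cc : ∀ {s : T × T → T}, (s = a * b ∨ s = b * a) →
        (s = a * b ∨ s = b * a ∨ s = a * a ∨ s = b * b ∨ s = Z) := by tauto
    have cz : ∀ {s : T × T → T}, (s = a * a ∨ s = b * b ∨ s = Z) →
        (s = a * b ∨ s = b * a ∨ s = a * a ∨ s = b * b ∨ s = Z) := by tauto
    rintro s s' t t' (⟨rfl, rfl⟩ | ⟨rfl, rfl⟩ | ⟨hs, rfl⟩ | ⟨hs, rfl⟩)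
      (⟨rfl, rfl⟩ | ⟨rfl, rfl⟩ | ⟨hs', rfl⟩ | ⟨hs', rfl⟩)
    · exact Or.inr (Or.inr (Or.inr ⟨Or.inl rfl, rfl⟩))
    · exact Or.inr (Or.inr (Or.inl ⟨Or.inl rfl, rfl⟩))
    · exact Or.inr (Or.inr (Or.inr ⟨Or.inr (Or.inr (ann _ (cc hs') _).2), rfl⟩))
    · exact Or.inr (Or.inr (Or.inr ⟨Or.inr (Or.inr (ann _ (cz hs') _).2), rfl⟩))
    · exact Or.inr (Or.inr (Or.inl ⟨Or.inr rfl, rfl⟩))
    · exact Or.inr (Or.inr (Or.inr ⟨Or.inr (Or.inl rfl), rfl⟩))
    · exact Or.inr (Or.inr (Or.inr ⟨Or.inr (Or.inr (ann _ (cc hs') _).2), rfl⟩))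
    · exact Or.inr (Or.inr (Or.inr ⟨Or.inr (Or.inr (ann _ (cz hs') _).2), rfl⟩))
    · exact Or.inr (Or.inr (Or.inr ⟨Or.inr (Or.inr (ann _ (cc hs) _).1), rfl⟩))
    · exact Or.inr (Or.inr (Or.inr ⟨Or.inr (Or.inr (ann _ (cc hs) _).1), rfl⟩))
    · exact Or.inr (Or.inr (Or.inr ⟨Or.inr (Or.inr (ann _ (cc hs) _).1), rfl⟩))
    · exact Or.inr (Or.inr (Or.inr ⟨Or.inr (Or.inr (ann _ (cc hs) _).1), rfl⟩))
    · exact Or.inr (Or.inr (Or.inr ⟨Or.inr (Or.inr (ann _ (cz hs) _).1), rfl⟩))
    · exact Or.inr (Or.inr (Or.inr ⟨Or.inr (Or.inr (ann _ (cz hs) _).1), rfl⟩))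
    · exact Or.inr (Or.inr (Or.inr ⟨Or.inr (Or.inr (ann _ (cz hs) _).1), rfl⟩))
    · exact Or.inr (Or.inr (Or.inr ⟨Or.inr (Or.inr (ann _ (cz hs) _).1), rfl⟩))
  · rintro s t (⟨rfl, rfl⟩ | ⟨rfl, rfl⟩ | ⟨hs, rfl⟩ | ⟨hs, rfl⟩) <;>
      exact Or.inr (Or.inr (Or.inr ⟨Or.inr (Or.inr (hb _)), rfl⟩))
  · -- separation
    have sab : a ≠ b := fun h => hX (congrFun h (X, z))
    have sa : ∀ s, (s = a * b ∨ s = b * a ∨ s = a * a ∨ s = b * b ∨ s = Z) → a ≠ s := by
      rintro s (rfl | rfl | rfl | rfl | rfl) h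
      · exact hX ((congrFun h (X, z)).trans (hzr X))
      · exact hX ((congrFun h (X, z)).trans (hzl X))
      · exact hX2 (congrFun h (X, z))
      · exact hX ((congrFun h (X, z)).trans (hzl z))
      · exact hX (congrFun h (X, z))
    have sb : ∀ s, (s = a * b ∨ s = b * a ∨ s = a * a ∨ s = b * b ∨ s = Z) → b ≠ s := by
      rintro s (rfl | rfl | rfl | rfl | rfl) h
      · exact hY ((congrFun h (z, Y)).trans (hzl Y))
      · exact hY ((congrFun h (z, Y)).trans (hzr Y))
      · exact hY ((congrFun h (z, Y)).trans (hzl z))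
      · exact hY2 (congrFun h (z, Y))
      · exact hY (congrFun h (z, Y))
    have sc : ∀ s s', (s = a * b ∨ s = b * a) → (s' = a * a ∨ s' = b * b ∨ s' = Z) →
        s ≠ s' := by
      rintro s s' (rfl | rfl) (rfl | rfl | rfl) h
      · have h1 : z = X * X := (hzr X).symm.trans (congrFun h (X, z))
        exact hXY ((congrFun h (X, Y)).trans h1.symm)
      · have h1 : z = Y * Y := (hzl Y).symm.trans (congrFun h (z, Y))
        exact hXY ((congrFun h (X, Y)).trans h1.symm)
      · exact hXY (congrFun h (X, Y))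
      · have h1 : z = Y * Y := (hzl Y).symm.trans (congrFun h (Y, z))
        exact hXY ((congrFun h (Y, X)).trans h1.symm)
      · have h1 : z = X * X := (hzr X).symm.trans (congrFun h (z, X))
        exact hXY ((congrFun h (Y, X)).trans h1.symm)
      · exact hXY (congrFun h (Y, X))
    rintro s t t' (⟨rfl, rfl⟩ | ⟨rfl, rfl⟩ | ⟨hs, rfl⟩ | ⟨hs, rfl⟩)
      (⟨h, rfl⟩ | ⟨h, rfl⟩ | ⟨hs', rfl⟩ | ⟨hs', rfl⟩)
    · rfl
    · exact absurd h sab
    · exact absurd rfl (sa _ (by tauto))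
    · exact absurd rfl (sa _ (by tauto))
    · exact absurd h.symm sab
    · rfl
    · exact absurd rfl (sb _ (by tauto))
    · exact absurd rfl (sb _ (by tauto))
    · exact absurd h.symm (sa _ (by tauto))
    · exact absurd h.symm (sb _ (by tauto))
    · rfl
    · exact absurd rfl (sc _ _ hs hs')
    · exact absurd h.symm (sa _ (by tauto))
    · exact absurd h.symm (sb _ (by tauto))
    · exact absurd rfl (sc _ _ hs' hs)
    · rfl
  · rintro (_ | _ | _ | _)
    · exact ⟨a, Or.inl ⟨rfl, rfl⟩⟩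
    · exact ⟨b, Or.inr (Or.inl ⟨rfl, rfl⟩)⟩
    · exact ⟨a * b, Or.inr (Or.inr (Or.inl ⟨Or.inl rfl, rfl⟩))⟩
    · exact ⟨Z, Or.inr (Or.inr (Or.inr ⟨Or.inr (Or.inr rfl), rfl⟩))⟩

section

variable {V : EpigroupVariety} {S : Type} [USemigroup S]

theorem cr_mul_idem (hC : ¬ V.mem C2) (hP : ¬ V.mem P3) (hS : V.mem S) {e : S}
    (he : e * e = e) (s : S) : CR (s * e) := by
  have h1 : (s * e) * e = s * e := by rw [mul_assoc, he]
  rcases stepD1 hP hS he h1 with h | h
  · exact h
  · exact stepD0 hC hS he h h1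

theorem cr_idem_mul (hC : ¬ V.mem C2) (hD : ¬ V.mem D3) (hS : V.mem S) {e : S}
    (he : e * e = e) (s : S) : CR (e * s) := by
  have h1 : e * (e * s) = e * s := by rw [← mul_assoc, he]
  rcases stepD1' hD hS he h1 with h | h
  · exact h
  · exact stepD0 hC hS he h1 h

theorem cr_left (hC : ¬ V.mem C2) (hP : ¬ V.mem P3) (hS : V.mem S) {s : S} (h : CR s)
    (t : S) : CR (t * s) := by
  have hE := V.isEpigroup S hS
  have h1 := cr_mul_idem hC hP hS (omega_idem hE s) (t * s)
  have h2 : t * s * (s * bar s) = t * s := by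
    rw [mul_assoc]
    exact congrArg (t * ·) h
  rw [h2] at h1
  exact h1

theorem cr_right (hC : ¬ V.mem C2) (hD : ¬ V.mem D3) (hS : V.mem S) {s : S} (h : CR s)
    (t : S) : CR (s * t) := by
  have hE := V.isEpigroup S hS
  have h1 := cr_idem_mul hC hD hS (omega_idem hE s) (s * t)
  have h0 : s * bar s * s = s := by
    rw [mul_assoc, ← bar_comm hE]
    exact h
  have h2 : s * bar s * (s * t) = s * t := by
    rw [← mul_assoc, h0]
  rw [h2] at h1
  exact h1

theorem cr_bar (hC : ¬ V.mem C2) (hD : ¬ V.mem D3) (hS : V.mem S) (s : S) :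
    CR (bar s) := by
  have hE := V.isEpigroup S hS
  have h1 := cr_idem_mul hC hD hS (omega_idem hE s) (bar s)
  rw [bar_comm hE, bar_mul_bar hE] at h1
  exact h1

/-- Structure of generated elements. -/
theorem struct0 (hC : ¬ V.mem C2) (hD : ¬ V.mem D3) (hS : V.mem S) {x y : S} {s : S}
    (h : Gen2 x y s) :
    CR s ∨ (s = x ∨ s = y) ∨ ∃ l r, (l = x ∨ l = y) ∧ s = l * r := by
  induction h with
  | left => exact Or.inr (Or.inl (Or.inl rfl))
  | right => exact Or.inr (Or.inl (Or.inr rfl))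
  | @mul a b _ _ iha _ =>
    rcases iha with h | h | ⟨l, r, hl, rfl⟩
    · exact Or.inl (cr_right hC hD hS h b)
    · exact Or.inr (Or.inr ⟨a, b, h, rfl⟩)
    · exact Or.inr (Or.inr ⟨l, r * b, hl, mul_assoc _ _ _⟩)
  | bar _ _ => exact Or.inl (cr_bar hC hD hS _)

theorem structS (hC : ¬ V.mem C2) (hD : ¬ V.mem D3) (hS : V.mem S) {x y : S}
    (hgen : ∀ s, Gen2 x y s) {m : ℕ} {s : S} (h : s ∈ Pw S (m + 1)) :
    CR s ∨ ∃ l r, (l = x ∨ l = y) ∧ s = l * r ∧ r ∈ Pw S m := by
  induction m generalizing s with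
  | zero =>
    obtain ⟨a, -, b, rfl⟩ := h
    rcases struct0 hC hD hS (hgen a) with h | h | ⟨l, r, hl, rfl⟩
    · exact Or.inl (cr_right hC hD hS h b)
    · exact Or.inr ⟨a, b, h, rfl, pw_zero _⟩
    · exact Or.inr ⟨l, r * b, hl, mul_assoc _ _ _, pw_zero _⟩
  | succ m ih =>
    obtain ⟨a, ha, b, rfl⟩ := h
    rcases ih ha with h | ⟨l, r, hl, rfl, hr⟩
    · exact Or.inl (cr_right hC hD hS h b)
    · exact Or.inr ⟨l, r * b, hl, mul_assoc _ _ _, pw_mul hr b⟩

theorem cr_transfer {T : Type} [USemigroup T] (f : UHom S T) {s : S} (h : CR s) :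
    CR (f s) := by
  have h1 := congrArg f.toFun h
  rw [f.map_mul, f.map_mul, f.map_bar] at h1
  exact h1

theorem cr_sq (hC : ¬ V.mem C2) (hP : ¬ V.mem P3) (hD : ¬ V.mem D3) (hN : ¬ V.mem N3)
    (hS : V.mem S) (x : S) : CR (x * x) := by
  have hD' : V.mem (Sub2 x x) := V.mem_sub2 hS x x
  have hE := V.isEpigroup _ hD'
  have h := stepD2 hN hD' (g1 x x) (g1 x x)
  have key : CR (g1 x x * g1 x x) := by
    have hgen := gen_sub2 x x
    rcases structS hC hD hD' hgen h with h1 | ⟨l, r, hl, hlr, hr⟩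
    · exact h1
    · have hl' : l = g1 x x := by rcases hl with h | h <;> exact h
      subst hl'
      rcases structS hC hD hD' hgen hr with h1 | ⟨l, r', hl, hlr', -⟩
      · rw [hlr]
        exact cr_left hC hP hD' h1 _
      · have hl' : l = g1 x x := by rcases hl with h | h <;> exact h
        subst hl'
        have h2 : g1 x x * g1 x x = g1 x x * g1 x x * r' := by
          rw [mul_assoc, ← hlr']
          exact hlr
        rcases struct0 hC hD hD' (hgen r') with h3 | h3 | ⟨l, r'', hl, rfl⟩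
        · rw [h2]
          exact cr_left hC hP hD' h3 _
        · have hl' : r' = g1 x x := by rcases h3 with h | h <;> exact h
          subst hl'
          apply cr_of_idem hE
          generalize g1 x x = X at h2
          have h4 : X * X * X = X * X := h2.symm
          rw [← mul_assoc, h4, h4]
        · have hl' : l = g1 x x := by rcases hl with h | h <;> exact h
          subst hl'
          refine cr_of_sq hE (r := r'' * r'') ?_
          generalize g1 x x = X at h2
          calc X * X = X * X * (X * r'') := h2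
            _ = X * (X * X) * r'' := by simp only [mul_assoc]
            _ = X * (X * X * (X * r'')) * r'' := by rw [← h2]
            _ = X * X * (X * X) * (r'' * r'') := by simp only [mul_assoc]
  exact cr_transfer (incl2 x x) key

/-- Step D: in a variety without `C2`, `P3`, `D3`, `N3`, all products are completely
regular. -/
theorem stepD (hC : ¬ V.mem C2) (hP : ¬ V.mem P3) (hD : ¬ V.mem D3) (hN : ¬ V.mem N3)
    (hS : V.mem S) (x y : S) : CR (x * y) := by
  have hD' : V.mem (Sub2 x y) := V.mem_sub2 hS x y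
  have hgen := gen_sub2 x y
  suffices key : CR (g1 x y * g2 x y) from cr_transfer (incl2 x y) key
  have h2 : ∀ s t : Sub2 x y, s * t ∈ Pw (Sub2 x y) 2 := fun s t => stepD2 hN hD' s t
  have h3 : g1 x y * g2 x y ∈ Pw (Sub2 x y) 3 := by
    obtain ⟨c, hc, d, hcd⟩ := h2 (g1 x y) (g2 x y)
    obtain ⟨a, -, b, rfl⟩ := hc
    rw [hcd]
    exact pw_mul (h2 a b) d
  have sq : ∀ s : Sub2 x y, CR (s * s) := fun s => cr_sq hC hP hD hN hD' s
  have L : ∀ {s : Sub2 x y}, CR s → ∀ t, CR (t * s) := fun h t => cr_left hC hP hD' h t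
  have R : ∀ {s : Sub2 x y}, CR s → ∀ t, CR (s * t) := fun h t => cr_right hC hD hD' h t
  generalize g1 x y = X at *
  generalize g2 x y = Y at *
  rcases structS hC hD hD' hgen h3 with h | ⟨l1, r1, hl1, e1, hr1⟩
  · exact h
  rw [e1]
  rcases structS hC hD hD' hgen hr1 with h | ⟨l2, r2, hl2, rfl, hr2⟩
  · exact L h _
  rcases structS hC hD hD' hgen hr2 with h | ⟨l3, r3, hl3, rfl, -⟩
  · exact L (L h _) _
  -- four letters
  have four : ∀ l4, (l4 = X ∨ l4 = Y) → CR (l1 * (l2 * (l3 * l4))) := by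
    intro l4 hl4
    by_cases h12 : l1 = l2
    · subst h12
      rw [← mul_assoc]
      exact R (sq _) _
    by_cases h23 : l2 = l3
    · subst h23
      rw [← mul_assoc l2]
      exact L (R (sq _) _) _
    by_cases h34 : l3 = l4
    · subst h34
      exact L (L (sq _) _) _
    have e13 : l1 = l3 := by grind
    have e24 : l2 = l4 := by grind
    rw [← e13, ← e24, ← mul_assoc]
    exact sq _
  rcases struct0 hC hD hD' (hgen r3) with h | h | ⟨l4, r4, hl4, rfl⟩
  · exact L (L (L h _) _) _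
  · exact four r3 h
  · have : l1 * (l2 * (l3 * (l4 * r4))) = l1 * (l2 * (l3 * l4)) * r4 := by
      simp only [mul_assoc]
    rw [this]
    exact R (four l4 hl4) _

end

end Pool.Agent.H99.Epi
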