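import Pool.Agent.H99.EpiBase

/-!
# Tools for the proof of the theorem on codistributive epigroup varieties
-/

namespace Pool.Agent.H99.Epi

/-- A natural binary operation on unary semigroups (a term in two variables). -/
structure BinOp where
  /-- the operation -/
  f : ∀ (S : Type) [USemigroup S], S → S → S
  nat : ∀ (S T : Type) [USemigroup S] [USemigroup T] (h : UHom S T) (x y : S),
    h (f S x y) = f T (h x) (h y)

/-- The identity `p ≈ q` holds in `S`. -/
def Sat (S : Type) [USemigroup S] (p q : BinOp) : Prop := ∀ x y : S, p.f S x y = q.f S x y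

/-- First projection. -/
def fstHom (A B : Type) [USemigroup A] [USemigroup B] : UHom (A × B) A :=
  ⟨Prod.fst, fun _ _ => rfl, fun _ => rfl⟩

/-- Second projection. -/
def sndHom (A B : Type) [USemigroup A] [USemigroup B] : UHom (A × B) B :=
  ⟨Prod.snd, fun _ _ => rfl, fun _ => rfl⟩

/-- Projections of arbitrary products. -/
def evalHom (ι : Type) (S : ι → Type) [∀ i, USemigroup (S i)] (i : ι) :
    UHom (∀ i, S i) (S i) :=
  ⟨fun f => f i, fun _ _ => rfl, fun _ => rfl⟩

/-- Closure properties of a class of unary semigroups. -/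
structure HSP (P : ∀ (S : Type) [USemigroup S], Prop) : Prop where
  h : ∀ (S T : Type) [USemigroup S] [USemigroup T] (f : UHom S T),
    Function.Surjective f → P S → P T
  s : ∀ (S T : Type) [USemigroup S] [USemigroup T] (f : UHom S T),
    Function.Injective f → P T → P S
  p : ∀ (ι : Type) (S : ι → Type) [∀ i, USemigroup (S i)], (∀ i, P (S i)) → P (∀ i, S i)

theorem hsp_and {P Q : ∀ (S : Type) [USemigroup S], Prop} (hP : HSP P) (hQ : HSP Q) :
    HSP (fun S _ => P S ∧ Q S) where
  h S T _ _ f hf h := ⟨hP.h S T f hf h.1, hQ.h S T f hf h.2⟩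
  s S T _ _ f hf h := ⟨hP.s S T f hf h.1, hQ.s S T f hf h.2⟩
  p ι S _ h := ⟨hP.p ι S fun i => (h i).1, hQ.p ι S fun i => (h i).2⟩

theorem hsp_sat (p q : BinOp) : HSP (fun S _ => Sat S p q) where
  h S T _ _ f hf h := by
    intro x y
    obtain ⟨x, rfl⟩ := hf x
    obtain ⟨y, rfl⟩ := hf y
    rw [← p.nat, ← q.nat, h x y]
  s S T _ _ f hf h := by
    intro x y
    apply hf
    rw [p.nat, q.nat, h]
  p ι S _ h := by
    intro x y
    funext i
    have h1 := p.nat _ _ (evalHom ι S i) x y
    have h2 := q.nat _ _ (evalHom ι S i) x y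
    exact h1.trans ((h i _ _).trans h2.symm)

/-- The epigroup variety given by a class closed under `H`, `S`, `P`. -/
def mkVar (P : ∀ (S : Type) [USemigroup S], Prop) (hP : HSP P)
    (hE : ∀ (S : Type) [USemigroup S], P S → IsEpigroup S) : EpigroupVariety where
  mem S _ := P S
  isEpigroup S _ h := hE S h
  hom_image S T _ _ f hf h := hP.h S T f hf h
  sub S T _ _ f hf h := hP.s S T f hf h
  prod ι S _ h := hP.p ι S h

/-- The main tool: in a codistributive variety, an identity that holds in `V ∧ Y` and in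
`V ∧ Z` holds in every member of `V` that belongs to `Y ∨ Z`. -/
theorem key {V : EpigroupVariety} (hV : IsCodistributive V) (Y Z : EpigroupVariety)
    (p q : BinOp) (hY : ∀ (S : Type) [USemigroup S], V.mem S → Y.mem S → Sat S p q)
    (hZ : ∀ (S : Type) [USemigroup S], V.mem S → Z.mem S → Sat S p q)
    (T : Type) [USemigroup T] (hT : V.mem T) (hT' : (Y ⊔ Z).mem T) : Sat T p q := by
  have h : (V ⊓ (Y ⊔ Z)).mem T := ⟨hT, hT'⟩
  rw [hV Y Z] at h
  obtain ⟨A, B, C, _, _, _, hA, hB, ⟨f, hf⟩, g, hg⟩ := h
  have hA' : Sat A p q := hY A hA.1 hA.2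
  have hB' : Sat B p q := hZ B hB.1 hB.2
  have hAB : Sat (A × B) p q := by
    intro x y
    refine Prod.ext ?_ ?_
    · exact (p.nat _ _ (fstHom A B) x y).trans
        ((hA' _ _).trans (q.nat _ _ (fstHom A B) x y).symm)
    · exact (p.nat _ _ (sndHom A B) x y).trans
        ((hB' _ _).trans (q.nat _ _ (sndHom A B) x y).symm)
  exact (hsp_sat p q).h C T g hg ((hsp_sat p q).s C (A × B) f hf hAB)

/-! ### Unary semigroups satisfying the Drazin identities with bounded index -/

/-- The identities of epigroups of index at most `n + 1`. -/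
def DrazinN (n : ℕ) (S : Type) [USemigroup S] : Prop :=
  ∀ x : S, x * bar x = bar x * x ∧ bar x * x * bar x = bar x ∧
    spow x n * (x * bar x) = spow x n

theorem hsp_drazin (n : ℕ) : HSP (fun S _ => DrazinN n S) where
  h S T _ _ f hf h := by
    intro x
    obtain ⟨x, rfl⟩ := hf x
    obtain ⟨h1, h2, h3⟩ := h x
    refine ⟨?_, ?_, ?_⟩
    · rw [← f.map_bar, ← f.map_mul, h1, f.map_mul]
    · rw [← f.map_bar, ← f.map_mul, ← f.map_mul, h2]
    · rw [← f.map_bar, ← f.map_mul, ← f.map_spow, ← f.map_mul, h3]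
  s S T _ _ f hf h := by
    intro x
    obtain ⟨h1, h2, h3⟩ := h (f x)
    refine ⟨?_, ?_, ?_⟩ <;> apply hf
    · rw [f.map_mul, f.map_mul, f.map_bar, h1]
    · rw [f.map_mul, f.map_mul, f.map_bar, h2]
    · rw [f.map_mul, f.map_mul, f.map_spow, f.map_bar, h3]
  p ι S _ h := by
    intro x
    refine ⟨funext fun i => (h i (x i)).1, funext fun i => (h i (x i)).2.1, ?_⟩
    funext i
    have := (evalHom ι S i).map_spow x n
    show spow x n i * (x i * bar (x i)) = spow x n i
    have h2 : spow x n i = spow (x i) n := this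
    rw [h2]
    exact (h i (x i)).2.2

theorem isEpigroup_of_drazin {n : ℕ} {S : Type} [USemigroup S] (h : DrazinN n S) :
    IsEpigroup S := fun x =>
  isPseudoinverse_of_drazin (h x).1 (h x).2.1 (h x).2.2

/-- Every epigroup variety has bounded index. -/
theorem exists_index (V : EpigroupVariety) :
    ∃ n, ∀ (S : Type) [USemigroup S], V.mem S → DrazinN n S := by
  by_contra hcon
  push Not at hcon
  choose S iS hS hSn using hcon
  have hx : ∀ n, ∃ x : S n, ¬ (spow x n * (x * bar x) = spow x n) := by
    intro n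
    have h1 := hSn n
    unfold DrazinN at h1
    push Not at h1
    obtain ⟨x, hx⟩ := h1
    obtain ⟨h2, h3, -⟩ := (V.isEpigroup (S n) (hS n) x).drazin
    exact ⟨x, hx h2 h3⟩
  choose x hx using hx
  have hp := V.prod ℕ S hS
  obtain ⟨h1, -, m, hm⟩ := (V.isEpigroup _ hp x).drazin
  apply hx m
  have h2 : spow x m m = spow (x m) m := (evalHom ℕ S m).map_spow x m
  have h3 := congrFun hm m
  change spow x m m * (x m * bar (x m)) = spow x m m at h3
  rw [h2] at h3
  exact h3

section elementary

variable {S : Type} [USemigroup S]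

/-- `x` is completely regular: `x * (x * bar x) = x`. -/
def CR (x : S) : Prop := x * (x * bar x) = x

theorem bar_comm (hS : IsEpigroup S) (x : S) : x * bar x = bar x * x := (hS x).drazin.1

theorem bar_mul_bar (hS : IsEpigroup S) (x : S) : bar x * x * bar x = bar x :=
  (hS x).drazin.2.1

theorem omega_idem (hS : IsEpigroup S) (x : S) : (x * bar x) * (x * bar x) = x * bar x := by
  rw [mul_assoc, ← mul_assoc (bar x), bar_mul_bar hS]

theorem bar_of_idem (hS : IsEpigroup S) {e : S} (he : e * e = e) : bar e = e := by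
  obtain ⟨h1, h2, n, h3⟩ := (hS e).drazin
  rw [spow_idem he] at h3
  have h4 : e * bar e = e := by
    rw [← mul_assoc, he] at h3
    exact h3
  calc bar e = bar e * e * bar e := h2.symm
    _ = bar e * (e * bar e) := mul_assoc _ _ _
    _ = bar e * e := by rw [h4]
    _ = e * bar e := h1.symm
    _ = e := h4

/-- If `x = x * x * r`-like relations hold, `x` is completely regular. -/
theorem cr_of_spow (hS : IsEpigroup S) {x : S} (h : ∀ n, ∃ t, x = spow x n * t) :
    CR x := by
  obtain ⟨h1, h2, n, h3⟩ := (hS x).drazin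
  obtain ⟨t, ht⟩ := h n
  have h4 : (x * bar x) * spow x n = spow x n := by
    have hxx : (x * bar x) * x = x * (x * bar x) := by
      rw [mul_assoc, ← h1]
    rw [spow_comm_of_comm hxx n, h3]
  have h5 : (x * bar x) * x = x := by
    calc (x * bar x) * x = (x * bar x) * (spow x n * t) := by rw [← ht]
      _ = ((x * bar x) * spow x n) * t := (mul_assoc _ _ _).symm
      _ = x := by rw [h4, ← ht]
  show x * (x * bar x) = x
  rw [h1, ← mul_assoc, h5]

end elementary

end Pool.Agent.H99.Epi
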