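import Pool.Agent.H99.EpiGen

/-!
# Nilpotent varieties given by congruences on words
-/

namespace Pool.Agent.H99.Epi

/-- Words over a two-letter alphabet. -/
abbrev Wd : Type := FreeSemigroup Bool

/-- Evaluation of words. -/
def ev {S : Type} [Semigroup S] (x y : S) : Wd →ₙ* S :=
  FreeSemigroup.lift (fun b => if b then x else y)

/-- The first letter. -/
abbrev lX : Wd := FreeSemigroup.of true
/-- The second letter. -/
abbrev lY : Wd := FreeSemigroup.of false

section evaluation

variable {S : Type} [USemigroup S]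

theorem ev_X (x y : S) : ev x y lX = x := rfl
theorem ev_Y (x y : S) : ev x y lY = y := rfl

theorem mulHom_spow {A B : Type} [Semigroup A] [Semigroup B] (f : A →ₙ* B) (a : A) (n : ℕ) :
    f (spow a n) = spow (f a) n := by
  induction n with
  | zero => rfl
  | succ n ih => show f (spow a n * a) = spow (f a) n * f a; rw [map_mul, ih]

theorem len_spow (a : Wd) (n : ℕ) : (spow a n).length = (n + 1) * a.length := by
  induction n with
  | zero => simp [spow]
  | succ n ih =>
    show (spow a n * a).length = _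
    rw [FreeSemigroup.length_mul, ih]
    ring

theorem len_pos (a : Wd) : 1 ≤ a.length := by
  simp [FreeSemigroup.length]

theorem len_one {a : Wd} (h : a.length = 1) : a = lX ∨ a = lY := by
  obtain ⟨b, l⟩ := a
  simp only [FreeSemigroup.length, Nat.add_eq_right, List.length_eq_zero_iff] at h
  subst h
  cases b
  · exact Or.inr rfl
  · exact Or.inl rfl

theorem ev_pw (x y : S) (w : Wd) : ∀ m, m + 1 ≤ w.length → ev x y w ∈ Pw S m := by
  induction w using FreeSemigroup.recOnMul with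
  | ih1 b =>
    intro m hm
    have : m = 0 := by simpa using hm
    subst this
    exact pw_zero _
  | ih2 b w _ ih =>
    intro m hm
    rw [map_mul]
    rw [FreeSemigroup.length_mul, FreeSemigroup.length_of] at hm
    cases m with
    | zero => exact pw_zero _
    | succ m => exact mul_pw (ih m (by omega)) _

end evaluation

/-- A congruence on words, together with a word playing the role of zero, gives a unary
semigroup. -/
def QU (c : Con Wd) (_z : Wd) : Type := c.Quotient

instance (c : Con Wd) (z : Wd) : USemigroup (QU c z) :=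
  { (inferInstance : Semigroup c.Quotient) with bar := fun _ => (z : c.Quotient) }

/-- The quotient map. -/
def qmk (c : Con Wd) (z : Wd) : Wd →ₙ* QU c z where
  toFun v := (v : c.Quotient)
  map_mul' _ _ := rfl

theorem qmk_surj (c : Con Wd) (z : Wd) : Function.Surjective (qmk c z) :=
  fun q => Quotient.exists_rep q

theorem qmk_eq (c : Con Wd) (z : Wd) {v w : Wd} : qmk c z v = qmk c z w ↔ c v w :=
  Con.eq c

theorem bar_qu (c : Con Wd) (z : Wd) (q : QU c z) : bar q = qmk c z z := rfl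

theorem mem_join_of_con {Y Z : EpigroupVariety} (c1 c2 : Con Wd) (z : Wd)
    (h1 : Y.mem (QU c1 z)) (h2 : Z.mem (QU c2 z)) {T : Type} [USemigroup T] (x y : T)
    (hgen : ∀ t, Gen2 x y t) (hbar : ∀ t : T, bar t = ev x y z)
    (hc : ∀ v v', c1 v v' → c2 v v' → ev x y v = ev x y v') : (Y ⊔ Z).mem T := by
  let c : Con Wd := c1 ⊓ c2
  have hle1 : ∀ v v', c v v' → c1 v v' := fun v v' h => h.1
  have hle2 : ∀ v v', c v v' → c2 v v' := fun v v' h => h.2
  let f : UHom (QU c z) (QU c1 z × QU c2 z) :=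
    { toFun := fun q => Quotient.liftOn q (fun v => (qmk c1 z v, qmk c2 z v)) (by
        intro v v' h
        exact Prod.ext ((qmk_eq c1 z).2 (hle1 _ _ h)) ((qmk_eq c2 z).2 (hle2 _ _ h)))
      map_mul := by
        rintro ⟨a⟩ ⟨b⟩
        rfl
      map_bar := by
        rintro ⟨a⟩
        rfl }
  let g : UHom (QU c z) T :=
    { toFun := fun q => Quotient.liftOn q (fun v => ev x y v) (by
        intro v v' h
        exact hc _ _ (hle1 _ _ h) (hle2 _ _ h))
      map_mul := by
        rintro ⟨a⟩ ⟨b⟩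
        exact map_mul (ev x y) a b
      map_bar := by
        rintro ⟨a⟩
        exact (hbar _).symm }
  refine ⟨QU c1 z, QU c2 z, QU c z, inferInstance, inferInstance, inferInstance, h1, h2,
    ⟨f, ?_⟩, g, ?_⟩
  · intro a b hab
    obtain ⟨a, rfl⟩ := qmk_surj c z a
    obtain ⟨b, rfl⟩ := qmk_surj c z b
    rw [qmk_eq]
    exact ⟨(qmk_eq c1 z).1 (congrArg Prod.fst hab), (qmk_eq c2 z).1 (congrArg Prod.snd hab)⟩
  · intro t
    have key : ∀ t : T, Gen2 x y t → ∃ v : Wd, ev x y v = t := by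
      intro t ht
      induction ht with
      | left => exact ⟨lX, rfl⟩
      | right => exact ⟨lY, rfl⟩
      | mul _ _ ih1 ih2 =>
        obtain ⟨v, rfl⟩ := ih1
        obtain ⟨w, rfl⟩ := ih2
        exact ⟨v * w, map_mul _ _ _⟩
      | bar _ _ => exact ⟨z, (hbar _).symm⟩
    obtain ⟨v, rfl⟩ := key t (hgen t)
    exact ⟨qmk c z v, rfl⟩

/-! ### Nilpotent unary semigroups -/

/-- All `bar a` are equal to a zero element, and all products of `K + 1` elements are equal
to this zero element. -/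
def NilP (K : ℕ) (S : Type) [USemigroup S] : Prop :=
  (∀ a b : S, bar a = bar b) ∧ (∀ a b : S, bar a * b = bar a) ∧
    (∀ a b : S, b * bar a = bar a) ∧ ∀ a ∈ Pw S K, ∀ b : S, a = bar b

theorem hsp_nil (K : ℕ) : HSP (fun S _ => NilP K S) where
  h S T _ _ f hf h := by
    obtain ⟨h1, h2, h3, h4⟩ := h
    refine ⟨?_, ?_, ?_, ?_⟩
    · intro a b
      obtain ⟨a, rfl⟩ := hf a
      obtain ⟨b, rfl⟩ := hf b
      rw [← f.map_bar, ← f.map_bar, h1]
    · intro a b
      obtain ⟨a, rfl⟩ := hf a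
      obtain ⟨b, rfl⟩ := hf b
      rw [← f.map_bar, ← f.map_mul, h2]
    · intro a b
      obtain ⟨a, rfl⟩ := hf a
      obtain ⟨b, rfl⟩ := hf b
      rw [← f.map_bar, ← f.map_mul, h3]
    · intro a ha b
      obtain ⟨a, ha', rfl⟩ := pw_lift f hf ha
      obtain ⟨b, rfl⟩ := hf b
      rw [← f.map_bar, h4 a ha' b]
  s S T _ _ f hf h := by
    obtain ⟨h1, h2, h3, h4⟩ := h
    refine ⟨?_, ?_, ?_, ?_⟩
    · intro a b
      apply hf
      rw [f.map_bar, f.map_bar]
      exact h1 _ _
    · intro a b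
      apply hf
      rw [f.map_mul, f.map_bar]
      exact h2 _ _
    · intro a b
      apply hf
      rw [f.map_mul, f.map_bar]
      exact h3 _ _
    · intro a ha b
      apply hf
      rw [f.map_bar]
      exact h4 _ (pw_map f ha) _
  p ι S _ h := by
    refine ⟨?_, ?_, ?_, ?_⟩
    · intro a b
      funext i
      exact (h i).1 _ _
    · intro a b
      funext i
      exact (h i).2.1 _ _
    · intro a b
      funext i
      exact (h i).2.2.1 _ _
    · intro a ha b
      funext i
      exact (h i).2.2.2 _ (pw_map (evalHom ι S i) ha) _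

theorem spow_pw {S : Type} [USemigroup S] (x : S) (K : ℕ) : spow x K ∈ Pw S K := by
  induction K with
  | zero => exact pw_zero _
  | succ K ih => exact pw_mul ih x

theorem nil_drazin {K : ℕ} {S : Type} [USemigroup S] (h : NilP K S) : DrazinN K S := by
  obtain ⟨h1, h2, h3, h4⟩ := h
  intro x
  refine ⟨?_, ?_, ?_⟩
  · rw [h2, h3]
  · rw [h2, h2]
  · rw [h3, h3]
    exact (h4 _ (spow_pw x K) x).symm

/-- The variety of nilpotent epigroups of class `K + 1` with the identity `p ≈ q`. -/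
def varN (K : ℕ) (p q : BinOp) : EpigroupVariety :=
  mkVar (fun S _ => NilP K S ∧ Sat S p q) (hsp_and (hsp_nil K) (hsp_sat _ _))
    (fun _ _ h => isEpigroup_of_drazin (nil_drazin h.1))

theorem pw_qu (c : Con Wd) (z : Wd) (K : ℕ) {a : QU c z} (ha : a ∈ Pw (QU c z) K) :
    ∃ v : Wd, K + 1 ≤ v.length ∧ a = qmk c z v := by
  induction K generalizing a with
  | zero =>
    obtain ⟨v, rfl⟩ := qmk_surj c z a
    exact ⟨v, len_pos v, rfl⟩
  | succ K ih =>
    obtain ⟨b, hb, d, rfl⟩ := ha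
    obtain ⟨v, hv, rfl⟩ := ih hb
    obtain ⟨w, rfl⟩ := qmk_surj c z d
    refine ⟨v * w, ?_, (map_mul _ _ _).symm⟩
    rw [FreeSemigroup.length_mul]
    have := len_pos w
    omega

theorem qu_mem (c : Con Wd) (z : Wd) (K : ℕ) (p q : BinOp) (hz : K + 1 ≤ z.length)
    (h : ∀ v : Wd, K + 1 ≤ v.length → c v z)
    (hpq : ∀ a b : Wd, p.f (QU c z) (qmk c z a) (qmk c z b) =
      q.f (QU c z) (qmk c z a) (qmk c z b)) : (varN K p q).mem (QU c z) := by
  refine ⟨⟨?_, ?_, ?_, ?_⟩, ?_⟩
  · intro a b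
    rfl
  · intro a b
    obtain ⟨b, rfl⟩ := qmk_surj c z b
    rw [bar_qu, ← map_mul, qmk_eq]
    apply h
    rw [FreeSemigroup.length_mul]
    omega
  · intro a b
    obtain ⟨b, rfl⟩ := qmk_surj c z b
    rw [bar_qu, ← map_mul, qmk_eq]
    apply h
    rw [FreeSemigroup.length_mul]
    omega
  · intro a ha b
    obtain ⟨v, hv, rfl⟩ := pw_qu c z K ha
    rw [bar_qu, qmk_eq]
    exact h v hv
  · intro a b
    obtain ⟨a, rfl⟩ := qmk_surj c z a
    obtain ⟨b, rfl⟩ := qmk_surj c z b
    exact hpq a b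

/-! ### Congruences identifying pairs of words annihilated by all letters -/

/-- All products with `v` are in `D`. -/
def Soc (D : Set Wd) (v : Wd) : Prop := ∀ s : Wd, v * s ∈ D ∧ s * v ∈ D

/-- The congruence defined by an ideal `D` and a map `π`. -/
def conOf (D : Set Wd) (hD : ∀ v ∈ D, Soc D v) (π : Wd → Wd)
    (hπ : ∀ v v', π v = π v' → v = v' ∨ (Soc D v ∧ Soc D v')) : Con Wd where
  r v v' := (v ∈ D ∧ v' ∈ D) ∨ (v ∉ D ∧ v' ∉ D ∧ π v = π v')
  iseqv := by
    refine ⟨?_, ?_, ?_⟩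
    · intro v
      by_cases h : v ∈ D
      · exact Or.inl ⟨h, h⟩
      · exact Or.inr ⟨h, h, rfl⟩
    · rintro v w (⟨h1, h2⟩ | ⟨h1, h2, h3⟩)
      · exact Or.inl ⟨h2, h1⟩
      · exact Or.inr ⟨h2, h1, h3.symm⟩
    · rintro u v w (⟨h1, h2⟩ | ⟨h1, h2, h3⟩) (⟨h4, h5⟩ | ⟨h4, h5, h6⟩)
      · exact Or.inl ⟨h1, h5⟩
      · exact absurd h2 h4
      · exact absurd h4 h2
      · exact Or.inr ⟨h1, h5, h3.trans h6⟩
  mul' := by
    have key : ∀ v v' : Wd, ((v ∈ D ∧ v' ∈ D) ∨ (v ∉ D ∧ v' ∉ D ∧ π v = π v')) →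
        v = v' ∨ (Soc D v ∧ Soc D v') := by
      rintro v v' (⟨h1, h2⟩ | ⟨_, _, h3⟩)
      · exact Or.inr ⟨hD _ h1, hD _ h2⟩
      · exact hπ _ _ h3
    have refl : ∀ v : Wd, ((v ∈ D ∧ v ∈ D) ∨ (v ∉ D ∧ v ∉ D ∧ π v = π v)) := by
      intro v
      by_cases h : v ∈ D
      · exact Or.inl ⟨h, h⟩
      · exact Or.inr ⟨h, h, rfl⟩
    intro a b c d h1 h2
    rcases key _ _ h1 with rfl | ⟨h3, h4⟩
    · rcases key _ _ h2 with rfl | ⟨h5, h6⟩
      · exact refl _
      · exact Or.inl ⟨(h5 _).2, (h6 _).2⟩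
    · exact Or.inl ⟨(h3 _).1, (h4 _).1⟩

/-- The map sending `a` to `c` and `b` to `d` and fixing the other words. -/
def swp (a b c d : Wd) (v : Wd) : Wd := if v = a then c else if v = b then d else v

theorem swp_inj {P : Wd → Prop} {a b c d : Wd} (ha : P a) (hb : P b) (hc : P c) (hd : P d)
    (v v' : Wd) (h : swp a b c d v = swp a b c d v') : v = v' ∨ (P v ∧ P v') := by
  unfold swp at h
  split_ifs at h <;> subst_vars <;> simp_all

theorem swp_meet {a b c d : Wd} (hab : a ≠ b) (hac : a ≠ c) (had : a ≠ d) (hbc : b ≠ c)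
    (hbd : b ≠ d) (hcd : c ≠ d) (v v' : Wd) (h : swp a b c d v = swp a b c d v')
    (h' : swp b a c d v = swp b a c d v') : v = v' := by
  unfold swp at h h'
  split_ifs at h h' <;> subst_vars <;> simp_all

end Pool.Agent.H99.Epi
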